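import Pool.Agent.R970.FB.Defs
import Pool.Agent.Helper41.BS.ExistBM

set_option autoImplicit false

open scoped ENNReal NNReal Topology
open MeasureTheory ProbabilityTheory Set Filter
open ProbabilityTheory.BrownianReal

/-! ## BM: existence, regular version, law -/

namespace Pool.Agent.R970.FB

variable {Ω : Type*} [MeasurableSpace Ω]

/-- Two independent Brownian motions starting at `0` with all paths continuous. -/
theorem exists_two : ∃ (Ω : Type) (_ : MeasurableSpace Ω) (P : Measure Ω)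
    (B C : ℝ≥0 → Ω → ℝ), IsProbabilityMeasure P ∧
      (∀ t, Measurable (B t)) ∧ (∀ t, Measurable (C t)) ∧
      (∀ ω, Continuous (B · ω)) ∧ (∀ ω, Continuous (C · ω)) ∧
      (∀ ω, B 0 ω = 0) ∧ (∀ ω, C 0 ω = 0) ∧
      IsPreBrownianReal B P ∧ IsPreBrownianReal C P ∧
      IndepFun (fun ω t => B t ω) (fun ω t => C t ω) P := by
  classical
  obtain ⟨Ω, mΩ, P, hP, B, hB⟩ := Pool.Agent.Helper41.BS.exists_bm2_pre
  have hc : ∀ᵐ ω ∂P, ∀ i, Continuous (fun t => B i t ω) ∧ B i 0 ω = 0 := by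
    refine ae_all_iff.2 fun i => ?_
    filter_upwards [(hB.bm i).cont, (hB.bm i).toIsPreBrownianReal.eval_zero_ae_eq_zero]
      with ω h1 h2 using ⟨h1, h2⟩
  obtain ⟨N, hN1, hN2, hN3⟩ := exists_measurable_superset_of_null (ae_iff.1 hc)
  let W : Fin 2 → ℝ≥0 → Ω → ℝ := fun i t ω => if ω ∈ N then 0 else B i t ω
  have hgood : ∀ ω, ω ∉ N → ∀ i, Continuous (fun t => B i t ω) ∧ B i 0 ω = 0 := by
    intro ω hω
    by_contra hcon
    exact hω (hN1 hcon)
  have hWm : ∀ i t, Measurable (W i t) := fun i t =>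
    Measurable.ite hN2 measurable_const (hB.meas i t)
  have hWc : ∀ i ω, Continuous (fun t => W i t ω) := by
    intro i ω
    by_cases hω : ω ∈ N
    · simp only [W, if_pos hω]; exact continuous_const
    · simp only [W, if_neg hω]; exact (hgood ω hω i).1
  have hW0 : ∀ i ω, W i 0 ω = 0 := by
    intro i ω
    by_cases hω : ω ∈ N
    · simp only [W, if_pos hω]
    · simp only [W, if_neg hω]; exact (hgood ω hω i).2
  have hNae : ∀ᵐ ω ∂P, ω ∉ N := measure_eq_zero_iff_ae_notMem.1 hN3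
  have hpre : ∀ i, IsPreBrownianReal (W i) P := by
    intro i
    refine (hB.bm i).toIsPreBrownianReal.congr fun t => ?_
    filter_upwards [hNae] with ω hω
    simp only [W, if_neg hω]
  refine ⟨Ω, mΩ, P, W 0, W 1, hP, hWm 0, hWm 1, hWc 0, hWc 1, hW0 0, hW0 1, hpre 0, hpre 1, ?_⟩
  refine hB.indep.congr ?_ ?_
  · filter_upwards [hNae] with ω hω
    funext t
    simp only [W, if_neg hω]
  · filter_upwards [hNae] with ω hω
    funext t
    simp only [W, if_neg hω]

theorem isW_map {P : Measure Ω} {B : ℝ≥0 → Ω → ℝ} (hm : ∀ t, Measurable (B t))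
    (h : IsPreBrownianReal B P) : IsW (P.map (fun ω t => B t ω)) := by
  intro I
  rw [Measure.map_map (Finset.measurable_restrict I) (measurable_pi_lambda _ hm)]
  exact (h.hasLaw I).map_eq

theorem exists_isW : ∃ W : Measure (ℝ≥0 → ℝ), IsW W := by
  obtain ⟨Ω, mΩ, P, B, C, hP, hBm, _, _, _, _, _, hB, _, _⟩ := exists_two
  exact ⟨_, isW_map hBm hB⟩

theorem IsW.unique {W W' : Measure (ℝ≥0 → ℝ)} (h : IsW W) (h' : IsW W') : W = W' :=
  IsProjectiveLimit.unique h h'

theorem isPreBrownianReal_iff {W : Measure (ℝ≥0 → ℝ)} (h : IsW W) {P : Measure Ω}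
    {B : ℝ≥0 → Ω → ℝ} (hm : ∀ t, Measurable (B t)) :
    IsPreBrownianReal B P ↔ P.map (fun ω t => B t ω) = W := by
  constructor
  · intro hB
    exact (isW_map hm hB).unique h
  · intro hW
    refine ⟨fun I => ⟨?_, ?_⟩⟩
    · exact (measurable_pi_lambda _ fun t : I => hm t).aemeasurable
    · have h1 := h I
      rw [← hW, Measure.map_map (Finset.measurable_restrict I) (measurable_pi_lambda _ hm)] at h1
      exact h1

end Pool.Agent.R970.FB
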