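import Pool.Agent.R970.FB.Defs

set_option autoImplicit false

open scoped ENNReal NNReal Topology
open MeasureTheory ProbabilityTheory Set Filter
open ProbabilityTheory.BrownianReal

namespace Pool.Agent.R970.FB

theorem kap_ge (i : ℕ) : (i : ℝ≥0) + 1 ≤ kap i := by
  unfold kap
  have h : ((i : ℕ) + 1 : ℕ) ≤ 64 ^ (i + 1) := (Nat.lt_pow_self (by norm_num)).le
  exact_mod_cast h

theorem kap_mono : Monotone kap := fun i j h => by
  unfold kap
  exact pow_le_pow_right₀ (by norm_num) (by lia)

theorem kap_succ (i : ℕ) : kap (i + 1) = 64 * kap i := by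
  unfold kap
  ring

theorem eps_pos (i : ℕ) : 0 < eps i := by
  unfold eps
  positivity

theorem eps_le (i : ℕ) : eps i ≤ 4 / 9 := by
  unfold eps
  have : (4 / 9 : ℝ≥0) ^ (i + 1) ≤ (4 / 9) ^ 1 :=
    pow_le_pow_of_le_one (by positivity) (by
      rw [← NNReal.coe_le_coe]; push_cast; norm_num) (by lia)
  simpa using this

theorem ramp_zero {i : ℕ} {t : ℝ≥0} (h : t ≤ kap i) : ramp i t = 0 := by
  unfold ramp
  have h1 : ((t : ℝ) - kap i) / eps i ≤ 0 :=
    div_nonpos_of_nonpos_of_nonneg (sub_nonpos.2 (by exact_mod_cast h)) (eps i).2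
  exact max_eq_left ((min_le_right _ _).trans h1)

theorem ramp_one {i : ℕ} {t : ℝ≥0} (h : kap i + eps i ≤ t) : ramp i t = 1 := by
  unfold ramp
  have h1 : 1 ≤ ((t : ℝ) - kap i) / eps i := by
    rw [le_div_iff₀ (by exact_mod_cast eps_pos i), one_mul]
    have : ((kap i + eps i : ℝ≥0) : ℝ) ≤ t := by exact_mod_cast h
    push_cast at this
    linarith
  rw [min_eq_left h1]
  norm_num

theorem continuous_ramp (i : ℕ) : Continuous (ramp i) := by
  unfold ramp
  fun_prop

theorem Psi_eq {N : ℕ} {t : ℝ≥0} (h : t ≤ kap N) (b : ℝ≥0 → ℝ) : Psi b t = PsiN N b t := by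
  unfold Psi PsiN
  congr 1
  have hz : ∀ i, (N ≤ i ∨ ⌈t⌉₊ ≤ i) → 2 * max (-(Del i b)) 0 * ramp i t = 0 := by
    intro i hi
    have : t ≤ kap i := by
      rcases hi with hi | hi
      · exact h.trans (kap_mono hi)
      · refine (Nat.le_ceil t).trans (le_trans ?_ (kap_ge i))
        have : ((⌈t⌉₊ : ℕ) : ℝ≥0) ≤ i := by exact_mod_cast hi
        exact this.trans (by simp)
    rw [ramp_zero this, mul_zero]
  rcases le_total ⌈t⌉₊ N with h1 | h1
  · refine Finset.sum_subset (Finset.range_mono h1) fun i _ hi => hz i (Or.inr ?_)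
    simpa using hi
  · refine (Finset.sum_subset (Finset.range_mono h1) fun i _ hi => hz i (Or.inl ?_)).symm
    simpa using hi

theorem measurable_Del (i : ℕ) : Measurable (Del i) := by
  unfold Del
  fun_prop

theorem measurable_PsiN (N : ℕ) : Measurable (PsiN N) := by
  refine measurable_pi_lambda _ fun t => ?_
  unfold PsiN
  refine (measurable_pi_apply t).add (Finset.measurable_sum _ fun i _ => ?_)
  exact ((measurable_const.mul ((measurable_Del i).neg.max measurable_const))).mul_const _

theorem measurable_Psi : Measurable Psi := by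
  refine measurable_pi_lambda _ fun t => ?_
  exact (measurable_pi_apply t).comp (measurable_PsiN ⌈t⌉₊)

theorem continuous_PsiN (N : ℕ) {b : ℝ≥0 → ℝ} (hb : Continuous b) : Continuous (PsiN N b) := by
  unfold PsiN
  refine hb.add (continuous_finsetSum _ fun i _ => ?_)
  exact continuous_const.mul (continuous_ramp i)

theorem continuous_Psi {b : ℝ≥0 → ℝ} (hb : Continuous b) : Continuous (Psi b) := by
  refine continuous_iff_continuousAt.2 fun t => ?_
  obtain ⟨N, hN⟩ : ∃ N : ℕ, t < kap N := by
    obtain ⟨N, hN⟩ := exists_nat_gt t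
    exact ⟨N, hN.trans_le (le_trans (by simp) (kap_ge N))⟩
  refine (continuous_PsiN N hb).continuousAt.congr ?_
  filter_upwards [Iio_mem_nhds hN] with x hx
  exact (Psi_eq hx.le b).symm

theorem PsiN_zero (N : ℕ) (b : ℝ≥0 → ℝ) : PsiN N b 0 = b 0 := by
  unfold PsiN
  rw [Finset.sum_eq_zero, add_zero]
  intro i _
  rw [ramp_zero zero_le, mul_zero]

theorem PsiN_after {j : ℕ} (b : ℝ≥0 → ℝ) {t : ℝ≥0} (h : ∀ i < j, kap i + eps i ≤ t) :
    PsiN j b t = b t + ∑ i ∈ Finset.range j, 2 * max (-(Del i b)) 0 := by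
  unfold PsiN
  congr 1
  refine Finset.sum_congr rfl fun i hi => ?_
  rw [ramp_one (h i (Finset.mem_range.1 hi)), mul_one]

/-- The increments of `PsiN N b` over the windows `i < N`, and over the later windows. -/
theorem Del_PsiN {N i : ℕ} (b : ℝ≥0 → ℝ) (hi : i < N) : Del i (PsiN N b) = |Del i b| := by
  have h1 : ∀ l, l ≠ i → ramp l (kap i + eps i) = ramp l (kap i) := by
    intro l hl
    have key : ∀ p q : ℕ, p < q → kap p + eps p ≤ kap q := by
      intro p q hpq
      have h2 : kap (p + 1) ≤ kap q := kap_mono hpq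
      refine le_trans ?_ h2
      rw [kap_succ]
      have h3 := eps_le p
      have h4 := kap_ge p
      rw [← NNReal.coe_le_coe] at h3 h4 ⊢
      push_cast at *
      have : (0 : ℝ) ≤ p := Nat.cast_nonneg p
      linarith
    rcases lt_or_gt_of_ne hl with h | h
    · rw [ramp_one ((key l i h).trans (by simp)), ramp_one (key l i h)]
    · rw [ramp_zero (key i l h), ramp_zero ((by simp : kap i ≤ kap i + eps i).trans (key i l h))]
  have h2 : ramp i (kap i + eps i) = 1 := ramp_one le_rfl
  have h3 : ramp i (kap i) = 0 := ramp_zero le_rfl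
  unfold Del
  unfold PsiN
  have h4 : ∑ l ∈ Finset.range N, 2 * max (-(Del l b)) 0 * ramp l (kap i + eps i) -
      ∑ l ∈ Finset.range N, 2 * max (-(Del l b)) 0 * ramp l (kap i) =
      2 * max (-(Del i b)) 0 := by
    rw [← Finset.sum_sub_distrib, Finset.sum_eq_single i]
    · rw [h2, h3]; ring
    · intro l _ hl
      rw [h1 l hl]; ring
    · intro h
      exact absurd (Finset.mem_range.2 hi) h
  have h5 : b (kap i + eps i) - b (kap i) + 2 * max (-(Del i b)) 0 =
      |b (kap i + eps i) - b (kap i)| := by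
    show Del i b + 2 * max (-(Del i b)) 0 = |Del i b|
    rcases le_total 0 (Del i b) with h | h
    · rw [abs_of_nonneg h, max_eq_right (by linarith)]; ring
    · rw [abs_of_nonpos h, max_eq_left (by linarith)]; ring
  linarith

end Pool.Agent.R970.FB
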