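import Pool.Agent.R970.FB.Defs

set_option autoImplicit false

open scoped ENNReal NNReal Topology
open MeasureTheory ProbabilityTheory Set Filter
open ProbabilityTheory.BrownianReal

/-! # Piece D: the density lemma -/

namespace Pool.Agent.R970.FB

theorem IsW.pre {W : Measure (ℝ≥0 → ℝ)} (hW : IsW W) :
    IsPreBrownianReal (fun (t : ℝ≥0) (b : ℝ≥0 → ℝ) => b t) W where
  hasLaw I := ⟨(Finset.measurable_restrict I).aemeasurable, hW I⟩

theorem eps_pos (i : ℕ) : 0 < eps i := by unfold eps; positivity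

theorem eps_le_one (i : ℕ) : eps i ≤ 1 := by
  unfold eps
  apply pow_le_one₀ (by positivity)
  rw [← NNReal.coe_le_coe]; push_cast; norm_num

theorem kap_add_eps_le {i N : ℕ} (h : i < N) : kap i + eps i ≤ kap N := by
  have h1 : kap i + 1 ≤ kap (i + 1) := by
    unfold kap
    have : (1 : ℝ≥0) ≤ 64 ^ (i + 1) := one_le_pow₀ (by norm_num)
    calc (64 : ℝ≥0) ^ (i + 1) + 1 ≤ 64 ^ (i + 1) + 64 ^ (i + 1) := by gcongr
      _ = 64 ^ (i + 1) * 2 := by ring
      _ ≤ 64 ^ (i + 1) * 64 := by gcongr; norm_num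
      _ = 64 ^ (i + 1 + 1) := by ring
  have h2 : kap (i + 1) ≤ kap N := by
    unfold kap
    exact pow_le_pow_right₀ (by norm_num) (by omega)
  calc kap i + eps i ≤ kap i + 1 := by gcongr; exact eps_le_one i
    _ ≤ _ := h1
    _ ≤ _ := h2

theorem ramp_of_le {i : ℕ} {t : ℝ≥0} (h : t ≤ kap i) : ramp i t = 0 := by
  unfold ramp
  have h1 : ((t : ℝ) - kap i) / eps i ≤ 0 := by
    apply div_nonpos_of_nonpos_of_nonneg
    · have : (t : ℝ) ≤ kap i := by exact_mod_cast h
      linarith
    · positivity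
  rw [max_eq_left]
  exact min_le_of_right_le h1

theorem ramp_of_ge {i : ℕ} {t : ℝ≥0} (h : kap i + eps i ≤ t) : ramp i t = 1 := by
  unfold ramp
  have he : (0 : ℝ) < eps i := by exact_mod_cast eps_pos i
  have h1 : 1 ≤ ((t : ℝ) - kap i) / eps i := by
    rw [le_div_iff₀ he]
    have : (kap i : ℝ) + eps i ≤ t := by exact_mod_cast h
    linarith
  rw [min_eq_left h1]
  norm_num

theorem ramp_cov (i : ℕ) (t : ℝ≥0) :
    (min t (kap i + eps i) : ℝ≥0) - ((min t (kap i) : ℝ≥0) : ℝ) = eps i * ramp i t := by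
  have he : (0 : ℝ) < eps i := by exact_mod_cast eps_pos i
  rcases le_total t (kap i) with h | h
  · rw [ramp_of_le h, min_eq_left h, min_eq_left (h.trans (by simp))]
    simp
  rcases le_total (kap i + eps i) t with h' | h'
  · rw [ramp_of_ge h', min_eq_right h', min_eq_right h]
    push_cast; ring
  · rw [min_eq_left h', min_eq_right h]
    unfold ramp
    have h1 : (kap i : ℝ) ≤ t := by exact_mod_cast h
    have h2 : (t : ℝ) ≤ kap i + eps i := by exact_mod_cast h'
    rw [min_eq_right, max_eq_right]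
    · field_simp
    · apply div_nonneg <;> linarith
    · rw [div_le_one he]; linarith

theorem measurable_Del (i : ℕ) : Measurable (Del i) := by
  unfold Del; fun_prop

theorem measurable_PsiN (N : ℕ) : Measurable (PsiN N) := by
  rw [measurable_pi_iff]
  intro t
  unfold PsiN
  have := measurable_Del
  fun_prop

/-- The bridge part over the window number `N`. -/
noncomputable def bri (N : ℕ) (b : ℝ≥0 → ℝ) (t : ℝ≥0) : ℝ := b t - Del N b * ramp N t

theorem measurable_bri (N : ℕ) : Measurable (bri N) := by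
  rw [measurable_pi_iff]
  intro t
  unfold bri
  have := measurable_Del
  fun_prop

theorem indep_bri {W : Measure (ℝ≥0 → ℝ)} (hW : IsW W) (N : ℕ) :
    IndepFun (bri N) (Del N) W := by
  have hp := hW.pre
  have hP : IsProbabilityMeasure W := hp.isGaussianProcess.isProbabilityMeasure
  have key : IndepFun (fun (b : ℝ≥0 → ℝ) (s : ℝ≥0) => bri N b s)
      (fun (b : ℝ≥0 → ℝ) (_ : Unit) => Del N b) W := by
    apply IsGaussianProcess.indepFun_of_covariance_eq_zero
    · apply hp.isGaussianProcess.of_isGaussianProcess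
      rintro (t | u)
      · exact ⟨{t, kap N, kap N + eps N},
          { toFun x := x ⟨t, by simp⟩ -
              (x ⟨kap N + eps N, by simp⟩ - x ⟨kap N, by simp⟩) * ramp N t
            map_add' x y := by simp; ring
            map_smul' c x := by simp; ring }, by simp [bri, Del]⟩
      · exact ⟨{kap N, kap N + eps N},
          { toFun x := x ⟨kap N + eps N, by simp⟩ - x ⟨kap N, by simp⟩
            map_add' x y := by simp; ring
            map_smul' c x := by simp; ring }, by simp [Del]⟩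
    · intro s
      exact ((measurable_pi_apply s).comp (measurable_bri N)).aemeasurable
    · intro u
      exact (measurable_Del N).aemeasurable
    · intro s u
      have hL : ∀ t : ℝ≥0, MemLp (fun b : ℝ≥0 → ℝ => b t) 2 W := fun t =>
        (hp.isGaussianProcess.hasGaussianLaw_eval t).memLp_two
      have hD : MemLp (fun b : ℝ≥0 → ℝ => Del N b) 2 W := by
        unfold Del; exact (hL _).sub (hL _)
      have hc : ∀ s t : ℝ≥0, cov[fun b : ℝ≥0 → ℝ => b s, fun b => b t; W] = min s t :=
        fun s t => hp.covariance_fun_eval s t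
      have hcD : ∀ s : ℝ≥0, cov[fun b : ℝ≥0 → ℝ => b s, fun b => Del N b; W]
          = eps N * ramp N s := by
        intro s
        unfold Del
        rw [covariance_fun_sub_right (hL _) (hL _) (hL _), hc, hc, ← ramp_cov]
      have hDD : cov[fun b : ℝ≥0 → ℝ => Del N b, fun b => Del N b; W] = eps N := by
        have h := covariance_fun_sub_left (hL (kap N + eps N)) (hL (kap N)) hD
        rw [hcD, hcD, ramp_of_ge le_rfl, ramp_of_le le_rfl] at h
        exact h.trans (by ring)
      unfold bri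
      rw [covariance_fun_sub_left (hL _) (hD.mul_const _) hD, hcD, covariance_mul_const_left, hDD]
      ring
  exact key.comp (φ := id) (ψ := fun f : Unit → ℝ => f ()) measurable_id (measurable_pi_apply _)

theorem Del_bri_of_lt {i N : ℕ} (h : i < N) (b : ℝ≥0 → ℝ) : Del i (bri N b) = Del i b := by
  unfold Del bri
  rw [ramp_of_le (i := N) (t := kap i + eps i) (kap_add_eps_le h),
    ramp_of_le (i := N) (t := kap i) (le_trans (by simp) (kap_add_eps_le h))]
  ring

theorem Del_bri_self (N : ℕ) (b : ℝ≥0 → ℝ) : Del N (bri N b) = 0 := by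
  have h : bri N b (kap N + eps N) - bri N b (kap N) = 0 := by
    unfold bri
    rw [ramp_of_ge (i := N) (t := kap N + eps N) le_rfl, ramp_of_le (i := N) (t := kap N) le_rfl]
    unfold Del
    ring
  exact h

/-- Adding a multiple of a ramp. -/
noncomputable def Fn (N : ℕ) (p : (ℝ≥0 → ℝ) × ℝ) (t : ℝ≥0) : ℝ := PsiN N p.1 t + p.2 * ramp N t

theorem measurable_Fn (N : ℕ) : Measurable (Fn N) := by
  rw [measurable_pi_iff]
  intro t
  unfold Fn
  have h1 : Measurable fun p : (ℝ≥0 → ℝ) × ℝ => PsiN N p.1 t :=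
    (measurable_pi_apply t).comp ((measurable_PsiN N).comp measurable_fst)
  fun_prop

theorem PsiN_eq (N : ℕ) (b : ℝ≥0 → ℝ) : PsiN N b = Fn N (bri N b, Del N b) := by
  funext t
  unfold Fn
  simp only
  unfold PsiN
  have : ∀ i ∈ Finset.range N, 2 * max (-(Del i (bri N b))) 0 * ramp i t
      = 2 * max (-(Del i b)) 0 * ramp i t := by
    intro i hi
    rw [Del_bri_of_lt (Finset.mem_range.1 hi)]
  rw [Finset.sum_congr rfl this]
  unfold bri
  ring

theorem PsiN_succ_eq (N : ℕ) (b : ℝ≥0 → ℝ) : PsiN (N + 1) b = Fn N (bri N b, |Del N b|) := by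
  have h : PsiN (N + 1) b = fun t => PsiN N b t + 2 * max (-(Del N b)) 0 * ramp N t := by
    funext t
    unfold PsiN
    rw [Finset.sum_range_succ]
    ring
  rw [h]
  funext t
  rw [PsiN_eq]
  unfold Fn
  simp only
  have : |Del N b| = Del N b + 2 * max (-(Del N b)) 0 := by
    rcases le_total 0 (Del N b) with h | h
    · rw [abs_of_nonneg h, max_eq_right (by linarith)]; ring
    · rw [abs_of_nonpos h, max_eq_left (by linarith)]; ring
  rw [this]
  ring

theorem Del_Fn (N : ℕ) (w : ℝ≥0 → ℝ) (x : ℝ) : Del N (Fn N (w, x)) = Del N w + x := by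
  have h : Fn N (w, x) (kap N + eps N) - Fn N (w, x) (kap N) = Del N w + x := by
    unfold Fn
    simp only
    rw [ramp_of_ge (i := N) (t := kap N + eps N) le_rfl, ramp_of_le (i := N) (t := kap N) le_rfl]
    unfold PsiN
    have : ∀ i ∈ Finset.range N, 2 * max (-(Del i w)) 0 * ramp i (kap N + eps N)
        = 2 * max (-(Del i w)) 0 * ramp i (kap N) := by
      intro i hi
      have hi := kap_add_eps_le (Finset.mem_range.1 hi)
      rw [ramp_of_ge (i := i) (t := kap N) hi,
        ramp_of_ge (i := i) (t := kap N + eps N) (hi.trans (by simp))]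
    rw [Finset.sum_congr rfl this]
    unfold Del
    ring
  exact h

theorem gauss_abs {v : ℝ≥0} (hv : v ≠ 0) {T : Set ℝ} (hT : MeasurableSet T) :
    gaussianReal 0 v {x | |x| ∈ T} = 2 * gaussianReal 0 v {x | x ∈ T ∧ 0 ≤ x} := by
  have hna := noAtoms_gaussianReal (μ := 0) hv
  have hTa : MeasurableSet {x : ℝ | |x| ∈ T} := measurable_id.abs hT
  have h1 := measure_inter_add_diff (μ := gaussianReal 0 v) {x : ℝ | |x| ∈ T}
    (measurableSet_Ici (a := (0 : ℝ)))
  have e1 : {x : ℝ | |x| ∈ T} ∩ Ici 0 = {x | x ∈ T ∧ 0 ≤ x} := by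
    ext x
    simp only [mem_inter_iff, mem_setOf_eq, mem_Ici]
    constructor
    · rintro ⟨h, h0⟩; rw [abs_of_nonneg h0] at h; exact ⟨h, h0⟩
    · rintro ⟨h, h0⟩; rw [abs_of_nonneg h0]; exact ⟨h, h0⟩
  have e2 : {x : ℝ | |x| ∈ T} \ Ici 0 = (fun x : ℝ => -x) ⁻¹' {x | x ∈ T ∧ 0 < x} := by
    ext x
    simp only [mem_diff, mem_setOf_eq, mem_Ici, not_le, mem_preimage]
    constructor
    · rintro ⟨h, h0⟩; rw [abs_of_neg h0] at h; exact ⟨h, by linarith⟩
    · rintro ⟨h, h0⟩
      have : x < 0 := by linarith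
      rw [abs_of_neg this]; exact ⟨h, this⟩
  have hm : MeasurableSet {x : ℝ | x ∈ T ∧ 0 < x} := hT.inter measurableSet_Ioi
  have h3 : gaussianReal 0 v ((fun x : ℝ => -x) ⁻¹' {x | x ∈ T ∧ 0 < x})
      = gaussianReal 0 v {x | x ∈ T ∧ 0 < x} := by
    rw [← Measure.map_apply measurable_neg hm, gaussianReal_map_neg]
    simp
  have h4 : gaussianReal 0 v {x | x ∈ T ∧ 0 < x} = gaussianReal 0 v {x | x ∈ T ∧ 0 ≤ x} := by
    apply measure_congr
    have : ∀ᵐ x ∂(gaussianReal 0 v), x ≠ 0 := by
      rw [ae_iff]; simp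
    filter_upwards [this] with x hx
    have : (x ∈ T ∧ 0 < x) = (x ∈ T ∧ 0 ≤ x) := by
      have : 0 < x ↔ 0 ≤ x := ⟨le_of_lt, fun h => lt_of_le_of_ne h (Ne.symm hx)⟩
      rw [this]
    exact this
  rw [← h1, e1, e2, h3, h4, two_mul]

theorem step {W : Measure (ℝ≥0 → ℝ)} (hW : IsW W) (N : ℕ) :
    W.map (PsiN (N + 1)) = (2 : ℝ≥0∞) • (W.map (PsiN N)).restrict {b | 0 ≤ Del N b} := by
  have hp := hW.pre
  have hP : IsProbabilityMeasure W := hp.isGaussianProcess.isProbabilityMeasure
  set μ := W.map (bri N) with hμ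
  set v : ℝ≥0 := nndist ((kap N + eps N : ℝ≥0) : ℝ) (kap N) with hvdef
  have hv : v ≠ 0 := by
    rw [hvdef, Ne, nndist_eq_zero]
    have := eps_pos N
    have h2 : (0 : ℝ) < eps N := by exact_mod_cast this
    push_cast
    linarith
  have hγ : W.map (Del N) = gaussianReal 0 v := (hp.hasLaw_sub (kap N + eps N) (kap N)).map_eq
  have hμP : IsProbabilityMeasure μ := Measure.isProbabilityMeasure_map (measurable_bri N).aemeasurable
  have hmp : Measurable fun b : ℝ≥0 → ℝ => (bri N b, Del N b) :=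
    (measurable_bri N).prodMk (measurable_Del N)
  have hjoint : W.map (fun b => (bri N b, Del N b)) = μ.prod (gaussianReal 0 v) := by
    rw [← hγ, hμ]
    exact (indepFun_iff_map_prod_eq_prod_map_map (measurable_bri N).aemeasurable
      (measurable_Del N).aemeasurable).1 (indep_bri hW N)
  have hA : MeasurableSet {b : ℝ≥0 → ℝ | 0 ≤ Del N b} :=
    measurableSet_le measurable_const (measurable_Del N)
  have hz : ∀ᵐ w ∂μ, Del N w = 0 := by
    rw [hμ, ae_map_iff (measurable_bri N).aemeasurable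
      (measurableSet_eq_fun (measurable_Del N) measurable_const)]
    exact Eventually.of_forall fun b => Del_bri_self N b
  ext S hS
  rw [Measure.map_apply (measurable_PsiN _) hS, Measure.smul_apply, Measure.restrict_apply hS,
    Measure.map_apply (measurable_PsiN _) (hS.inter hA)]
  have hm1 : MeasurableSet {p : (ℝ≥0 → ℝ) × ℝ | Fn N (p.1, |p.2|) ∈ S} :=
    ((measurable_Fn N).comp (measurable_fst.prodMk measurable_snd.abs)) hS
  have hm2 : MeasurableSet {p : (ℝ≥0 → ℝ) × ℝ | Fn N p ∈ S ∩ {b | 0 ≤ Del N b}} :=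
    (measurable_Fn N) (hS.inter hA)
  have l1 : W (PsiN (N + 1) ⁻¹' S) = ∫⁻ w, gaussianReal 0 v {x | Fn N (w, |x|) ∈ S} ∂μ := by
    have : PsiN (N + 1) ⁻¹' S
        = (fun b => (bri N b, Del N b)) ⁻¹' {p : (ℝ≥0 → ℝ) × ℝ | Fn N (p.1, |p.2|) ∈ S} := by
      ext b
      simp only [mem_preimage, mem_setOf_eq, PsiN_succ_eq]
    rw [this, ← Measure.map_apply hmp hm1, hjoint, Measure.prod_apply hm1]
    rfl
  have l2 : W (PsiN N ⁻¹' (S ∩ {b | 0 ≤ Del N b}))
      = ∫⁻ w, gaussianReal 0 v {x | Fn N (w, x) ∈ S ∩ {b | 0 ≤ Del N b}} ∂μ := by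
    have : PsiN N ⁻¹' (S ∩ {b | 0 ≤ Del N b})
        = (fun b => (bri N b, Del N b)) ⁻¹'
          {p : (ℝ≥0 → ℝ) × ℝ | Fn N p ∈ S ∩ {b | 0 ≤ Del N b}} := by
      ext b
      simp only [mem_preimage, mem_setOf_eq, PsiN_eq]
    rw [this, ← Measure.map_apply hmp hm2, hjoint, Measure.prod_apply hm2]
    rfl
  rw [l1, l2, smul_eq_mul, ← lintegral_const_mul' _ _ (by norm_num)]
  apply lintegral_congr_ae
  filter_upwards [hz] with w hw
  have hT : MeasurableSet {x : ℝ | Fn N (w, x) ∈ S} :=
    ((measurable_Fn N).comp measurable_prodMk_left) hS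
  have := gauss_abs hv hT
  simp only [mem_setOf_eq] at this
  rw [this]
  congr 2
  ext x
  simp only [mem_setOf_eq, mem_inter_iff, Del_Fn, hw, zero_add]

theorem map_PsiN {W : Measure (ℝ≥0 → ℝ)} (hW : IsW W) (N : ℕ) :
    W.map (PsiN N) = (2 ^ N : ℝ≥0∞) • W.restrict {b | ∀ i < N, 0 ≤ Del i b} := by
  induction N with
  | zero =>
    have : PsiN 0 = id := by
      funext b t
      simp [PsiN]
    rw [this]
    simp
  | succ N ih =>
    have hA : MeasurableSet {b : ℝ≥0 → ℝ | 0 ≤ Del N b} :=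
      measurableSet_le measurable_const (measurable_Del N)
    rw [step hW, ih, Measure.restrict_smul, Measure.restrict_restrict hA, smul_smul]
    congr 1
    · rw [pow_succ, mul_comm]
    · congr 1
      ext b
      simp only [mem_inter_iff, mem_setOf_eq]
      constructor
      · rintro ⟨h1, h2⟩ i hi
        rcases Nat.lt_succ_iff_lt_or_eq.1 hi with h | h
        · exact h2 i h
        · subst h; exact h1
      · intro h
        exact ⟨h N (by omega), fun i hi => h i (by omega)⟩

end Pool.Agent.R970.FB
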