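import Mathlib

set_option autoImplicit false

open scoped ENNReal NNReal Topology
open MeasureTheory ProbabilityTheory Set Filter
open ProbabilityTheory.BrownianReal

namespace Pool.Agent.R970.FB

variable {Ω : Type*} [MeasurableSpace Ω]

/-- The process seen forward from the random time `S`. -/
def fwd (X : ℝ → Ω → ℝ) (S : Ω → ℝ) (t : ℝ≥0) (ω : Ω) : ℝ := X (S ω + t) ω - X (S ω) ω

/-- The process seen backward from the random time `S`. -/
def bwd (X : ℝ → Ω → ℝ) (S : Ω → ℝ) (t : ℝ≥0) (ω : Ω) : ℝ := X (S ω - t) ω - X (S ω) ω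

/-- Forward Brownian motion (the times are indexed by `n = 0, 1, 2, …` instead of
`0, -1, -2, …`). -/
def IsFBM (X : ℝ → Ω → ℝ) (P : Measure Ω) : Prop :=
  ∃ S : ℕ → Ω → ℝ, (∀ n, Measurable (S n)) ∧
    (∀ᵐ ω ∂P, Tendsto (fun n => S n ω) atTop atBot) ∧
    ∀ n, IsBrownianReal (fwd X (S n)) P

/-- Backward Brownian motion. -/
def IsBBM (X : ℝ → Ω → ℝ) (P : Measure Ω) : Prop := IsFBM (fun t => X (-t)) P

/-- The forward process and the backward process from the random time `T` are independent. -/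
def IndepAt (X : ℝ → Ω → ℝ) (T : Ω → ℝ) (P : Measure Ω) : Prop :=
  IndepFun (fun ω (t : ℝ≥0) => fwd X T t ω) (fun ω (t : ℝ≥0) => bwd X T t ω) P

/-- Two-sided Brownian motion. -/
def Is2BM (X : ℝ → Ω → ℝ) (P : Measure Ω) : Prop :=
  ∃ S : Ω → ℝ, Measurable S ∧ IsBrownianReal (fwd X S) P ∧ IsBrownianReal (bwd X S) P ∧
    IndepAt X S P

/-- A centred Gaussian process on the line with the covariance of two-sided Brownian motion. -/
structure IsTS (Y : ℝ → Ω → ℝ) (P : Measure Ω) : Prop where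
  gauss : IsGaussianProcess Y P
  mean : ∀ t, P[Y t] = 0
  cov : ∀ s t, cov[Y s, Y t; P] = (|s| + |t| - |s - t|) / 2

/-- `W` is Wiener measure (on the product space). -/
def IsW (W : Measure (ℝ≥0 → ℝ)) : Prop := IsProjectiveLimit W projectiveFamily

/-- Positions and lengths of the windows. -/
noncomputable def kap (i : ℕ) : ℝ≥0 := 64 ^ (i + 1)
noncomputable def eps (i : ℕ) : ℝ≥0 := (4 / 9) ^ (i + 1)

/-- Increment of a path over the window number `i`. -/
noncomputable def Del (i : ℕ) (b : ℝ≥0 → ℝ) : ℝ := b (kap i + eps i) - b (kap i)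

/-- The ramp over window number `i`: `0` before the window, `1` after it, linear in between. -/
noncomputable def ramp (i : ℕ) (t : ℝ≥0) : ℝ := max 0 (min 1 (((t : ℝ) - kap i) / eps i))

/-- Make the increments over the windows `i < N` nonnegative. -/
noncomputable def PsiN (N : ℕ) (b : ℝ≥0 → ℝ) (t : ℝ≥0) : ℝ :=
  b t + ∑ i ∈ Finset.range N, 2 * max (-(Del i b)) 0 * ramp i t

/-- Make all the increments over the windows nonnegative. -/
noncomputable def Psi (b : ℝ≥0 → ℝ) (t : ℝ≥0) : ℝ := PsiN ⌈t⌉₊ b t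

end Pool.Agent.R970.FB
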