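import Pool.Agent.R970.FB.Defs

set_option autoImplicit false

open scoped ENNReal NNReal Topology
open MeasureTheory ProbabilityTheory Set Filter
open ProbabilityTheory.BrownianReal

namespace Pool.Agent.R970.FB

/-- The data of the pieces of a decomposable process: for every `k`, `B k` is a Brownian motion
with respect to the filtration `F k`, `T k` is a finite stopping time of `F k`, and the pairs
`(T k, B k stopped at T k)` are independent; the sums of the `T k` over `k ≥ 1` and over `k ≤ -1`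
are infinite. -/
structure IsPieces {Ω : Type*} {mΩ : MeasurableSpace Ω} (P : Measure Ω)
    (F : ℤ → Filtration ℝ≥0 mΩ) (B : ℤ → ℝ≥0 → Ω → ℝ) (T : ℤ → Ω → ℝ≥0) : Prop where
  bm : ∀ k, IsBrownianReal (B k) P
  cont : ∀ k ω, Continuous (B k · ω)
  adapted : ∀ k t, Measurable[F k t] (B k t)
  indep_incr : ∀ k (s : ℝ≥0), Indep (F k s)
    (MeasurableSpace.comap (fun ω (t : ℝ≥0) => B k (s + t) ω - B k s ω) inferInstance) P
  stop : ∀ k (t : ℝ≥0), MeasurableSet[F k t] {ω | T k ω ≤ t}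
  indep : iIndepFun (fun k ω => (T k ω, fun t : ℝ≥0 => B k (min t (T k ω)) ω)) P
  sum_right : ∀ᵐ ω ∂P, Tendsto (fun n : ℕ => ∑ k ∈ Finset.range n, T (k + 1) ω) atTop atTop
  sum_left : ∀ᵐ ω ∂P, Tendsto (fun n : ℕ => ∑ k ∈ Finset.range n, T (-(k + 1 : ℤ)) ω) atTop atTop

/-- `X` is decomposable: for some random time `U`, the process `X (U + t) - X U` is obtained by
putting the pieces one after the other, the piece number `k` starting at time `S k`, where
`S 0 = 0` and `S (k + 1) - S k = T k`. -/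
def IsDecomposable {Ω : Type*} [mΩ : MeasurableSpace Ω] (X : ℝ → Ω → ℝ) (P : Measure Ω) : Prop :=
  ∃ (U : Ω → ℝ) (F : ℤ → Filtration ℝ≥0 mΩ) (B : ℤ → ℝ≥0 → Ω → ℝ) (T : ℤ → Ω → ℝ≥0)
    (S : ℤ → Ω → ℝ), Measurable U ∧ IsPieces P F B T ∧
    (∀ ω, S 0 ω = 0) ∧ (∀ k ω, S (k + 1) ω = S k ω + T k ω) ∧
    ∀ᵐ ω ∂P, ∀ (k : ℤ) (t : ℝ≥0), t < T k ω →
      X (U ω + S k ω + t) ω - X (U ω + S k ω) ω = B k t ω

end Pool.Agent.R970.FB
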