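import Mathlib

set_option autoImplicit false

open scoped ENNReal NNReal Topology symmDiff
open MeasureTheory ProbabilityTheory Set Filter

namespace Pool.Agent.R970.FB

variable {Ω F : Type*} [MeasurableSpace Ω] [MeasurableSpace F]

theorem cheb (P : Measure Ω) [IsProbabilityMeasure P] (Z : Ω → ℝ≥0∞) (hZm : Measurable Z)
    (L : ℝ) (hL : 0 < L) (hZ : ∀ ω, Z ω ≤ ENNReal.ofReal L) (c v : ℝ) (hc : 0 ≤ c) (hv : 0 ≤ v)
    (h1 : ∫⁻ ω, Z ω ∂P = ENNReal.ofReal (c * L))
    (h2 : ∫⁻ ω, Z ω ^ 2 ∂P ≤ ENNReal.ofReal (c ^ 2 * L ^ 2 + v)) (t : ℝ) (ht : 0 < t) (htc : t ≤ c) :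
    P {ω | Z ω ≤ ENNReal.ofReal ((c - t) * L)} ≤ ENNReal.ofReal (v / (t * L) ^ 2) := by
  set f : Ω → ℝ := fun ω => (Z ω).toReal with hf
  have hfin : ∀ ω, Z ω ≠ ∞ := fun ω => ((hZ ω).trans_lt ENNReal.ofReal_lt_top).ne
  have hfm : Measurable f := hZm.ennreal_toReal
  have hf0 : ∀ ω, 0 ≤ f ω := fun ω => ENNReal.toReal_nonneg
  have hfL : ∀ ω, f ω ≤ L := fun ω => by
    have := ENNReal.toReal_mono ENNReal.ofReal_ne_top (hZ ω)
    rwa [ENNReal.toReal_ofReal hL.le] at this
  have hmem : MemLp f 2 P := by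
    refine MemLp.of_bound hfm.aestronglyMeasurable L (Eventually.of_forall fun ω => ?_)
    rw [Real.norm_of_nonneg (hf0 ω)]
    exact hfL ω
  have hE : ∫ ω, f ω ∂P = c * L := by
    rw [integral_toReal hZm.aemeasurable (Eventually.of_forall fun ω =>
      (hZ ω).trans_lt ENNReal.ofReal_lt_top), h1, ENNReal.toReal_ofReal (by positivity)]
  have hE2 : ∫ ω, f ω ^ 2 ∂P ≤ c ^ 2 * L ^ 2 + v := by
    have e : (fun ω => f ω ^ 2) = fun ω => (Z ω ^ 2).toReal := by
      funext ω
      rw [ENNReal.toReal_pow]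
    rw [e, integral_toReal (hZm.pow_const 2).aemeasurable (Eventually.of_forall fun ω =>
      (ENNReal.pow_lt_top ((hZ ω).trans_lt ENNReal.ofReal_lt_top)))]
    have := ENNReal.toReal_mono ENNReal.ofReal_ne_top h2
    rwa [ENNReal.toReal_ofReal (by positivity)] at this
  have hvar : variance f P ≤ v := by
    rw [variance_eq_sub hmem]
    have : P[f ^ 2] = ∫ ω, f ω ^ 2 ∂P := rfl
    rw [this, hE]
    nlinarith
  have hch := meas_ge_le_variance_div_sq hmem (c := t * L) (by positivity)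
  rw [hE] at hch
  refine (measure_mono ?_).trans (hch.trans (ENNReal.ofReal_le_ofReal ?_))
  · intro ω hω
    simp only [mem_ofPred_eq] at hω ⊢
    have h3 : f ω ≤ max ((c - t) * L) 0 := by
      have := ENNReal.toReal_mono ENNReal.ofReal_ne_top hω
      rwa [ENNReal.toReal_ofReal'] at this
    rw [abs_sub_comm]
    refine le_trans ?_ (le_abs_self _)
    rw [max_eq_left (mul_nonneg (by linarith) hL.le)] at h3
    nlinarith
  · gcongr


/-- Occupation time of `C` during `I`. -/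
noncomputable def occ (θ : Ω × ℝ → F) (I : Set ℝ) (C : Set F) (ω : Ω) : ℝ≥0∞ :=
  volume {s | s ∈ I ∧ θ (ω, s) ∈ C}

theorem occ_eq (θ : Ω × ℝ → F) (hθ : Measurable θ) {I : Set ℝ} (_ : MeasurableSet I)
    {C : Set F} (hC : MeasurableSet C) (ω : Ω) :
    occ θ I C ω = ∫⁻ s in I, C.indicator (fun _ => (1 : ℝ≥0∞)) (θ (ω, s)) := by
  have hm : MeasurableSet {s | θ (ω, s) ∈ C} := (hθ.comp measurable_prodMk_left) hC
  have e : (fun s => C.indicator (fun _ => (1 : ℝ≥0∞)) (θ (ω, s))) =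
      {s | θ (ω, s) ∈ C}.indicator 1 := by
    funext s
    by_cases h : θ (ω, s) ∈ C <;> simp [h]
  rw [e, lintegral_indicator_one hm, Measure.restrict_apply hm, occ]
  congr 1
  ext s
  simp [and_comm]

theorem occ_measurable (θ : Ω × ℝ → F) (hθ : Measurable θ) {I : Set ℝ} (hI : MeasurableSet I)
    {C : Set F} (hC : MeasurableSet C) : Measurable (occ θ I C) := by
  have : occ θ I C = fun ω => volume (Prod.mk ω ⁻¹' {p : Ω × ℝ | p.2 ∈ I ∧ θ p ∈ C}) := rfl
  rw [this]
  exact measurable_measure_prodMk_left ((measurable_snd hI).inter (hθ hC))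

theorem lintegral_occ (P : Measure Ω) [IsProbabilityMeasure P] (θ : Ω × ℝ → F)
    (hθ : Measurable θ) {I : Set ℝ} (hI : MeasurableSet I) {C : Set F} (hC : MeasurableSet C) :
    ∫⁻ ω, occ θ I C ω ∂P = ∫⁻ s in I, P {ω | θ (ω, s) ∈ C} := by
  simp_rw [occ_eq θ hθ hI hC]
  rw [lintegral_lintegral_swap]
  · refine lintegral_congr fun s => ?_
    have hm : MeasurableSet {ω | θ (ω, s) ∈ C} := (hθ.comp measurable_prodMk_right) hC
    have e : (fun ω => C.indicator (fun _ => (1 : ℝ≥0∞)) (θ (ω, s))) =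
        {ω | θ (ω, s) ∈ C}.indicator 1 := by
      funext ω
      by_cases h : θ (ω, s) ∈ C <;> simp [h]
    rw [e, lintegral_indicator_one hm]
  · exact ((measurable_const.indicator hC).comp hθ).aemeasurable

theorem lintegral_occ_sq (P : Measure Ω) [IsProbabilityMeasure P] (θ : Ω × ℝ → F)
    (hθ : Measurable θ) {I : Set ℝ} (hI : MeasurableSet I) {C : Set F} (hC : MeasurableSet C) :
    ∫⁻ ω, occ θ I C ω ^ 2 ∂P =
      ∫⁻ s in I, ∫⁻ t in I, P {ω | θ (ω, s) ∈ C ∧ θ (ω, t) ∈ C} := by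
  have hmi : Measurable (fun p : Ω × ℝ => C.indicator (fun _ => (1 : ℝ≥0∞)) (θ p)) :=
    (measurable_const.indicator hC).comp hθ
  have h1 : ∀ ω, occ θ I C ω ^ 2 = ∫⁻ s in I, ∫⁻ t in I,
      C.indicator (fun _ => (1 : ℝ≥0∞)) (θ (ω, s)) *
        C.indicator (fun _ => (1 : ℝ≥0∞)) (θ (ω, t)) := by
    intro ω
    have hms : Measurable (fun s => C.indicator (fun _ => (1 : ℝ≥0∞)) (θ (ω, s))) :=
      hmi.comp measurable_prodMk_left
    rw [sq, occ_eq θ hθ hI hC]
    simp_rw [lintegral_const_mul _ hms]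
    rw [lintegral_mul_const _ hms]
  simp_rw [h1]
  rw [lintegral_lintegral_swap]
  · refine lintegral_congr fun s => ?_
    rw [lintegral_lintegral_swap]
    · refine lintegral_congr fun t => ?_
      have hm : MeasurableSet {ω | θ (ω, s) ∈ C ∧ θ (ω, t) ∈ C} :=
        ((hθ.comp measurable_prodMk_right) hC).inter ((hθ.comp measurable_prodMk_right) hC)
      have e : (fun ω => C.indicator (fun _ => (1 : ℝ≥0∞)) (θ (ω, s)) *
          C.indicator (fun _ => (1 : ℝ≥0∞)) (θ (ω, t))) =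
          {ω | θ (ω, s) ∈ C ∧ θ (ω, t) ∈ C}.indicator 1 := by
        funext ω
        by_cases h : θ (ω, s) ∈ C <;> by_cases h' : θ (ω, t) ∈ C <;> simp [h, h']
      rw [e, lintegral_indicator_one hm]
    · exact ((hmi.comp (measurable_fst.prodMk measurable_const)).mul
        (hmi.comp (measurable_fst.prodMk measurable_snd))).aemeasurable
  · refine Measurable.aemeasurable ?_
    refine Measurable.lintegral_prod_right' (f := fun q : (Ω × ℝ) × ℝ =>
      C.indicator (fun _ => (1 : ℝ≥0∞)) (θ (q.1.1, q.1.2)) *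
        C.indicator (fun _ => (1 : ℝ≥0∞)) (θ (q.1.1, q.2))) ?_
    exact (hmi.comp (((measurable_fst.comp measurable_fst)).prodMk
      (measurable_snd.comp measurable_fst))).mul
      (hmi.comp ((measurable_fst.comp measurable_fst).prodMk measurable_snd))

/-- Extension of the `L²` bound from an algebra to all measurable sets. -/
theorem ext_bound (Λ W : Measure F) [IsFiniteMeasure Λ] [IsFiniteMeasure W]
    (𝒜 : Set (Set F)) (h𝒜 : IsSetAlgebra 𝒜)
    (hgen : (inferInstance : MeasurableSpace F) = MeasurableSpace.generateFrom 𝒜)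
    (K : ℝ≥0∞) (hK : K ≠ ∞) (h2 : ∀ C ∈ 𝒜, (Λ C) ^ 2 ≤ K * W C) (C : Set F)
    (hC : MeasurableSet C) : (Λ C) ^ 2 ≤ K * W C := by
  have key : ∀ ε : ℝ, 0 < ε →
      (Λ.real C - ε) ≤ Real.sqrt (K.toReal * (W.real C + ε)) := by
    intro ε hε
    obtain ⟨D, hD, hDC⟩ := exists_measure_symmDiff_lt_of_generateFrom_isSetRing
      (μ := Λ + W) h𝒜.isSetRing ⟨{univ}, countable_singleton _, by
        simpa using h𝒜.univ_mem, by simp⟩ hgen hC
      (ε := ENNReal.ofReal ε) (by simpa using hε)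
    have hs : (Λ + W).real (D ∆ C) < ε := by
      rw [measureReal_def]
      have := ENNReal.toReal_strict_mono ENNReal.ofReal_ne_top hDC
      rwa [ENNReal.toReal_ofReal hε.le] at this
    have hsum : (Λ + W).real (D ∆ C) = Λ.real (D ∆ C) + W.real (D ∆ C) := by
      rw [measureReal_add_apply]
    have h3 : Λ.real C ≤ Λ.real D + Λ.real (D ∆ C) := by
      refine (measureReal_mono (s₂ := D ∪ (D ∆ C)) ?_).trans (measureReal_union_le _ _)
      intro x hx
      by_cases h : x ∈ D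
      · exact Or.inl h
      · exact Or.inr (Or.inr ⟨hx, h⟩)
    have h4 : W.real D ≤ W.real C + W.real (D ∆ C) := by
      refine (measureReal_mono (s₂ := C ∪ (D ∆ C)) ?_).trans (measureReal_union_le _ _)
      intro x hx
      by_cases h : x ∈ C
      · exact Or.inl h
      · exact Or.inr (Or.inl ⟨hx, h⟩)
    have h5 : Λ.real D ^ 2 ≤ K.toReal * W.real D := by
      have := ENNReal.toReal_mono (ENNReal.mul_ne_top hK (measure_ne_top _ _)) (h2 D hD)
      rwa [ENNReal.toReal_pow, ENNReal.toReal_mul] at this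
    have h6 : 0 ≤ Λ.real (D ∆ C) := measureReal_nonneg
    have h7 : 0 ≤ W.real (D ∆ C) := measureReal_nonneg
    have h8 : Λ.real D ≤ Real.sqrt (K.toReal * (W.real C + ε)) := by
      refine Real.le_sqrt_of_sq_le (h5.trans ?_)
      have : 0 ≤ K.toReal := ENNReal.toReal_nonneg
      gcongr
      linarith
    linarith
  have hlim : Λ.real C ≤ Real.sqrt (K.toReal * W.real C) := by
    have h1 : Tendsto (fun ε : ℝ => Λ.real C - ε) (𝓝[>] 0) (𝓝 (Λ.real C - 0)) :=
      (Continuous.tendsto (by fun_prop) 0).mono_left nhdsWithin_le_nhds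
    have h2' : Tendsto (fun ε : ℝ => Real.sqrt (K.toReal * (W.real C + ε))) (𝓝[>] 0)
        (𝓝 (Real.sqrt (K.toReal * (W.real C + 0)))) :=
      (Continuous.tendsto (by fun_prop) 0).mono_left nhdsWithin_le_nhds
    have := le_of_tendsto_of_tendsto h1 h2' (eventually_nhdsWithin_of_forall key)
    simpa using this
  have h9 : Λ.real C ^ 2 ≤ K.toReal * W.real C := by
    have h0 : 0 ≤ K.toReal * W.real C := mul_nonneg ENNReal.toReal_nonneg measureReal_nonneg
    calc Λ.real C ^ 2 ≤ Real.sqrt (K.toReal * W.real C) ^ 2 :=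
          pow_le_pow_left₀ measureReal_nonneg hlim 2
      _ = _ := Real.sq_sqrt h0
  rw [← ENNReal.toReal_le_toReal (ENNReal.pow_ne_top (measure_ne_top _ _))
    (ENNReal.mul_ne_top hK (measure_ne_top _ _)), ENNReal.toReal_pow, ENNReal.toReal_mul]
  exact h9


theorem recur (P : Measure Ω)
    [IsProbabilityMeasure P] (W : Measure F) [IsProbabilityMeasure W]
    (𝒜 : Set (Set F)) (h𝒜 : IsSetAlgebra 𝒜)
    (hgen : (inferInstance : MeasurableSpace F) = MeasurableSpace.generateFrom 𝒜)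
    (θ : Ω × ℝ → F) (hθ : Measurable θ) (a b : ℕ → ℝ)
    (hab : Tendsto (fun j => b j - a j) atTop atTop)
    (h1 : ∀ C ∈ 𝒜, ∃ m : ℝ, ∀ᶠ j in atTop,
      (∀ s ∈ Ioo (a j) (b j), P {ω | θ (ω, s) ∈ C} = W C) ∧
      (∀ s ∈ Ioo (a j) (b j), ∀ t ∈ Ioo (a j) (b j), m < |s - t| →
        P {ω | θ (ω, s) ∈ C ∧ θ (ω, t) ∈ C} = W C * W C))
    (K : ℝ≥0∞) (hK : K ≠ ∞)
    (h2 : ∀ j, ∀ C ∈ 𝒜, (∫⁻ s in Ioo (a j) (b j), P {ω | θ (ω, s) ∈ C}) ^ 2
        ≤ K * W C * ENNReal.ofReal (b j - a j) ^ 2)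
    (B : Set F) (hB : MeasurableSet B) (hWB : W B ≠ 0) :
    Tendsto (fun j => P {ω | volume {s ∈ Ioo (a j) (b j) | θ (ω, s) ∈ B} = 0}) atTop (𝓝 0) := by
  -- the extended bound
  have h2' : ∀ j, ∀ C, MeasurableSet C → (∫⁻ s in Ioo (a j) (b j), P {ω | θ (ω, s) ∈ C}) ^ 2
        ≤ K * W C * ENNReal.ofReal (b j - a j) ^ 2 := by
    intro j C hC
    set Λ : Measure F := (P.prod (volume.restrict (Ioo (a j) (b j)))).map θ with hΛ
    have hΛC : ∀ C, MeasurableSet C → Λ C = ∫⁻ s in Ioo (a j) (b j), P {ω | θ (ω, s) ∈ C} := by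
      intro C hC
      rw [hΛ, Measure.map_apply hθ hC, Measure.prod_apply_symm (hθ hC)]
      rfl
    have hf : IsFiniteMeasure Λ := by
      have : IsFiniteMeasure (volume.restrict (Ioo (a j) (b j))) :=
        ⟨by rw [Measure.restrict_apply_univ]; exact measure_Ioo_lt_top⟩
      exact Measure.isFiniteMeasure_map _ _
    have hAm : ∀ C ∈ 𝒜, MeasurableSet C := fun C hC => by
      have : MeasurableSet[MeasurableSpace.generateFrom 𝒜] C :=
        MeasurableSpace.measurableSet_generateFrom hC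
      rwa [← hgen] at this
    have := ext_bound Λ W 𝒜 h𝒜 hgen (K * ENNReal.ofReal (b j - a j) ^ 2)
      (ENNReal.mul_ne_top hK (ENNReal.pow_ne_top ENNReal.ofReal_ne_top)) (fun C hC => by
        rw [hΛC C (hAm C hC)]
        refine (h2 j C hC).trans (le_of_eq ?_)
        ring) C hC
    rw [hΛC C hC] at this
    refine this.trans (le_of_eq ?_)
    ring
  set w : ℝ := W.real B with hw
  have hw0 : 0 < w := by
    rw [hw, measureReal_def]
    exact ENNReal.toReal_pos hWB (measure_ne_top _ _)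
  have hAm : ∀ C ∈ 𝒜, MeasurableSet C := fun C hC => by
    have : MeasurableSet[MeasurableSpace.generateFrom 𝒜] C :=
      MeasurableSpace.measurableSet_generateFrom hC
    rwa [← hgen] at this
  rw [ENNReal.tendsto_nhds_zero]
  intro δ' hδ'
  -- it suffices to treat real δ'
  obtain ⟨r, hr0, hrδ⟩ : ∃ r : ℝ, 0 < r ∧ ENNReal.ofReal r ≤ δ' := by
    rcases eq_or_ne δ' ∞ with h | h
    · exact ⟨1, one_pos, by rw [h]; exact le_top⟩
    · exact ⟨δ'.toReal, ENNReal.toReal_pos hδ'.ne' h, by rw [ENNReal.ofReal_toReal h]⟩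
  set k : ℝ := K.toReal with hk
  have hk0 : 0 ≤ k := ENNReal.toReal_nonneg
  obtain ⟨δ, hδ0, hδw, hδ⟩ : ∃ δ : ℝ, 0 < δ ∧ δ ≤ w / 2 ∧ 4 / w * Real.sqrt (k * δ) ≤ r / 2 := by
    have ht : Tendsto (fun δ : ℝ => 4 / w * Real.sqrt (k * δ)) (𝓝[>] 0)
        (𝓝 (4 / w * Real.sqrt (k * 0))) :=
      (Continuous.tendsto (by fun_prop) 0).mono_left nhdsWithin_le_nhds
    rw [mul_zero, Real.sqrt_zero, mul_zero] at ht
    have h3 := (ht.eventually_le_const (show (0 : ℝ) < r / 2 by positivity))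
    have h4 : ∀ᶠ δ : ℝ in 𝓝[>] 0, δ ≤ w / 2 :=
      (eventually_le_nhds (show (0 : ℝ) < w / 2 by positivity)).filter_mono nhdsWithin_le_nhds
    have h5 : ∀ᶠ δ : ℝ in 𝓝[>] 0, 0 < δ := eventually_nhdsWithin_of_forall fun _ h => h
    obtain ⟨δ, h6, h7, h8⟩ := (h5.and (h4.and h3)).exists
    exact ⟨δ, h6, h7, h8⟩
  obtain ⟨C, hC, hCB⟩ := exists_measure_symmDiff_lt_of_generateFrom_isSetRing
      (μ := W) h𝒜.isSetRing ⟨{univ}, countable_singleton _, by
        simpa using h𝒜.univ_mem, by simp⟩ hgen hB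
      (ε := ENNReal.ofReal δ) (by simpa using hδ0)
  have hCm := hAm C hC
  have hsd : MeasurableSet (C ∆ B) := hCm.symmDiff hB
  have hsdr : W.real (C ∆ B) < δ := by
    rw [measureReal_def]
    have := ENNReal.toReal_strict_mono ENNReal.ofReal_ne_top hCB
    rwa [ENNReal.toReal_ofReal hδ0.le] at this
  set c : ℝ := W.real C with hc
  have hcw : w / 2 ≤ c := by
    have h3 : w ≤ c + W.real (C ∆ B) := by
      refine (measureReal_mono (s₂ := C ∪ (C ∆ B)) ?_).trans (measureReal_union_le _ _)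
      intro x hx
      by_cases h : x ∈ C
      · exact Or.inl h
      · exact Or.inr (Or.inr ⟨hx, h⟩)
    linarith
  have hc1 : c ≤ 1 := measureReal_le_one
  have hWC : W C = ENNReal.ofReal c := (ofReal_measureReal (measure_ne_top _ _)).symm
  obtain ⟨m', hm'⟩ := h1 C hC
  set m : ℝ := max m' 0 with hm
  have hm0 : 0 ≤ m := le_max_right _ _
  -- eventually
  have hev : ∀ᶠ j in atTop, 64 * m / (w ^ 2 * (r + r)) + 1 < b j - a j ∧ 
      32 * m / (w ^ 2 * (b j - a j)) ≤ r / 2 := by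
    have h3 := hab.eventually_gt_atTop (64 * m / (w ^ 2 * (r + r)) + 1)
    have h4 := hab.eventually_ge_atTop (64 * m / (w ^ 2 * r) + 1)
    filter_upwards [h3, h4] with j h5 h6
    refine ⟨h5, ?_⟩
    have h7 : 0 < b j - a j := lt_of_lt_of_le (by positivity) h6
    have h8 : 64 * m / (w ^ 2 * r) ≤ b j - a j := by linarith
    rw [div_le_iff₀ (by positivity)] at h8 ⊢
    nlinarith
  filter_upwards [hm', hev] with j hj1 hj2
  obtain ⟨hj3, hj4⟩ := hj1
  obtain ⟨hj5, hj6⟩ := hj2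
  set L : ℝ := b j - a j with hL
  have hL0 : 0 < L := lt_of_le_of_lt (by positivity) hj5
  set I : Set ℝ := Ioo (a j) (b j) with hI
  have hIm : MeasurableSet I := measurableSet_Ioo
  have hvolI : volume I = ENNReal.ofReal L := by rw [hI, Real.volume_Ioo]
  -- first event
  have hE1 : P {ω | occ θ I C ω ≤ ENNReal.ofReal ((c - w / 4) * L)} ≤ ENNReal.ofReal (r / 2) := by
    have hZ : ∀ ω, occ θ I C ω ≤ ENNReal.ofReal L := by
      intro ω
      rw [← hvolI]
      exact measure_mono fun s hs => hs.1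
    have hZ1 : ∫⁻ ω, occ θ I C ω ∂P = ENNReal.ofReal (c * L) := by
      rw [lintegral_occ P θ hθ hIm hCm, setLIntegral_congr_fun hIm (g := fun _ => W C)
        (fun s hs => hj3 s hs), setLIntegral_const, hvolI, hWC, ← ENNReal.ofReal_mul (by positivity)]
    have hZ2 : ∫⁻ ω, occ θ I C ω ^ 2 ∂P ≤ ENNReal.ofReal (c ^ 2 * L ^ 2 + 2 * m * L) := by
      rw [lintegral_occ_sq P θ hθ hIm hCm]
      have hb : ∀ s ∈ I, ∫⁻ t in I, P {ω | θ (ω, s) ∈ C ∧ θ (ω, t) ∈ C} ≤
          ENNReal.ofReal (c ^ 2 * L + 2 * m) := by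
        intro s hs
        have hb1 : ∀ t ∈ I, P {ω | θ (ω, s) ∈ C ∧ θ (ω, t) ∈ C} ≤
            ENNReal.ofReal (c ^ 2) + (Icc (s - m) (s + m)).indicator 1 t := by
          intro t ht
          by_cases h : m < |s - t|
          · rw [hj4 s hs t ht (lt_of_le_of_lt (le_max_left _ _) h), hWC,
              ← ENNReal.ofReal_mul (by positivity), ← sq]
            exact le_self_add
          · push Not at h
            have : t ∈ Icc (s - m) (s + m) := by
              rw [abs_le] at h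
              constructor <;> linarith [h.1, h.2]
            rw [indicator_of_mem this]
            exact prob_le_one.trans le_add_self
        calc ∫⁻ t in I, P {ω | θ (ω, s) ∈ C ∧ θ (ω, t) ∈ C}
            ≤ ∫⁻ t in I, (ENNReal.ofReal (c ^ 2) + (Icc (s - m) (s + m)).indicator 1 t) :=
              setLIntegral_mono' hIm hb1
          _ = ENNReal.ofReal (c ^ 2) * volume I + ∫⁻ t in I, (Icc (s - m) (s + m)).indicator 1 t := by
              rw [lintegral_add_left measurable_const, setLIntegral_const]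
          _ ≤ ENNReal.ofReal (c ^ 2) * volume I + ∫⁻ t, (Icc (s - m) (s + m)).indicator 1 t := by
              gcongr
              exact Measure.restrict_le_self
          _ = ENNReal.ofReal (c ^ 2) * ENNReal.ofReal L + ENNReal.ofReal (2 * m) := by
              rw [lintegral_indicator_one measurableSet_Icc, Real.volume_Icc, hvolI]
              congr 2
              ring
          _ = ENNReal.ofReal (c ^ 2 * L + 2 * m) := by
              rw [← ENNReal.ofReal_mul (by positivity), ← ENNReal.ofReal_add (by positivity)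
                (by positivity)]
      calc ∫⁻ s in I, ∫⁻ t in I, P {ω | θ (ω, s) ∈ C ∧ θ (ω, t) ∈ C}
          ≤ ∫⁻ s in I, ENNReal.ofReal (c ^ 2 * L + 2 * m) := setLIntegral_mono' hIm hb
        _ = ENNReal.ofReal (c ^ 2 * L ^ 2 + 2 * m * L) := by
            rw [setLIntegral_const, hvolI, ← ENNReal.ofReal_mul (by positivity)]
            congr 1
            ring
    refine (cheb P (occ θ I C) (occ_measurable θ hθ hIm hCm) L hL0 hZ c (2 * m * L)
      (by positivity) (by positivity) hZ1 hZ2 (w / 4) (by positivity) (by linarith)).trans ?_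
    refine ENNReal.ofReal_le_ofReal ?_
    refine le_trans (le_of_eq ?_) hj6
    field_simp
    ring
  -- second event
  have hE2 : P {ω | ENNReal.ofReal (w / 4 * L) ≤ occ θ I (C ∆ B) ω} ≤ ENNReal.ofReal (r / 2) := by
    have h3 : (∫⁻ ω, occ θ I (C ∆ B) ω ∂P) ≤ ENNReal.ofReal (Real.sqrt (k * δ) * L) := by
      rw [lintegral_occ P θ hθ hIm hsd]
      have h4 := h2' j (C ∆ B) hsd
      have h5 : (∫⁻ s in I, P {ω | θ (ω, s) ∈ C ∆ B}) ^ 2 ≤
          ENNReal.ofReal (Real.sqrt (k * δ) * L) ^ 2 := by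
        have e : ENNReal.ofReal (Real.sqrt (k * δ) * L) ^ 2 =
            K * ENNReal.ofReal δ * ENNReal.ofReal (b j - a j) ^ 2 := by
          rw [ENNReal.ofReal_mul (Real.sqrt_nonneg _), mul_pow,
            ← ENNReal.ofReal_pow (Real.sqrt_nonneg _), Real.sq_sqrt (by positivity),
            ENNReal.ofReal_mul hk0, hk, ENNReal.ofReal_toReal hK]
        rw [e]
        refine h4.trans ?_
        gcongr
      exact (ENNReal.pow_le_pow_left_iff two_ne_zero).1 h5
    have h4 := mul_meas_ge_le_lintegral₀ (μ := P)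
      (occ_measurable θ hθ hIm hsd).aemeasurable (ENNReal.ofReal (w / 4 * L))
    have h5 := h4.trans h3
    have h6 : ENNReal.ofReal (w / 4 * L) ≠ 0 := by
      simp only [ne_eq, ENNReal.ofReal_eq_zero, not_le]
      positivity
    rw [mul_comm] at h5
    have h7 := (ENNReal.le_div_iff_mul_le (Or.inl h6) (Or.inl ENNReal.ofReal_ne_top)).2 h5
    refine h7.trans ?_
    rw [← ENNReal.ofReal_div_of_pos (by positivity)]
    refine ENNReal.ofReal_le_ofReal (le_trans (le_of_eq ?_) hδ)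
    field_simp
  -- conclusion
  refine le_trans ?_ hrδ
  have hsub : {ω | volume {s ∈ I | θ (ω, s) ∈ B} = 0} ⊆
      {ω | occ θ I C ω ≤ ENNReal.ofReal ((c - w / 4) * L)} ∪
      {ω | ENNReal.ofReal (w / 4 * L) ≤ occ θ I (C ∆ B) ω} := by
    intro ω hω
    by_contra hcon
    simp only [mem_union, mem_ofPred_eq, not_or, not_le] at hcon hω
    obtain ⟨h3, h4⟩ := hcon
    have h5 : occ θ I C ω ≤ occ θ I B ω + occ θ I (C ∆ B) ω := by
      refine (measure_mono ?_).trans (measure_union_le _ _)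
      rintro s ⟨hs1, hs2⟩
      by_cases h : θ (ω, s) ∈ B
      · exact Or.inl ⟨hs1, h⟩
      · exact Or.inr ⟨hs1, Or.inl ⟨hs2, h⟩⟩
    have h6 : occ θ I B ω = 0 := hω
    rw [h6, zero_add] at h5
    have h7 : ENNReal.ofReal ((c - w / 4) * L) < ENNReal.ofReal (w / 4 * L) :=
      h3.trans_le (h5.trans h4.le)
    have h8 : (c - w / 4) * L < w / 4 * L :=
      (ENNReal.ofReal_lt_ofReal_iff (by positivity)).1 h7
    have h9 : c - w / 4 < w / 4 := lt_of_mul_lt_mul_right h8 hL0.le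
    linarith
  calc P {ω | volume {s ∈ I | θ (ω, s) ∈ B} = 0}
      ≤ P ({ω | occ θ I C ω ≤ ENNReal.ofReal ((c - w / 4) * L)} ∪
        {ω | ENNReal.ofReal (w / 4 * L) ≤ occ θ I (C ∆ B) ω}) := measure_mono hsub
    _ ≤ ENNReal.ofReal (r / 2) + ENNReal.ofReal (r / 2) :=
        (measure_union_le _ _).trans (add_le_add hE1 hE2)
    _ = ENNReal.ofReal r := by
        rw [← ENNReal.ofReal_add (by positivity) (by positivity)]
        congr 1
        ring

end Pool.Agent.R970.FB
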