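import Pool.Agent.R970.FB.Defs

/-! # Piece SM: the second moment bound -/

set_option autoImplicit false

open scoped ENNReal NNReal Topology
open MeasureTheory ProbabilityTheory Set Filter
open ProbabilityTheory.BrownianReal

namespace Pool.Agent.R970.FB

variable {Ω : Type*} [MeasurableSpace Ω]

/-- The event that, for the path `b`, the windows seen from the time `s` (the windows `i < j` in
the past of `s`, the windows `i < N` in the future of `s`) have nonnegative increments. -/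
def Ev (j N : ℕ) (s : ℝ) (b : ℝ≥0 → ℝ) : Prop :=
  (∀ i < j, 0 ≤ b (s - kap i - eps i).toNNReal - b (s - kap i).toNNReal) ∧
  (∀ i < N, 0 ≤ b (s + kap i + eps i).toNNReal - b (s + kap i).toNNReal)

namespace SM

/-- The intervals with ends `a`, `b` and `c`, `d` do not overlap. -/
def Apart {α : Type*} [LE α] (a b c d : α) : Prop :=
  (a ≤ c ∧ a ≤ d ∧ b ≤ c ∧ b ≤ d) ∨ (c ≤ a ∧ c ≤ b ∧ d ≤ a ∧ d ≤ b)

theorem gauss_Ici {v : ℝ≥0} (hv : v ≠ 0) : gaussianReal 0 v (Ici 0) = 2⁻¹ := by
  have hna : NullSingletonClass (gaussianReal 0 v) := nullSingletonClass_gaussianReal hv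
  have h1 : gaussianReal 0 v (Ici 0) = gaussianReal 0 v (Iic 0) := by
    have h := gaussianReal_map_neg (μ := 0) (v := v)
    rw [neg_zero] at h
    conv_lhs => rw [← h]
    rw [Measure.map_apply (by fun_prop) measurableSet_Ici]
    congr 1
    ext x; simp
  have h2 : gaussianReal 0 v (Ici 0) + gaussianReal 0 v (Iic 0) = 1 := by
    rw [← Ioi_union_left, measure_union (by simp) (measurableSet_singleton _), measure_singleton,
      add_zero, ← compl_Iic, measure_compl measurableSet_Iic (measure_ne_top _ _), measure_univ]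
    exact tsub_add_cancel_of_le prob_le_one
  rw [← h1, ← two_mul] at h2
  exact ENNReal.eq_inv_of_mul_eq_one_left (by rw [mul_comm]; exact h2)

theorem cov_incr {P : Measure Ω} {B : ℝ≥0 → Ω → ℝ} (hB : IsPreBrownianReal B P)
    {a b c d : ℝ≥0} (h : Apart a b c d) :
    cov[fun ω => B b ω - B a ω, fun ω => B d ω - B c ω; P] = 0 := by
  have := hB.isGaussianProcess.isProbabilityMeasure
  rw [covariance_fun_sub_fun_sub]
  · simp_rw [hB.covariance_fun_eval]
    rcases h with ⟨h1, h2, h3, h4⟩ | ⟨h1, h2, h3, h4⟩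
    · rw [min_eq_left h1, min_eq_left h2, min_eq_left h3, min_eq_left h4]; simp
    · rw [min_eq_right h1, min_eq_right h2, min_eq_right h3, min_eq_right h4]; simp
  all_goals exact (hB.isGaussianProcess.hasGaussianLaw_eval _).memLp_two

theorem prob_incr {P : Measure Ω} {B : ℝ≥0 → Ω → ℝ} (hB : IsPreBrownianReal B P)
    {κ : Type*} (T : Finset κ) (x y : κ → ℝ≥0) (hne : ∀ k ∈ T, x k ≠ y k)
    (hd : ∀ k ∈ T, ∀ l ∈ T, k ≠ l → Apart (x k) (y k) (x l) (y l)) :
    P {ω | ∀ k ∈ T, 0 ≤ B (y k) ω - B (x k) ω} = 2⁻¹ ^ T.card := by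
  classical
  have hgl : HasGaussianLaw (fun ω (k : T) => B (y k) ω - B (x k) ω) P := by
    let I : Finset ℝ≥0 := T.image x ∪ T.image y
    have hx : ∀ k : T, x k ∈ I := fun k =>
      Finset.mem_union_left _ (Finset.mem_image_of_mem _ k.2)
    have hy : ∀ k : T, y k ∈ I := fun k =>
      Finset.mem_union_right _ (Finset.mem_image_of_mem _ k.2)
    let L : (I → ℝ) →L[ℝ] (T → ℝ) :=
        { toFun z k := z ⟨y k, hy k⟩ - z ⟨x k, hx k⟩
          map_add' x y := by ext k; simp; ring
          map_smul' c x := by ext k; simp; ring }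
    exact (hB.isGaussianProcess.hasGaussianLaw I).map L
  have hi : iIndepFun (fun (k : T) ω => B (y k) ω - B (x k) ω) P :=
    hgl.iIndepFun_of_covariance_eq_zero fun i j hij =>
      cov_incr hB (hd _ i.2 _ j.2 (fun h => hij (Subtype.ext h)))
  have hset : {ω | ∀ k ∈ T, 0 ≤ B (y k) ω - B (x k) ω} =
      ⋂ k ∈ (Finset.univ : Finset T), (fun ω => B (y k) ω - B (x k) ω) ⁻¹' Ici 0 := by
    ext ω; simp
  rw [hset, hi.measure_inter_preimage_eq_mul Finset.univ (sets := fun _ => Ici 0)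
    (fun _ _ => measurableSet_Ici)]
  have h1 : ∀ k : T, P ((fun ω => B (y k) ω - B (x k) ω) ⁻¹' Ici 0) = 2⁻¹ := by
    intro k
    have h := hB.hasLaw_sub (y k) (x k)
    have h2 : P ((fun ω => B (y k) ω - B (x k) ω) ⁻¹' Ici 0)
        = gaussianReal 0 (nndist (y k).1 (x k).1) (Ici 0) := by
      rw [← h.map_eq, Measure.map_apply_of_aemeasurable h.aemeasurable measurableSet_Ici]
      rfl
    rw [h2]
    apply gauss_Ici
    have := hne k k.2
    intro h0
    rw [nndist_eq_zero] at h0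
    exact this (NNReal.eq h0.symm)
  rw [Finset.prod_congr rfl (fun k _ => h1 k)]
  simp

theorem Apart.toNN {a b c d : ℝ} (h : Apart a b c d) :
    Apart a.toNNReal b.toNNReal c.toNNReal d.toNNReal := by
  rcases h with ⟨h1, h2, h3, h4⟩ | ⟨h1, h2, h3, h4⟩
  · exact Or.inl ⟨Real.toNNReal_mono h1, Real.toNNReal_mono h2, Real.toNNReal_mono h3,
      Real.toNNReal_mono h4⟩
  · exact Or.inr ⟨Real.toNNReal_mono h1, Real.toNNReal_mono h2, Real.toNNReal_mono h3,
      Real.toNNReal_mono h4⟩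

theorem Apart.symm {α : Type*} [LE α] {a b c d : α} (h : Apart a b c d) : Apart c d a b := by
  exact Or.symm h

/-- Offset of the first end of a window. -/
noncomputable def offP : ℕ ⊕ ℕ → ℝ
  | .inl i => -(kap i : ℝ)
  | .inr i => kap i

/-- Offset of the second end of a window. -/
noncomputable def offQ : ℕ ⊕ ℕ → ℝ
  | .inl i => -(kap i : ℝ) - eps i
  | .inr i => kap i + eps i

/-- The index of a window. -/
def idx : ℕ ⊕ ℕ → ℕ
  | .inl i => i
  | .inr i => i

/-- The windows. -/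
def Wi (j N : ℕ) : Finset (ℕ ⊕ ℕ) := (Finset.range j).disjSum (Finset.range N)

theorem kap_ge (i : ℕ) : (64 : ℝ) ≤ kap i := by
  have h : (kap i : ℝ) = 64 ^ (i + 1) := by simp [kap]
  rw [h, pow_succ]
  have : (1 : ℝ) ≤ 64 ^ i := one_le_pow₀ (by norm_num)
  linarith

theorem kap_lt {i k : ℕ} (h : i < k) : 64 * (kap i : ℝ) ≤ kap k := by
  have h1 : (kap i : ℝ) = 64 ^ (i + 1) := by simp [kap]
  have h2 : (kap k : ℝ) = 64 ^ (k + 1) := by simp [kap]
  rw [h1, h2, ← pow_succ']
  exact pow_le_pow_right₀ (by norm_num) (by lia)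

theorem kap_le {i k : ℕ} (h : i ≤ k) : (kap i : ℝ) ≤ kap k := by
  rcases h.lt_or_eq with h | h
  · have := kap_lt h
    have := kap_ge i
    linarith
  · rw [h]

theorem eps_pos (i : ℕ) : (0 : ℝ) < eps i := by
  simp only [eps, NNReal.coe_pow]
  positivity

theorem eps_le (i : ℕ) : (eps i : ℝ) ≤ 4 / 9 := by
  have h : (eps i : ℝ) = (4 / 9) ^ (i + 1) := by simp [eps]
  rw [h, pow_succ]
  have : ((4 : ℝ) / 9) ^ i ≤ 1 := pow_le_one₀ (by norm_num) (by norm_num)
  linarith

theorem off_sep {k l : ℕ ⊕ ℕ} (h : k ≠ l) : 2 ≤ |offP k - offP l| := by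
  rcases k with i | i <;> rcases l with m | m
  · have hne : i ≠ m := fun h' => h (by rw [h'])
    rw [le_abs]
    simp only [offP]
    rcases lt_or_gt_of_ne hne with h' | h'
    · have := kap_lt h'; have := kap_ge i; left; linarith
    · have := kap_lt h'; have := kap_ge m; right; linarith
  · have := kap_ge i; have := kap_ge m
    rw [le_abs]; simp only [offP]; right; linarith
  · have := kap_ge i; have := kap_ge m
    rw [le_abs]; simp only [offP]; left; linarith
  · have hne : i ≠ m := fun h' => h (by rw [h'])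
    rw [le_abs]
    simp only [offP]
    rcases lt_or_gt_of_ne hne with h' | h'
    · have := kap_lt h'; have := kap_ge i; right; linarith
    · have := kap_lt h'; have := kap_ge m; left; linarith

theorem apart_of_far {s t : ℝ} {k l : ℕ ⊕ ℕ} (h : 1 ≤ |(t + offP k) - (s + offP l)|) :
    Apart (t + offP k) (t + offQ k) (s + offP l) (s + offQ l) := by
  rw [le_abs] at h
  rcases k with i | i <;> rcases l with m | m <;> simp only [offP, offQ, Apart] at h ⊢ <;>
  · have := eps_pos i; have := eps_pos m; have := eps_le i; have := eps_le m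
    rcases h with h | h
    · right; refine ⟨?_, ?_, ?_, ?_⟩ <;> linarith
    · left; refine ⟨?_, ?_, ?_, ?_⟩ <;> linarith

theorem apart_same {s t : ℝ} {k : ℕ ⊕ ℕ} (h : (eps (idx k) : ℝ) ≤ |t - s|) :
    Apart (t + offP k) (t + offQ k) (s + offP k) (s + offQ k) := by
  rw [le_abs] at h
  rcases k with i | i <;> simp only [offP, offQ, Apart, idx] at h ⊢ <;>
  · have := eps_pos i; have := eps_le i
    rcases h with h | h
    · right; refine ⟨?_, ?_, ?_, ?_⟩ <;> linarith
    · left; refine ⟨?_, ?_, ?_, ?_⟩ <;> linarith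

theorem mem_Wi {j N : ℕ} {k : ℕ ⊕ ℕ} : k ∈ Wi j N ↔
    (∃ i < j, k = .inl i) ∨ (∃ i < N, k = .inr i) := by
  rcases k with i | i <;> simp [Wi]

/-- Windows that meet at distance at least one have small indices. -/
theorem idx_lt {j N : ℕ} {s t : ℝ} (hs : s ∈ Ioo ((kap j : ℝ) / 2) (kap j))
    (ht : t ∈ Ioo ((kap j : ℝ) / 2) (kap j)) {k l : ℕ ⊕ ℕ} (hk : k ∈ Wi j N) (hl : l ∈ Wi j N)
    (hkl : k ≠ l) (h : |(t + offP k) - (s + offP l)| < 1) : k ∈ Wi j j ∧ l ∈ Wi j j := by
  rw [mem_Wi] at hk hl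
  rw [mem_Wi, mem_Wi]
  rw [abs_lt] at h
  obtain ⟨hs1, hs2⟩ := hs
  obtain ⟨ht1, ht2⟩ := ht
  have hj := kap_ge j
  rcases hk with ⟨i, hi, rfl⟩ | ⟨i, hi, rfl⟩ <;> rcases hl with ⟨m, hm, rfl⟩ | ⟨m, hm, rfl⟩ <;>
    simp only [offP] at h <;> have hki := kap_ge i <;> have hkm := kap_ge m
  · exact ⟨Or.inl ⟨i, hi, rfl⟩, Or.inl ⟨m, hm, rfl⟩⟩
  · refine ⟨Or.inl ⟨i, hi, rfl⟩, Or.inr ⟨m, ?_, rfl⟩⟩
    by_contra hc
    have := kap_le (not_lt.1 hc)
    linarith
  · refine ⟨Or.inr ⟨i, ?_, rfl⟩, Or.inl ⟨m, hm, rfl⟩⟩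
    by_contra hc
    have := kap_le (not_lt.1 hc)
    linarith
  · have hne : i ≠ m := fun h' => hkl (by rw [h'])
    rcases lt_or_gt_of_ne hne with h' | h'
    · have h3 := kap_lt h'
      have : m < j := by
        by_contra hc
        have := kap_le (not_lt.1 hc)
        linarith
      exact ⟨Or.inr ⟨i, by lia, rfl⟩, Or.inr ⟨m, this, rfl⟩⟩
    · have h3 := kap_lt h'
      have : i < j := by
        by_contra hc
        have := kap_le (not_lt.1 hc)
        linarith
      exact ⟨Or.inr ⟨i, this, rfl⟩, Or.inr ⟨m, by lia, rfl⟩⟩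

theorem off_nonneg {j N : ℕ} {s : ℝ} (hs : s ∈ Ioo ((kap j : ℝ) / 2) (kap j)) {k : ℕ ⊕ ℕ}
    (hk : k ∈ Wi j N) : 0 ≤ s + offP k ∧ 0 ≤ s + offQ k ∧ s + offP k ≠ s + offQ k := by
  rw [mem_Wi] at hk
  obtain ⟨hs1, hs2⟩ := hs
  have hj := kap_ge j
  rcases hk with ⟨i, hi, rfl⟩ | ⟨i, hi, rfl⟩ <;> simp only [offP, offQ] <;>
    have hki := kap_ge i <;> have h1 := eps_pos i <;> have h2 := eps_le i
  · have := kap_lt hi
    refine ⟨by linarith, by linarith, ?_⟩
    intro h; linarith
  · refine ⟨by linarith, by linarith, ?_⟩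
    intro h; linarith

/-- The windows of `t` that meet a window of `s`. -/
noncomputable def Bad (j N : ℕ) (s t : ℝ) : Finset (ℕ ⊕ ℕ) :=
  open Classical in
  (Wi j N).filter fun k => ∃ l ∈ Wi j N,
    ¬ Apart (t + offP k) (t + offQ k) (s + offP l) (s + offQ l)

theorem ev_iff {j N : ℕ} {s : ℝ} {b : ℝ≥0 → ℝ} : Ev j N s b ↔
    ∀ k ∈ Wi j N, 0 ≤ b (s + offQ k).toNNReal - b (s + offP k).toNNReal := by
  unfold Ev
  constructor
  · rintro ⟨h1, h2⟩ k hk
    rw [mem_Wi] at hk
    rcases hk with ⟨i, hi, rfl⟩ | ⟨i, hi, rfl⟩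
    · have := h1 i hi
      simp only [offP, offQ]
      convert this using 4 <;> ring
    · have := h2 i hi
      simp only [offP, offQ]
      convert this using 4; ring
  · intro h
    refine ⟨fun i hi => ?_, fun i hi => ?_⟩
    · have := h (.inl i) (mem_Wi.2 (Or.inl ⟨i, hi, rfl⟩))
      simp only [offP, offQ] at this
      convert this using 4 <;> ring
    · have := h (.inr i) (mem_Wi.2 (Or.inr ⟨i, hi, rfl⟩))
      simp only [offP, offQ] at this
      convert this using 4; ring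

theorem prob_le {P : Measure Ω} {B : ℝ≥0 → Ω → ℝ} (hB : IsPreBrownianReal B P) {j N : ℕ} {s t : ℝ}
    (hs : s ∈ Ioo ((kap j : ℝ) / 2) (kap j)) (ht : t ∈ Ioo ((kap j : ℝ) / 2) (kap j)) :
    (2 : ℝ≥0∞) ^ (2 * (j + N)) * P {ω | Ev j N s (B · ω) ∧ Ev j N t (B · ω)}
      ≤ 2 ^ (Bad j N s t).card := by
  classical
  let T : Finset ((ℕ ⊕ ℕ) ⊕ (ℕ ⊕ ℕ)) := (Wi j N).disjSum (Wi j N \ Bad j N s t)
  let x : (ℕ ⊕ ℕ) ⊕ (ℕ ⊕ ℕ) → ℝ≥0 :=
    Sum.elim (fun k => (s + offP k).toNNReal) (fun k => (t + offP k).toNNReal)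
  let y : (ℕ ⊕ ℕ) ⊕ (ℕ ⊕ ℕ) → ℝ≥0 :=
    Sum.elim (fun k => (s + offQ k).toNNReal) (fun k => (t + offQ k).toNNReal)
  have hsep : ∀ (r : ℝ) {k l : ℕ ⊕ ℕ}, k ≠ l → Apart (r + offP k) (r + offQ k) (r + offP l)
      (r + offQ l) := by
    intro r k l hkl
    apply apart_of_far
    have := off_sep hkl
    rw [show r + offP k - (r + offP l) = offP k - offP l by ring]
    linarith
  have hbad : ∀ k ∈ Wi j N \ Bad j N s t, ∀ l ∈ Wi j N,
      Apart (t + offP k) (t + offQ k) (s + offP l) (s + offQ l) := by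
    intro k hk l hl
    by_contra hc
    rw [Finset.mem_sdiff] at hk
    exact hk.2 (by
      unfold Bad
      rw [Finset.mem_filter]
      exact ⟨hk.1, l, hl, hc⟩)
  have h1 := prob_incr hB T x y ?_ ?_
  · have hcard : T.card + (Bad j N s t).card = 2 * (j + N) := by
      have h2 : Bad j N s t ⊆ Wi j N := Finset.filter_subset _ _
      have h3 := Finset.card_sdiff_add_card_eq_card h2
      have h4 : (Wi j N).card = j + N := by simp [Wi]
      simp only [T, Finset.card_disjSum]
      lia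
    have hsub : P {ω | Ev j N s (B · ω) ∧ Ev j N t (B · ω)} ≤ 2⁻¹ ^ T.card := by
      rw [← h1]
      apply measure_mono
      rintro ω ⟨hω1, hω2⟩
      rw [ev_iff] at hω1 hω2
      intro k hk
      rcases k with k | k
      · exact hω1 k (by simpa [T] using hk)
      · exact hω2 k (by
          have : k ∈ Wi j N ∧ k ∉ Bad j N s t := by simpa [T] using hk
          exact this.1)
    calc (2 : ℝ≥0∞) ^ (2 * (j + N)) * P {ω | Ev j N s (B · ω) ∧ Ev j N t (B · ω)}
        ≤ 2 ^ (2 * (j + N)) * 2⁻¹ ^ T.card := by gcongr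
      _ = 2 ^ (Bad j N s t).card := by
          rw [← hcard, pow_add, mul_comm (2 ^ T.card), mul_assoc, ← mul_pow,
            ENNReal.mul_inv_cancel (by norm_num) (by norm_num), one_pow, mul_one]
  · rintro (k | k) hk
    · have hk' : k ∈ Wi j N := by simpa [T] using hk
      obtain ⟨h2, h3, h4⟩ := off_nonneg hs hk'
      simp only [x, y, Sum.elim_inl]
      rwa [Ne, Real.toNNReal_eq_toNNReal_iff h2 h3]
    · have hk' : k ∈ Wi j N ∧ k ∉ Bad j N s t := by simpa [T] using hk
      obtain ⟨h2, h3, h4⟩ := off_nonneg ht hk'.1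
      simp only [x, y, Sum.elim_inr]
      rwa [Ne, Real.toNNReal_eq_toNNReal_iff h2 h3]
  · rintro (k | k) hk (l | l) hl hkl
    · exact (hsep s (fun h => hkl (by rw [h]))).toNN
    · have hk' : k ∈ Wi j N := by simpa [T] using hk
      have hl' : l ∈ Wi j N \ Bad j N s t := by simpa [T] using hl
      exact (hbad l hl' k hk').toNN.symm
    · have hk' : k ∈ Wi j N \ Bad j N s t := by simpa [T] using hk
      have hl' : l ∈ Wi j N := by simpa [T] using hl
      exact (hbad k hk' l hl').toNN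
    · exact (hsep t (fun h => hkl (by rw [h]))).toNN

/-- Indicator function of the times `t` with `|t - s - c| < r`. -/
noncomputable def Ind (c r s t : ℝ) : ℝ≥0∞ := (Ioo (s + c - r) (s + c + r)).indicator 1 t

theorem Ind_eq {c r s t : ℝ} (h : |t - s - c| < r) : Ind c r s t = 1 := by
  rw [abs_lt] at h
  unfold Ind
  rw [indicator_of_mem]
  · rfl
  · constructor <;> linarith

theorem measurable_Ind (c r s : ℝ) : Measurable (Ind c r s) :=
  measurable_one.indicator measurableSet_Ioo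

theorem lintegral_Ind (c r s : ℝ) (A : Set ℝ) :
    ∫⁻ t in A, Ind c r s t ≤ ENNReal.ofReal (2 * r) := by
  refine (setLIntegral_le_lintegral _ _).trans ?_
  unfold Ind
  rw [lintegral_indicator_one measurableSet_Ioo, Real.volume_Ioo]
  apply le_of_eq
  congr 1
  ring

theorem two_pow_count (N : ℕ) (d : ℝ) : (2 : ℝ≥0∞) ^ ((Finset.range N).filter
      fun i => d < eps i).card ≤ 1 + ∑ m ∈ Finset.range N, 2 ^ (m + 1) *
        (if d < eps m then 1 else 0) := by
  induction N with
  | zero => simp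
  | succ N ih =>
    rw [Finset.range_add_one, Finset.filter_insert, Finset.sum_insert (by simp)]
    split_ifs with h
    · have h1 : (2 : ℝ≥0∞) ^ (insert N ((Finset.range N).filter fun i => d < eps i)).card
          ≤ 2 ^ (N + 1) * 1 := by
        rw [mul_one]
        gcongr
        · norm_num
        · refine (Finset.card_insert_le _ _).trans ?_
          have := Finset.card_filter_le (Finset.range N) (fun i => d < eps i)
          simp only [Finset.card_range] at this
          lia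
      exact h1.trans (le_add_left (le_add_right le_rfl))
    · rw [mul_zero, zero_add]
      exact ih

theorem pow_bad_le {j N : ℕ} {s t : ℝ}
    (hs : s ∈ Ioo ((kap j : ℝ) / 2) (kap j)) (ht : t ∈ Ioo ((kap j : ℝ) / 2) (kap j)) :
    (2 : ℝ≥0∞) ^ (Bad j N s t).card ≤ (1 + 2 ^ j * Ind 0 1 s t) +
      (2 ^ j * ∑ m ∈ Finset.range N, 2 ^ (m + 1) * Ind 0 (eps m) s t +
      4 ^ j * ∑ k ∈ Wi j j, ∑ l ∈ Wi j j, Ind (offP l - offP k) 1 s t) := by
  classical
  rcases lt_or_ge |t - s| 1 with h | h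
  · -- close points
    have hsub : Bad j N s t ⊆ (Finset.range j).disjSum
        ((Finset.range N).filter fun i => |t - s| < eps i) := by
      intro k hk
      unfold Bad at hk
      rw [Finset.mem_filter] at hk
      obtain ⟨hk1, l, hl, hkl⟩ := hk
      have hkl' : k = l := by
        by_contra hne
        apply hkl
        apply apart_of_far
        have h2 := off_sep hne
        have h3 : |offP k - offP l| ≤ |t + offP k - (s + offP l)| + |t - s| := by
          calc |offP k - offP l| = |(t + offP k - (s + offP l)) - (t - s)| := by congr 1; ring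
            _ ≤ _ := abs_sub _ _
        linarith
      subst hkl'
      have h4 : |t - s| < eps (idx k) := by
        by_contra hc
        exact hkl (apart_same (not_lt.1 hc))
      rw [mem_Wi] at hk1
      rcases hk1 with ⟨i, hi, rfl⟩ | ⟨i, hi, rfl⟩
      · simp [hi]
      · simp only [idx] at h4
        simp [hi, h4]
    have h5 := Finset.card_le_card hsub
    rw [Finset.card_disjSum, Finset.card_range] at h5
    have h6 := two_pow_count N |t - s|
    have h7 : ∑ m ∈ Finset.range N, (2 : ℝ≥0∞) ^ (m + 1) * (if |t - s| < eps m then 1 else 0)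
        ≤ ∑ m ∈ Finset.range N, 2 ^ (m + 1) * Ind 0 (eps m) s t := by
      apply Finset.sum_le_sum
      intro m _
      split_ifs with h8
      · rw [Ind_eq (by simpa using h8)]
      · simp
    calc (2 : ℝ≥0∞) ^ (Bad j N s t).card
        ≤ 2 ^ (j + ((Finset.range N).filter fun i => |t - s| < eps i).card) := by
          gcongr
          norm_num
      _ = 2 ^ j * 2 ^ ((Finset.range N).filter fun i => |t - s| < eps i).card := pow_add _ _ _
      _ ≤ 2 ^ j * (1 + ∑ m ∈ Finset.range N, 2 ^ (m + 1) * Ind 0 (eps m) s t) := by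
          gcongr
          exact h6.trans (by gcongr)
      _ = 2 ^ j * Ind 0 1 s t + 2 ^ j * ∑ m ∈ Finset.range N, 2 ^ (m + 1) * Ind 0 (eps m) s t := by
          rw [Ind_eq (by simpa using h)]; ring
      _ ≤ _ := add_le_add (le_add_left le_rfl) (le_add_right le_rfl)
  · -- far points
    by_cases hemp : Bad j N s t = ∅
    · rw [hemp, Finset.card_empty, pow_zero]
      exact le_trans (le_add_right le_rfl) (le_add_right le_rfl)
    · have hpair : ∀ k ∈ Bad j N s t, ∃ l ∈ Wi j j, k ∈ Wi j j ∧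
          |(t + offP k) - (s + offP l)| < 1 := by
        intro k hk
        unfold Bad at hk
        rw [Finset.mem_filter] at hk
        obtain ⟨hk1, l, hl, hkl⟩ := hk
        have h2 : |(t + offP k) - (s + offP l)| < 1 := by
          by_contra hc
          exact hkl (apart_of_far (not_lt.1 hc))
        have h3 : k ≠ l := by
          rintro rfl
          rw [show t + offP k - (s + offP k) = t - s by ring] at h2
          linarith
        have h4 := idx_lt hs ht hk1 hl h3 h2
        exact ⟨l, h4.2, h4.1, h2⟩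
      have hsub : Bad j N s t ⊆ Wi j j := fun k hk => by
        obtain ⟨l, _, h2, _⟩ := hpair k hk
        exact h2
      have hcard : (Bad j N s t).card ≤ 2 * j := by
        refine (Finset.card_le_card hsub).trans ?_
        simp [Wi]; lia
      obtain ⟨k, hk⟩ := Finset.nonempty_iff_ne_empty.2 hemp
      obtain ⟨l, hl, hk2, hkl⟩ := hpair k hk
      have h5 : (1 : ℝ≥0∞) ≤ ∑ k ∈ Wi j j, ∑ l ∈ Wi j j, Ind (offP l - offP k) 1 s t := by
        rw [← Ind_eq (c := offP l - offP k) (r := 1) (s := s) (t := t)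
          (by rwa [show t - s - (offP l - offP k) = t + offP k - (s + offP l) by ring])]
        refine le_trans ?_ (Finset.single_le_sum (f := fun k => ∑ l ∈ Wi j j,
          Ind (offP l - offP k) 1 s t) (fun _ _ => zero_le) hk2)
        exact Finset.single_le_sum (f := fun l => Ind (offP l - offP k) 1 s t)
          (fun _ _ => zero_le) hl
      calc (2 : ℝ≥0∞) ^ (Bad j N s t).card ≤ 2 ^ (2 * j) := by
            gcongr
            norm_num
        _ = 4 ^ j * 1 := by rw [pow_mul, mul_one]; norm_num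
        _ ≤ 4 ^ j * ∑ k ∈ Wi j j, ∑ l ∈ Wi j j, Ind (offP l - offP k) 1 s t := by gcongr
        _ ≤ _ := le_trans (le_add_left le_rfl) (le_add_left le_rfl)

theorem sum_eps_le (N : ℕ) : ∑ m ∈ Finset.range N, (2 : ℝ) ^ (m + 1) * (2 * (4 / 9) ^ (m + 1))
    ≤ 16 := by
  have h : ∑ m ∈ Finset.range N, (2 : ℝ) ^ (m + 1) * (2 * (4 / 9) ^ (m + 1))
      = 16 - 16 * (8 / 9) ^ N := by
    induction N with
    | zero => simp
    | succ N ih =>
      rw [Finset.sum_range_succ, ih]
      have : (2 : ℝ) ^ (N + 1) * (2 * (4 / 9) ^ (N + 1)) = 2 * (8 / 9) ^ (N + 1) := by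
        rw [show (8 / 9 : ℝ) = 2 * (4 / 9) by norm_num, mul_pow]; ring
      rw [this, pow_succ]; ring
  rw [h]
  have : (0 : ℝ) ≤ (8 / 9) ^ N := by positivity
  linarith

theorem lintegral_bound (j N : ℕ) (s : ℝ) (A : Set ℝ) :
    ∫⁻ t in A, ((1 + 2 ^ j * Ind 0 1 s t) +
      (2 ^ j * ∑ m ∈ Finset.range N, 2 ^ (m + 1) * Ind 0 (eps m) s t +
      4 ^ j * ∑ k ∈ Wi j j, ∑ l ∈ Wi j j, Ind (offP l - offP k) 1 s t)) ≤
    volume A + ENNReal.ofReal (2 ^ j * 2 + 2 ^ j * 16 + 4 ^ j * (4 * j ^ 2 * 2)) := by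
  have m1 : Measurable fun t => (1 : ℝ≥0∞) + 2 ^ j * Ind 0 1 s t :=
    ((measurable_Ind _ _ _).const_mul _).const_add _
  have m2 : Measurable fun t => (2 : ℝ≥0∞) ^ j * ∑ m ∈ Finset.range N,
      2 ^ (m + 1) * Ind 0 (eps m) s t :=
    (Finset.measurable_fun_sum _ fun m _ => (measurable_Ind _ _ _).const_mul _).const_mul _
  rw [lintegral_add_left m1, lintegral_add_left m2, lintegral_add_left measurable_const,
    lintegral_const_mul _ (measurable_Ind _ _ _),
    lintegral_const_mul _ (Finset.measurable_fun_sum _ fun m _ =>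
      (measurable_Ind _ _ _).const_mul _),
    lintegral_const_mul _ (Finset.measurable_fun_sum _ fun k _ =>
      Finset.measurable_fun_sum _ fun l _ => measurable_Ind _ _ _),
    lintegral_finsetSum _ (fun m _ => (measurable_Ind _ _ _).const_mul _),
    lintegral_finsetSum _ (fun k _ => Finset.measurable_fun_sum _ fun l _ =>
      measurable_Ind _ _ _)]
  have e1 : ∫⁻ t in A, Ind 0 1 s t ≤ ENNReal.ofReal 2 := by
    have := lintegral_Ind 0 1 s A
    rwa [mul_one] at this
  have e2 : ∑ m ∈ Finset.range N, ∫⁻ t in A, (2 : ℝ≥0∞) ^ (m + 1) * Ind 0 (eps m) s t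
      ≤ ENNReal.ofReal 16 := by
    refine le_trans ?_ (ENNReal.ofReal_le_ofReal (sum_eps_le N))
    rw [ENNReal.ofReal_sum_of_nonneg (fun m _ => by positivity)]
    apply Finset.sum_le_sum
    intro m _
    rw [lintegral_const_mul _ (measurable_Ind _ _ _), ENNReal.ofReal_mul (by positivity)]
    have h1 : (2 : ℝ≥0∞) ^ (m + 1) = ENNReal.ofReal (2 ^ (m + 1)) := by
      rw [ENNReal.ofReal_pow (by norm_num)]; norm_num
    rw [← h1]
    gcongr
    have := lintegral_Ind 0 (eps m) s A
    simpa [eps] using this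
  have e3 : ∑ k ∈ Wi j j, ∫⁻ t in A, ∑ l ∈ Wi j j, Ind (offP l - offP k) 1 s t
      ≤ ENNReal.ofReal (4 * j ^ 2 * 2) := by
    have hc : (Wi j j).card = j + j := by simp [Wi]
    calc ∑ k ∈ Wi j j, ∫⁻ t in A, ∑ l ∈ Wi j j, Ind (offP l - offP k) 1 s t
        ≤ ∑ k ∈ Wi j j, ∑ l ∈ Wi j j, ENNReal.ofReal 2 := by
          apply Finset.sum_le_sum
          intro k _
          rw [lintegral_finsetSum _ (fun l _ => measurable_Ind _ _ _)]
          apply Finset.sum_le_sum
          intro l _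
          have := lintegral_Ind (offP l - offP k) 1 s A
          rwa [mul_one] at this
      _ = ENNReal.ofReal (4 * j ^ 2 * 2) := by
          rw [Finset.sum_const, Finset.sum_const, hc, ENNReal.ofReal_mul (by positivity),
            smul_smul, nsmul_eq_mul]
          congr 1
          rw [ENNReal.ofReal_mul (by norm_num), ENNReal.ofReal_pow (by positivity),
            ENNReal.ofReal_natCast]
          push_cast
          norm_num
          ring
  have p2 : (2 : ℝ≥0∞) ^ j = ENNReal.ofReal (2 ^ j) := by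
    rw [ENNReal.ofReal_pow (by norm_num)]; norm_num
  have p4 : (4 : ℝ≥0∞) ^ j = ENNReal.ofReal (4 ^ j) := by
    rw [ENNReal.ofReal_pow (by norm_num)]; norm_num
  rw [ENNReal.ofReal_add (by positivity) (by positivity),
    ENNReal.ofReal_add (by positivity) (by positivity), ENNReal.ofReal_mul (by positivity),
    ENNReal.ofReal_mul (by positivity), ENNReal.ofReal_mul (p := 4 ^ j) (by positivity), p2, p4]
  rw [add_assoc, add_assoc]
  simp only [lintegral_const, one_mul, Measure.restrict_apply_univ]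
  gcongr

end SM

open SM in
theorem second_moment : ∃ K : ℝ≥0∞, K ≠ ∞ ∧ ∀ (Ω : Type) [MeasurableSpace Ω] (P : Measure Ω)
    (B : ℝ≥0 → Ω → ℝ), IsPreBrownianReal B P → (∀ t, Measurable (B t)) →
    (∀ ω, Continuous (B · ω)) → ∀ j N : ℕ,
    ∫⁻ s in Ioo ((kap j : ℝ) / 2) (kap j), ∫⁻ t in Ioo ((kap j : ℝ) / 2) (kap j),
      (2 : ℝ≥0∞) ^ (2 * (j + N)) * P {ω | Ev j N s (B · ω) ∧ Ev j N t (B · ω)}
      ≤ K * ENNReal.ofReal (kap j / 2) ^ 2 := by
  refine ⟨ENNReal.ofReal 4, by simp, ?_⟩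
  intro Ω _ P B hB _ _ j N
  have hin : ∀ s ∈ Ioo ((kap j : ℝ) / 2) (kap j), ∫⁻ t in Ioo ((kap j : ℝ) / 2) (kap j),
      (2 : ℝ≥0∞) ^ (2 * (j + N)) * P {ω | Ev j N s (B · ω) ∧ Ev j N t (B · ω)}
      ≤ ENNReal.ofReal 4 * ENNReal.ofReal (kap j / 2) := by
    intro s hs
    calc ∫⁻ t in Ioo ((kap j : ℝ) / 2) (kap j),
        (2 : ℝ≥0∞) ^ (2 * (j + N)) * P {ω | Ev j N s (B · ω) ∧ Ev j N t (B · ω)}
        ≤ _ := setLIntegral_mono' measurableSet_Ioo fun t ht =>
          (prob_le hB hs ht).trans (pow_bad_le hs ht)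
      _ ≤ _ := lintegral_bound j N s _
      _ ≤ _ := by
        rw [Real.volume_Ioo, ← ENNReal.ofReal_add (by have := kap_ge j; linarith) (by positivity),
          ← ENNReal.ofReal_mul (by norm_num)]
        apply ENNReal.ofReal_le_ofReal
        have h1 : (kap j : ℝ) = 64 * 64 ^ j := by simp [kap, pow_succ']
        have h2 : (64 : ℝ) ^ j = 4 ^ j * (4 ^ j * 4 ^ j) := by
          rw [← mul_pow, ← mul_pow]; norm_num
        have h3 : (4 : ℝ) ^ j = 2 ^ j * 2 ^ j := by rw [← mul_pow]; norm_num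
        have h4 : (j : ℝ) ≤ 2 ^ j := by exact_mod_cast (Nat.lt_two_pow_self (n := j)).le
        have h5 : (1 : ℝ) ≤ 2 ^ j := one_le_pow₀ (by norm_num)
        have h6 : (j : ℝ) ^ 2 ≤ 4 ^ j := by
          rw [h3, sq]
          exact mul_le_mul h4 h4 (by positivity) (by positivity)
        have h7 : (2 : ℝ) ^ j ≤ 4 ^ j := by rw [h3]; nlinarith
        have h8 : (1 : ℝ) ≤ 4 ^ j := h5.trans h7
        have h9 : (4 : ℝ) ^ j ≤ 64 ^ j := by
          rw [h2]; nlinarith [mul_pos (show (0 : ℝ) < 4 ^ j by positivity)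
            (show (0 : ℝ) < 4 ^ j by positivity), mul_self_nonneg ((4 : ℝ) ^ j - 1)]
        have h10 : (4 : ℝ) ^ j * (4 * j ^ 2 * 2) ≤ 8 * 64 ^ j := by
          calc (4 : ℝ) ^ j * (4 * j ^ 2 * 2) ≤ 4 ^ j * (4 * 4 ^ j * 2) := by gcongr
            _ = 8 * (4 ^ j * (4 ^ j * 1)) := by ring
            _ ≤ 8 * (4 ^ j * (4 ^ j * 4 ^ j)) := by gcongr
            _ = _ := by rw [h2]
        rw [h1]
        linarith
  calc ∫⁻ s in Ioo ((kap j : ℝ) / 2) (kap j), ∫⁻ t in Ioo ((kap j : ℝ) / 2) (kap j),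
      (2 : ℝ≥0∞) ^ (2 * (j + N)) * P {ω | Ev j N s (B · ω) ∧ Ev j N t (B · ω)}
      ≤ ∫⁻ s in Ioo ((kap j : ℝ) / 2) (kap j),
          ENNReal.ofReal 4 * ENNReal.ofReal (kap j / 2) :=
        setLIntegral_mono' measurableSet_Ioo hin
    _ = ENNReal.ofReal 4 * ENNReal.ofReal (kap j / 2) ^ 2 := by
        rw [setLIntegral_const, Real.volume_Ioo, sq, mul_assoc]
        congr 3
        ring

end Pool.Agent.R970.FB
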