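import Pool.Agent.R970.FB.Defs

/-!
# Two-sided Brownian motion as a Gaussian process
-/

set_option autoImplicit false

open scoped ENNReal NNReal Topology
open MeasureTheory ProbabilityTheory Set Filter
open ProbabilityTheory.BrownianReal

namespace Pool.Agent.R970.FB

variable {Ω : Type*} [MeasurableSpace Ω]

/-- Two independent Gaussian processes are jointly Gaussian. -/
lemma isGaussianProcess_sumElim {P : Measure Ω} {S T : Type*} {X : S → Ω → ℝ} {Y : T → Ω → ℝ}
    (hX : IsGaussianProcess X P) (hY : IsGaussianProcess Y P)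
    (hi : IndepFun (fun ω s => X s ω) (fun ω t => Y t ω) P) :
    IsGaussianProcess (Sum.elim X Y) P where
  hasGaussianLaw I := by
    classical
    have h1 : HasGaussianLaw
        (fun ω => (I.toLeft.restrict (X · ω), I.toRight.restrict (Y · ω))) P := by
      refine IndepFun.hasGaussianLaw (hX.hasGaussianLaw _) (hY.hasGaussianLaw _) ?_
      exact hi.comp (φ := fun x : S → ℝ => I.toLeft.restrict x)
        (ψ := fun y : T → ℝ => I.toRight.restrict y) (by fun_prop) (by fun_prop)
    let L0 : ((I.toLeft → ℝ) × (I.toRight → ℝ)) →ₗ[ℝ] (I → ℝ) :=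
      { toFun := fun p i => match i with
          | ⟨Sum.inl s, h⟩ => p.1 ⟨s, by simpa using h⟩
          | ⟨Sum.inr t, h⟩ => p.2 ⟨t, by simpa using h⟩
        map_add' := by
          intro p q
          funext i
          rcases i with ⟨i | i, h⟩ <;> rfl
        map_smul' := by
          intro c p
          funext i
          rcases i with ⟨i | i, h⟩ <;> rfl }
    let L : ((I.toLeft → ℝ) × (I.toRight → ℝ)) →L[ℝ] (I → ℝ) :=
      ⟨L0, LinearMap.continuous_of_finiteDimensional L0⟩
    have e : (fun ω => I.restrict (Sum.elim X Y · ω)) =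
        L ∘ (fun ω => (I.toLeft.restrict (X · ω), I.toRight.restrict (Y · ω))) := by
      funext ω i
      rcases i with ⟨i | i, h⟩ <;> rfl
    rw [e]
    exact h1.map L

lemma cov_id (s t : ℝ) : min (max s 0) (max t 0) + min (max (-s) 0) (max (-t) 0) =
    (|s| + |t| - |s - t|) / 2 := by
  simp only [max_def, min_def, abs_eq_max_neg]
  split_ifs <;> linarith

theorem isTS_of_pair {P : Measure Ω} {f b : ℝ≥0 → Ω → ℝ} (hf : IsPreBrownianReal f P)
    (hb : IsPreBrownianReal b P)
    (hi : IndepFun (fun ω t => f t ω) (fun ω t => b t ω) P) :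
    IsTS (fun t ω => f t.toNNReal ω + b (-t).toNNReal ω) P := by
  have hP : IsProbabilityMeasure P := hf.isGaussianProcess.isProbabilityMeasure
  have hfm : ∀ t, MemLp (f t) 2 P := fun t =>
    (hf.isGaussianProcess.hasGaussianLaw_eval t).memLp_two
  have hbm : ∀ t, MemLp (b t) 2 P := fun t =>
    (hb.isGaussianProcess.hasGaussianLaw_eval t).memLp_two
  have hfb : ∀ s t, cov[f s, b t; P] = 0 := fun s t =>
    (hi.comp (measurable_pi_apply s) (measurable_pi_apply t)).covariance_eq_zero (hfm s) (hbm t)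
  have hbf : ∀ s t, cov[b s, f t; P] = 0 := fun s t => by
    rw [covariance_comm]
    exact hfb t s
  refine ⟨?_, ?_, ?_⟩
  · refine (isGaussianProcess_sumElim hf.isGaussianProcess hb.isGaussianProcess
      hi).of_isGaussianProcess ?_
    intro t
    refine ⟨{Sum.inl t.toNNReal, Sum.inr (-t).toNNReal},
      { toFun := fun x => x ⟨Sum.inl t.toNNReal, by simp⟩ + x ⟨Sum.inr (-t).toNNReal, by simp⟩
        map_add' := fun x y => by simp only [Pi.add_apply]; ring
        map_smul' := fun c x => by simp only [Pi.smul_apply, smul_eq_mul, RingHom.id_apply]; ring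
        cont := by fun_prop }, ?_⟩
    intro ω
    rfl
  · intro t
    have h1 := integral_add (hf.integrable_eval t.toNNReal) (hb.integrable_eval (-t).toNNReal)
    rw [hf.integral_eval, hb.integral_eval, add_zero] at h1
    exact h1
  · intro s t
    change cov[f s.toNNReal + b (-s).toNNReal, f t.toNNReal + b (-t).toNNReal; P] = _
    rw [covariance_add_left (hfm _) (hbm _) ((hfm _).add (hbm _)),
      covariance_add_right (hfm _) (hfm _) (hbm _), covariance_add_right (hbm _) (hfm _) (hbm _),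
      hfb, hbf, hf.covariance_eval, hb.covariance_eval]
    push_cast
    simp only [Real.coe_toNNReal']
    rw [← cov_id]
    ring

theorem IsTS.shift {P : Measure Ω} {Y : ℝ → Ω → ℝ} (h : IsTS Y P) (c : ℝ) :
    IsTS (fun t ω => Y (c + t) ω - Y c ω) P := by
  have hP : IsProbabilityMeasure P := h.gauss.isProbabilityMeasure
  have hm : ∀ t, MemLp (Y t) 2 P := fun t => (h.gauss.hasGaussianLaw_eval t).memLp_two
  refine ⟨h.gauss.shift c, ?_, ?_⟩
  · intro t
    have h1 := integral_sub (h.gauss.hasGaussianLaw_eval (c + t)).integrable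
      (h.gauss.hasGaussianLaw_eval c).integrable
    rw [h.mean, h.mean, sub_zero] at h1
    exact h1
  · intro s t
    rw [covariance_fun_sub_fun_sub (hm _) (hm _) (hm _) (hm _)]
    have h1 : ∀ a b, cov[fun ω => Y a ω, fun ω => Y b ω; P] = (|a| + |b| - |a - b|) / 2 := h.cov
    rw [h1, h1, h1, h1]
    have e1 : c + s - (c + t) = s - t := by ring
    have e2 : c + s - c = s := by ring
    have e3 : |c - (c + t)| = |t| := by rw [sub_add_cancel_left, abs_neg]
    rw [e1, e2, e3, sub_self, abs_zero]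
    ring

lemma IsTS.cov_shift {P : Measure Ω} {Y : ℝ → Ω → ℝ} (h : IsTS Y P) (c s t : ℝ) :
    cov[fun ω => Y (c + s) ω - Y c ω, fun ω => Y (c + t) ω - Y c ω; P] =
      (|s| + |t| - |s - t|) / 2 := (h.shift c).cov s t

theorem IsTS.fwd {P : Measure Ω} {Y : ℝ → Ω → ℝ} (h : IsTS Y P) (c : ℝ) :
    IsPreBrownianReal (fun (t : ℝ≥0) ω => Y (c + t) ω - Y c ω) P := by
  refine IsGaussianProcess.isPreBrownianReal_of_covariance
    ((h.shift c).gauss.comp_right (fun t : ℝ≥0 => (t : ℝ))) ?_ ?_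
  · intro t
    exact (h.shift c).mean t
  · intro s t hst
    rw [h.cov_shift c s t, abs_of_nonneg s.coe_nonneg, abs_of_nonneg t.coe_nonneg, abs_of_nonpos
      (sub_nonpos.2 (NNReal.coe_le_coe.2 hst))]
    ring

theorem IsTS.bwd {P : Measure Ω} {Y : ℝ → Ω → ℝ} (h : IsTS Y P) (c : ℝ) :
    IsPreBrownianReal (fun (t : ℝ≥0) ω => Y (c - t) ω - Y c ω) P := by
  have h0 : (fun (t : ℝ≥0) ω => Y (c - t) ω - Y c ω) =
      fun (t : ℝ≥0) ω => Y (c + -(t : ℝ)) ω - Y c ω := by
    funext t ω
    rw [sub_eq_add_neg c]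
  rw [h0]
  refine IsGaussianProcess.isPreBrownianReal_of_covariance
    ((h.shift c).gauss.comp_right (fun t : ℝ≥0 => -(t : ℝ))) ?_ ?_
  · intro t
    exact (h.shift c).mean (-(t : ℝ))
  · intro s t hst
    rw [h.cov_shift c (-(s : ℝ)) (-(t : ℝ)), abs_neg, abs_neg, abs_of_nonneg s.coe_nonneg,
      abs_of_nonneg t.coe_nonneg]
    have e : |-(s : ℝ) - -(t : ℝ)| = t - s := by
      rw [abs_of_nonneg]
      · ring
      · have := NNReal.coe_le_coe.2 hst
        linarith
    rw [e]
    ring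

theorem IsTS.indep {P : Measure Ω} {Y : ℝ → Ω → ℝ} (h : IsTS Y P) (c : ℝ) :
    IndepFun (fun ω (t : ℝ≥0) => Y (c + t) ω - Y c ω)
      (fun ω (t : ℝ≥0) => Y (c - t) ω - Y c ω) P := by
  refine IsGaussianProcess.indepFun_of_covariance_eq_zero
    (X := fun (t : ℝ≥0) ω => Y (c + t) ω - Y c ω)
    (Y := fun (t : ℝ≥0) ω => Y (c - t) ω - Y c ω) ?_ (fun t => (h.fwd c).aemeasurable t)
    (fun t => (h.bwd c).aemeasurable t) ?_
  · have h1 := (h.shift c).gauss.comp_right
      (Sum.elim (fun t : ℝ≥0 => (t : ℝ)) (fun t : ℝ≥0 => -(t : ℝ)))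
    have e : Sum.elim (fun (t : ℝ≥0) ω => Y (c + t) ω - Y c ω)
        (fun (t : ℝ≥0) ω => Y (c - t) ω - Y c ω) =
        (fun t ω => Y (c + t) ω - Y c ω) ∘
          (Sum.elim (fun t : ℝ≥0 => (t : ℝ)) (fun t : ℝ≥0 => -(t : ℝ))) := by
      funext t ω
      rcases t with t | t
      · rfl
      · change Y (c - t) ω - Y c ω = Y (c + -(t : ℝ)) ω - Y c ω
        rw [sub_eq_add_neg c]
    rw [e]
    exact h1
  · intro s t
    have h0 : (fun ω => Y (c - t) ω - Y c ω) = fun ω => Y (c + -(t : ℝ)) ω - Y c ω := by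
      rw [sub_eq_add_neg c]
    rw [h0, h.cov_shift c s (-(t : ℝ)), abs_neg, abs_of_nonneg s.coe_nonneg, abs_of_nonneg t.coe_nonneg,
      abs_of_nonneg]
    · ring
    · have h3 : (0 : ℝ) ≤ s := s.coe_nonneg
      have h4 : (0 : ℝ) ≤ t := t.coe_nonneg
      linarith

/-- Increment processes over pairwise disjoint time intervals `[u i, v i]` are independent. -/
theorem IsTS.iIndep {P : Measure Ω} {Y : ℝ → Ω → ℝ} (h : IsTS Y P) {ι : Type*}
    (u v : ι → ℝ) (hd : ∀ i j, i ≠ j → v i ≤ u j ∨ v j ≤ u i) :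
    iIndepFun (fun (i : ι) ω (t : Icc (u i) (v i)) => Y t ω - Y (u i) ω) P := by
  have hP : IsProbabilityMeasure P := h.gauss.isProbabilityMeasure
  have hm : ∀ t, MemLp (Y t) 2 P := fun t => (h.gauss.hasGaussianLaw_eval t).memLp_two
  refine IsGaussianProcess.iIndepFun_of_covariance_eq_zero
    (X := fun (i : ι) (t : Icc (u i) (v i)) ω => Y t ω - Y (u i) ω) ?_ ?_ ?_
  · classical
    refine h.gauss.of_isGaussianProcess ?_
    rintro ⟨i, t⟩
    refine ⟨{(t : ℝ), u i},
      { toFun := fun x => x ⟨(t : ℝ), by simp⟩ - x ⟨u i, by simp⟩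
        map_add' := fun x y => by simp only [Pi.add_apply]; ring
        map_smul' := fun c x => by simp only [Pi.smul_apply, smul_eq_mul, RingHom.id_apply]; ring
        cont := by fun_prop }, ?_⟩
    intro ω
    rfl
  · intro i t
    exact (h.gauss.aemeasurable _).sub (h.gauss.aemeasurable _)
  · intro i j hij s t
    rw [covariance_fun_sub_fun_sub (hm _) (hm _) (hm _) (hm _)]
    have h1 : ∀ a b, cov[fun ω => Y a ω, fun ω => Y b ω; P] = (|a| + |b| - |a - b|) / 2 := h.cov
    rw [h1, h1, h1, h1]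
    obtain ⟨s, hs1, hs2⟩ := s
    obtain ⟨t, ht1, ht2⟩ := t
    rcases hd i j hij with h2 | h2
    · rw [abs_of_nonpos (show s - t ≤ 0 by linarith), abs_of_nonpos (show s - u j ≤ 0 by linarith),
        abs_of_nonpos (show u i - t ≤ 0 by linarith),
        abs_of_nonpos (show u i - u j ≤ 0 by linarith)]
      ring
    · rw [abs_of_nonneg (show 0 ≤ s - t by linarith), abs_of_nonneg (show 0 ≤ s - u j by linarith),
        abs_of_nonneg (show 0 ≤ u i - t by linarith),
        abs_of_nonneg (show 0 ≤ u i - u j by linarith)]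
      ring

/-- Law of an increment. -/
theorem IsTS.hasLaw_sub {P : Measure Ω} {Y : ℝ → Ω → ℝ} (h : IsTS Y P) (s t : ℝ) :
    HasLaw (fun ω => Y t ω - Y s ω) (gaussianReal 0 ⟨|t - s|, abs_nonneg _⟩) P := by
  rcases le_total s t with hst | hst
  · have h1 := (h.fwd s).hasLaw_eval ⟨t - s, sub_nonneg.2 hst⟩
    have e1 : (fun ω => Y (s + ((⟨t - s, sub_nonneg.2 hst⟩ : ℝ≥0) : ℝ)) ω - Y s ω) =
        fun ω => Y t ω - Y s ω := by
      funext ω
      change Y (s + (t - s)) ω - Y s ω = _
      rw [add_sub_cancel]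
    have e2 : (⟨|t - s|, abs_nonneg _⟩ : ℝ≥0) = ⟨t - s, sub_nonneg.2 hst⟩ :=
      Subtype.ext (abs_of_nonneg (sub_nonneg.2 hst))
    rw [e2]
    exact e1 ▸ h1
  · have h1 := (h.bwd s).hasLaw_eval ⟨s - t, sub_nonneg.2 hst⟩
    have e1 : (fun ω => Y (s - ((⟨s - t, sub_nonneg.2 hst⟩ : ℝ≥0) : ℝ)) ω - Y s ω) =
        fun ω => Y t ω - Y s ω := by
      funext ω
      change Y (s - (s - t)) ω - Y s ω = _
      rw [sub_sub_cancel]
    have e2 : (⟨|t - s|, abs_nonneg _⟩ : ℝ≥0) = ⟨s - t, sub_nonneg.2 hst⟩ :=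
      Subtype.ext (by
        change |t - s| = s - t
        rw [abs_of_nonpos (sub_nonpos.2 hst)]
        ring)
    rw [e2]
    exact e1 ▸ h1

end Pool.Agent.R970.FB
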