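import Pool.Agent.R970.FB.Basic
import Pool.Agent.R970.FB.L2
import Pool.Agent.R970.FB.TS
import Pool.Agent.R970.FB.BM
import Pool.Agent.R970.FB.D
import Pool.Agent.R970.FB.SM

set_option autoImplicit false

open scoped ENNReal NNReal Topology
open MeasureTheory ProbabilityTheory Set Filter
open ProbabilityTheory.BrownianReal

namespace Pool.Agent.R970.FB

variable {Ω : Type*} [MeasurableSpace Ω]

/-- The process of the counterexample. -/
noncomputable def XX (B C : ℝ≥0 → Ω → ℝ) (t : ℝ) (ω : Ω) : ℝ :=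
  Psi (B · ω) t.toNNReal + Psi (C · ω) (-t).toNNReal

/-- The path seen forward from the time `-s`. -/
noncomputable def th (B C : ℝ≥0 → Ω → ℝ) (p : Ω × ℝ) : ℝ≥0 → ℝ :=
  fun t => XX B C (-p.2 + t) p.1 - XX B C (-p.2) p.1

/-- The unmodified two-sided process. -/
noncomputable def YY (B C : ℝ≥0 → Ω → ℝ) (t : ℝ) (ω : Ω) : ℝ :=
  B t.toNNReal ω + C (-t).toNNReal ω

theorem measurable_joint {Z : ℝ → Ω → ℝ} (hm : ∀ t, Measurable (Z t))
    (hc : ∀ ω, Continuous (Z · ω)) : Measurable (fun p : Ω × ℝ => Z p.2 p.1) := by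
  have h : Measurable (Function.uncurry fun (t : ℝ) (ω : Ω) => Z t ω) :=
    measurable_uncurry_of_continuous_of_measurable (fun ω => hc ω) hm
  exact h.comp measurable_swap

theorem measurable_joint' {Z : ℝ≥0 → Ω → ℝ} (hm : ∀ t, Measurable (Z t))
    (hc : ∀ ω, Continuous (Z · ω)) : Measurable (fun p : Ω × ℝ≥0 => Z p.2 p.1) := by
  have h : Measurable (Function.uncurry fun (t : ℝ≥0) (ω : Ω) => Z t ω) :=
    measurable_uncurry_of_continuous_of_measurable (fun ω => hc ω) hm
  exact h.comp measurable_swap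

section
variable {B C : ℝ≥0 → Ω → ℝ}

theorem measurable_path (hBm : ∀ t, Measurable (B t)) : Measurable (fun ω => (B · ω)) :=
  measurable_pi_lambda _ fun t => hBm t

theorem measurable_XX (hBm : ∀ t, Measurable (B t)) (hCm : ∀ t, Measurable (C t)) (t : ℝ) :
    Measurable (XX B C t) := by
  have h1 : Measurable (fun ω => Psi (B · ω) t.toNNReal) :=
    measurable_pi_iff.1 (measurable_Psi.comp (measurable_path hBm)) t.toNNReal
  have h2 : Measurable (fun ω => Psi (C · ω) (-t).toNNReal) :=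
    measurable_pi_iff.1 (measurable_Psi.comp (measurable_path hCm)) (-t).toNNReal
  exact h1.add h2

omit [MeasurableSpace Ω] in
theorem continuous_XX (hBc : ∀ ω, Continuous (B · ω)) (hCc : ∀ ω, Continuous (C · ω)) (ω : Ω) :
    Continuous (XX B C · ω) := by
  unfold XX
  exact ((continuous_Psi (hBc ω)).comp (by fun_prop)).add
    ((continuous_Psi (hCc ω)).comp (by fun_prop))

theorem measurable_th (hBm : ∀ t, Measurable (B t)) (hCm : ∀ t, Measurable (C t))
    (hBc : ∀ ω, Continuous (B · ω)) (hCc : ∀ ω, Continuous (C · ω)) : Measurable (th B C) := by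
  have h := measurable_joint (measurable_XX hBm hCm) (continuous_XX hBc hCc)
  refine measurable_pi_lambda _ fun t => ?_
  unfold th
  exact (h.comp (measurable_fst.prodMk (measurable_snd.neg.add_const _))).sub
    (h.comp (measurable_fst.prodMk measurable_snd.neg))

/-- Gluing. -/
noncomputable def GG (s : ℝ) (q : (ℝ≥0 → ℝ) × (ℝ≥0 → ℝ)) (u : ℝ≥0) : ℝ :=
  (q.1 (-s + u).toNNReal + q.2 (s - u).toNNReal) - (q.1 (-s).toNNReal + q.2 s.toNNReal)

theorem measurable_GG (s : ℝ) : Measurable (GG s) := by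
  refine measurable_pi_lambda _ fun u => ?_
  unfold GG
  fun_prop

theorem GG_BC {P : Measure Ω} (hB : IsPreBrownianReal B P) (hC : IsPreBrownianReal C P)
    (hi : IndepFun (fun ω t => B t ω) (fun ω t => C t ω) P) (s : ℝ) :
    IsPreBrownianReal (fun u ω => GG s (fun t => B t ω, fun t => C t ω) u) P := by
  have h := (isTS_of_pair hB hC hi).fwd (-s)
  have e : (fun (u : ℝ≥0) ω => GG s (fun t => B t ω, fun t => C t ω) u) = fun (t : ℝ≥0) ω =>
      (B (-s + (t : ℝ)).toNNReal ω + C (-(-s + (t : ℝ))).toNNReal ω) -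
        (B (-s).toNNReal ω + C (-(-s)).toNNReal ω) := by
    funext u ω
    unfold GG
    have : -(-s + (u : ℝ)) = s - u := by ring
    rw [this, neg_neg]
  rw [e]
  exact h

theorem GG_Ev (s : ℝ) (j N : ℕ) (hs : ∀ i < j, (kap i : ℝ) + eps i ≤ s) (hs0 : 0 ≤ s)
    (q : (ℝ≥0 → ℝ) × (ℝ≥0 → ℝ)) :
    Ev j N s (GG s q) ↔ (∀ i < N, 0 ≤ Del i q.1) ∧ (∀ i < j, 0 ≤ Del i q.2) := by
  unfold Ev
  rw [and_comm]
  refine and_congr (forall₂_congr fun i hi => ?_) (forall₂_congr fun i hi => ?_)
  · have e : GG s q (s + kap i + eps i).toNNReal - GG s q (s + kap i).toNNReal = Del i q.1 := by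
      unfold GG Del
      have h1 : ((s + kap i + eps i).toNNReal : ℝ) = s + kap i + eps i :=
        Real.coe_toNNReal _ (by positivity)
      have h2 : ((s + kap i).toNNReal : ℝ) = s + kap i := Real.coe_toNNReal _ (by positivity)
      rw [h1, h2]
      have h3 : (-s + (s + kap i + eps i)).toNNReal = kap i + eps i := by
        rw [show -s + (s + kap i + eps i) = ((kap i + eps i : ℝ≥0) : ℝ) by push_cast; ring]
        exact Real.toNNReal_coe
      have h4 : (-s + (s + kap i)).toNNReal = kap i := by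
        rw [show -s + (s + kap i) = ((kap i : ℝ≥0) : ℝ) by ring]
        exact Real.toNNReal_coe
      have h5 : (s - (s + kap i + eps i)).toNNReal = 0 := by
        rw [Real.toNNReal_eq_zero]
        have := (kap i).2
        have := (eps i).2
        have h6 : (0 : ℝ) ≤ kap i := (kap i).2
        have h7 : (0 : ℝ) ≤ eps i := (eps i).2
        linarith
      have h6 : (s - (s + kap i)).toNNReal = 0 := by
        rw [Real.toNNReal_eq_zero]
        have h6 : (0 : ℝ) ≤ kap i := (kap i).2
        linarith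
      rw [h3, h4, h5, h6]
      ring
    rw [e]
  · have e : GG s q (s - kap i - eps i).toNNReal - GG s q (s - kap i).toNNReal = Del i q.2 := by
      unfold GG Del
      have h0 := hs i hi
      have hk : (0 : ℝ) ≤ kap i := (kap i).2
      have he : (0 : ℝ) ≤ eps i := (eps i).2
      have h1 : ((s - kap i - eps i).toNNReal : ℝ) = s - kap i - eps i :=
        Real.coe_toNNReal _ (by linarith)
      have h2 : ((s - kap i).toNNReal : ℝ) = s - kap i := Real.coe_toNNReal _ (by linarith)
      rw [h1, h2]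
      have h3 : (s - (s - kap i - eps i)).toNNReal = kap i + eps i := by
        rw [show s - (s - kap i - eps i) = ((kap i + eps i : ℝ≥0) : ℝ) by push_cast; ring]
        exact Real.toNNReal_coe
      have h4 : (s - (s - kap i)).toNNReal = kap i := by
        rw [show s - (s - kap i) = ((kap i : ℝ≥0) : ℝ) by ring]
        exact Real.toNNReal_coe
      have h5 : (-s + (s - kap i - eps i)).toNNReal = 0 := by
        rw [Real.toNNReal_eq_zero]
        linarith
      have h6 : (-s + (s - kap i)).toNNReal = 0 := by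
        rw [Real.toNNReal_eq_zero]
        linarith
      rw [h3, h4, h5, h6]
      ring
    rw [e]

theorem measurableSet_Del (N : ℕ) : MeasurableSet {b : ℝ≥0 → ℝ | ∀ i < N, 0 ≤ Del i b} := by
  have : {b : ℝ≥0 → ℝ | ∀ i < N, 0 ≤ Del i b} = ⋂ i ∈ Finset.range N, {b | 0 ≤ Del i b} := by
    ext b
    simp
  rw [this]
  exact Finset.measurableSet_biInter _ fun i _ => measurableSet_le measurable_const
    (measurable_Del i)

theorem measurableSet_Ev (j N : ℕ) (s : ℝ) : MeasurableSet {b : ℝ≥0 → ℝ | Ev j N s b} := by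
  have : {b : ℝ≥0 → ℝ | Ev j N s b} =
      (⋂ i ∈ Finset.range j, {b : ℝ≥0 → ℝ |
        0 ≤ b (s - kap i - eps i).toNNReal - b (s - kap i).toNNReal}) ∩
      (⋂ i ∈ Finset.range N, {b : ℝ≥0 → ℝ |
        0 ≤ b (s + kap i + eps i).toNNReal - b (s + kap i).toNNReal}) := by
    ext b
    simp [Ev]
  rw [this]
  refine (Finset.measurableSet_biInter _ fun i _ => ?_).inter
    (Finset.measurableSet_biInter _ fun i _ => ?_)
  · exact measurableSet_le measurable_const (by fun_prop)
  · exact measurableSet_le measurable_const (by fun_prop)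

/-- The density of the path seen from `-s`. -/
theorem dens {P : Measure Ω} [IsProbabilityMeasure P]
    (hBm : ∀ t, Measurable (B t)) (hCm : ∀ t, Measurable (C t))
    (hB : IsPreBrownianReal B P) (hC : IsPreBrownianReal C P)
    (hi : IndepFun (fun ω t => B t ω) (fun ω t => C t ω) P)
    {W : Measure (ℝ≥0 → ℝ)} (hW : IsW W) (j N : ℕ) (s : ℝ)
    (hs : ∀ i < j, (kap i : ℝ) + eps i ≤ s) (hs0 : 0 ≤ s) (hsj : s ≤ kap j)
    (I : Finset ℝ≥0) (hI : ∀ u ∈ I, u ≤ kap N) (S : Set (I → ℝ)) (hS : MeasurableSet S) :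
    P {ω | th B C (ω, s) ∈ cylinder I S} =
      2 ^ (j + N) * P {ω | (B · ω) ∈ cylinder I S ∧ Ev j N s (B · ω)} := by
  have hcyl : MeasurableSet (cylinder I S) := MeasurableSet.cylinder (α := fun _ => ℝ) I hS
  -- rewriting the event
  have e1 : {ω | th B C (ω, s) ∈ cylinder I S} =
      (fun ω => (PsiN N (B · ω), PsiN j (C · ω))) ⁻¹' (GG s ⁻¹' cylinder I S) := by
    ext ω
    simp only [mem_ofPred_eq, mem_preimage, mem_cylinder]
    have : I.restrict (th B C (ω, s)) = I.restrict (GG s (PsiN N (B · ω), PsiN j (C · ω))) := by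
      funext u
      have hu := hI u.1 u.2
      simp only [Finset.restrict, th, XX, GG]
      have h1 : (-s + (u.1 : ℝ)).toNNReal ≤ kap N := by
        refine le_trans ?_ hu
        rw [Real.toNNReal_le_iff_le_coe]
        linarith
      have h2 : (s - (u.1 : ℝ)).toNNReal ≤ kap j := by
        rw [Real.toNNReal_le_iff_le_coe]
        have : (0 : ℝ) ≤ u.1 := u.1.2
        linarith
      have h3 : (-s).toNNReal ≤ kap N := by
        rw [Real.toNNReal_le_iff_le_coe]
        have : (0 : ℝ) ≤ kap N := (kap N).2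
        linarith
      have h4 : s.toNNReal ≤ kap j := by
        rw [Real.toNNReal_le_iff_le_coe]
        exact hsj
      have e2 : -(-s + (u.1 : ℝ)) = s - u.1 := by ring
      rw [e2, neg_neg, Psi_eq h1, Psi_eq h2, Psi_eq h3, Psi_eq h4]
    rw [this]
  have hpair : Measurable (fun ω => ((B · ω), (C · ω))) :=
    (measurable_path hBm).prodMk (measurable_path hCm)
  have hlaw : P.map (fun ω => ((B · ω), (C · ω))) = W.prod W := by
    have := (indepFun_iff_map_prod_eq_prod_map_map (measurable_path hBm).aemeasurable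
      (measurable_path hCm).aemeasurable).1 hi
    rw [(isPreBrownianReal_iff hW hBm).1 hB, (isPreBrownianReal_iff hW hCm).1 hC] at this
    exact this
  have hWp : IsProbabilityMeasure W := by
    rw [← (isPreBrownianReal_iff hW hBm).1 hB]
    exact Measure.isProbabilityMeasure_map (measurable_path hBm).aemeasurable
  have hmGG := measurable_GG s
  have hQ : MeasurableSet (GG s ⁻¹' cylinder I S) := hmGG hcyl
  have e3 : P {ω | th B C (ω, s) ∈ cylinder I S} =
      ((W.map (PsiN N)).prod (W.map (PsiN j))) (GG s ⁻¹' cylinder I S) := by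
    rw [e1, Measure.map_prod_map _ _ (measurable_PsiN N) (measurable_PsiN j), ← hlaw,
      Measure.map_map ((measurable_PsiN N).prodMap (measurable_PsiN j)) hpair,
      Measure.map_apply (((measurable_PsiN N).prodMap (measurable_PsiN j)).comp hpair) hQ]
    rfl
  have e4 : P {ω | (B · ω) ∈ cylinder I S ∧ Ev j N s (B · ω)} =
      (W.prod W) (({b | ∀ i < N, 0 ≤ Del i b} ×ˢ {b | ∀ i < j, 0 ≤ Del i b}) ∩
        GG s ⁻¹' cylinder I S) := by
    have h1 : P {ω | (B · ω) ∈ cylinder I S ∧ Ev j N s (B · ω)} =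
        W (cylinder I S ∩ {b | Ev j N s b}) := by
      rw [← (isPreBrownianReal_iff hW hBm).1 hB, Measure.map_apply (measurable_path hBm)
        (hcyl.inter (measurableSet_Ev j N s))]
      rfl
    have hGm : ∀ u, Measurable (fun ω => GG s (fun t => B t ω, fun t => C t ω) u) := fun u =>
      (measurable_pi_apply u).comp (hmGG.comp hpair)
    have h2 : W (cylinder I S ∩ {b | Ev j N s b}) =
        P ((fun ω t => GG s (fun t => B t ω, fun t => C t ω) t) ⁻¹'
          (cylinder I S ∩ {b | Ev j N s b})) := by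
      rw [← Measure.map_apply (measurable_pi_lambda _ hGm)
        (hcyl.inter (measurableSet_Ev j N s)),
        (isPreBrownianReal_iff hW hGm).1 (GG_BC hB hC hi s)]
    rw [h1, h2, ← hlaw, Measure.map_apply hpair (((measurableSet_Del N).prod (measurableSet_Del j)).inter hQ)]
    congr 1
    ext ω
    have := GG_Ev s j N hs hs0 ((B · ω), (C · ω))
    simp only [mem_preimage, mem_inter_iff, mem_ofPred_eq, mem_prod] at this ⊢
    rw [← this, and_comm]
  rw [e3, e4, map_PsiN hW, map_PsiN hW]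
  rw [Measure.prod_smul_left, Measure.prod_smul_right, Measure.smul_apply, Measure.smul_apply,
    Measure.prod_restrict, Measure.restrict_apply hQ, inter_comm, smul_eq_mul, smul_eq_mul,
    ← mul_assoc, ← pow_add, add_comm N j]


theorem isTS_YY {P : Measure Ω} (hB : IsPreBrownianReal B P) (hC : IsPreBrownianReal C P)
    (hi : IndepFun (fun ω t => B t ω) (fun ω t => C t ω) P) : IsTS (YY B C) P :=
  isTS_of_pair hB hC hi

theorem measurable_YY (hBm : ∀ t, Measurable (B t)) (hCm : ∀ t, Measurable (C t)) (t : ℝ) :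
    Measurable (YY B C t) := (hBm _).add (hCm _)

theorem kap_gap {i j : ℕ} (h : i < j) : (kap i : ℝ) + eps i ≤ kap j / 64 + 1 := by
  have h1 : kap (i + 1) ≤ kap j := kap_mono h
  rw [kap_succ] at h1
  have h2 := eps_le i
  rw [← NNReal.coe_le_coe] at h1 h2
  push_cast at h1 h2
  linarith

omit [MeasurableSpace Ω] in
/-- On the stretch between two windows the increments are those of the unmodified process. -/
theorem th_local {j : ℕ} {s m : ℝ} (hsj : s ≤ kap j) (hm0 : 0 ≤ m)
    (hs : ∀ i < j, (kap i : ℝ) + eps i ≤ s - m) (hsm : m ≤ s)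
    (I : Finset ℝ≥0) (hI : ∀ u ∈ I, (u : ℝ) ≤ m) (ω : Ω) :
    I.restrict (th B C (ω, s)) = I.restrict (fun u : ℝ≥0 => YY B C (-s + u) ω - YY B C (-s) ω) := by
  funext u
  have hu := hI u.1 u.2
  have hu0 : (0 : ℝ) ≤ u.1 := u.1.2
  simp only [Finset.restrict, th, XX, YY]
  have e2 : -(-s + (u.1 : ℝ)) = s - u.1 := by ring
  have h1 : (-s + (u.1 : ℝ)).toNNReal = 0 := by
    rw [Real.toNNReal_eq_zero]; linarith
  have h2 : (-s).toNNReal = 0 := by
    rw [Real.toNNReal_eq_zero]; linarith
  have h3 : (s - (u.1 : ℝ)).toNNReal ≤ kap j := by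
    rw [Real.toNNReal_le_iff_le_coe]; linarith
  have h4 : s.toNNReal ≤ kap j := by
    rw [Real.toNNReal_le_iff_le_coe]; linarith
  have h5 : ∀ i < j, kap i + eps i ≤ (s - (u.1 : ℝ)).toNNReal := by
    intro i hi
    rw [← NNReal.coe_le_coe, Real.coe_toNNReal _ (by linarith)]
    push_cast
    linarith [hs i hi]
  have h6 : ∀ i < j, kap i + eps i ≤ s.toNNReal := by
    intro i hi
    rw [← NNReal.coe_le_coe, Real.coe_toNNReal _ (by linarith)]
    push_cast
    linarith [hs i hi]
  rw [e2, neg_neg, h1, h2, Psi_eq h3, Psi_eq h4, PsiN_after _ h5, PsiN_after _ h6]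
  ring

theorem local_one {P : Measure Ω} [IsProbabilityMeasure P]
    (hBm : ∀ t, Measurable (B t)) (hCm : ∀ t, Measurable (C t))
    (hB : IsPreBrownianReal B P) (hC : IsPreBrownianReal C P)
    (hi : IndepFun (fun ω t => B t ω) (fun ω t => C t ω) P)
    {W : Measure (ℝ≥0 → ℝ)} (hW : IsW W)
    {j : ℕ} {s m : ℝ} (hsj : s ≤ kap j) (hm0 : 0 ≤ m)
    (hs : ∀ i < j, (kap i : ℝ) + eps i ≤ s - m) (hsm : m ≤ s)
    (I : Finset ℝ≥0) (hI : ∀ u ∈ I, (u : ℝ) ≤ m) (S : Set (I → ℝ)) (hS : MeasurableSet S) :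
    P {ω | th B C (ω, s) ∈ cylinder I S} = W (cylinder I S) := by
  have hcyl : MeasurableSet (cylinder I S) := MeasurableSet.cylinder (α := fun _ => ℝ) I hS
  have hm : ∀ u : ℝ≥0, Measurable (fun ω => YY B C (-s + u) ω - YY B C (-s) ω) := fun u =>
    (measurable_YY hBm hCm _).sub (measurable_YY hBm hCm _)
  rw [← (isPreBrownianReal_iff hW hm).1 ((isTS_YY hB hC hi).fwd (-s)),
    Measure.map_apply (measurable_pi_lambda _ hm) hcyl]
  congr 1
  ext ω
  simp only [mem_ofPred_eq, mem_preimage, mem_cylinder]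
  rw [th_local hsj hm0 hs hsm I hI ω]

theorem local_two {P : Measure Ω} [IsProbabilityMeasure P]
    (hBm : ∀ t, Measurable (B t)) (hCm : ∀ t, Measurable (C t))
    (hB : IsPreBrownianReal B P) (hC : IsPreBrownianReal C P)
    (hi : IndepFun (fun ω t => B t ω) (fun ω t => C t ω) P)
    {W : Measure (ℝ≥0 → ℝ)} (hW : IsW W)
    {j : ℕ} {s t m : ℝ} (hsj : s ≤ kap j) (htj : t ≤ kap j) (hm0 : 0 ≤ m)
    (hs : ∀ i < j, (kap i : ℝ) + eps i ≤ s - m) (hsm : m ≤ s)
    (ht : ∀ i < j, (kap i : ℝ) + eps i ≤ t - m) (htm : m ≤ t) (hst : m < |s - t|)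
    (I : Finset ℝ≥0) (hI : ∀ u ∈ I, (u : ℝ) ≤ m) (S : Set (I → ℝ)) (hS : MeasurableSet S) :
    P {ω | th B C (ω, s) ∈ cylinder I S ∧ th B C (ω, t) ∈ cylinder I S} =
      W (cylinder I S) * W (cylinder I S) := by
  have h1 := local_one hBm hCm hB hC hi hW hsj hm0 hs hsm I hI S hS
  have h2 := local_one hBm hCm hB hC hi hW htj hm0 ht htm I hI S hS
  set a : Bool → ℝ := fun b => if b then s else t with ha
  have hind := (isTS_YY hB hC hi).iIndep (ι := Bool) (fun b => -(a b)) (fun b => -(a b) + m) (by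
    intro b c hbc
    have h3 : -s + m ≤ -t ∨ -t + m ≤ -s := by
      rcases le_abs.1 hst.le with h | h
      · exact Or.inl (by linarith)
      · exact Or.inr (by linarith)
    cases b <;> cases c <;> simp_all
    tauto)
  have hind2 := hind.indepFun (show true ≠ false by decide)
  have hmem : ∀ (b : Bool) (u : I), -(a b) + (u.1 : ℝ) ∈ Icc (-(a b)) (-(a b) + m) := by
    intro b u
    have := hI u.1 u.2
    have h0 : (0 : ℝ) ≤ u.1 := u.1.2
    exact ⟨by linarith, by linarith⟩
  have hE : ∀ b : Bool, MeasurableSet {x : Icc (-(a b)) (-(a b) + m) → ℝ |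
      (fun u : I => x ⟨-(a b) + u.1, hmem b u⟩) ∈ S} := by
    intro b
    exact (measurable_pi_lambda _ fun u => measurable_pi_apply _) hS
  have key := hind2.measure_inter_preimage_eq_mul _ _ (hE true) (hE false)
  have es : ∀ ω, ((fun u : I => YY B C (-s + u.1) ω - YY B C (-s) ω) ∈ S ↔
      th B C (ω, s) ∈ cylinder I S) := by
    intro ω
    rw [mem_cylinder, th_local hsj hm0 hs hsm I hI ω]
    rfl
  have et : ∀ ω, ((fun u : I => YY B C (-t + u.1) ω - YY B C (-t) ω) ∈ S ↔
      th B C (ω, t) ∈ cylinder I S) := by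
    intro ω
    rw [mem_cylinder, th_local htj hm0 ht htm I hI ω]
    rfl
  have e1 : {ω | th B C (ω, s) ∈ cylinder I S} = (fun ω => fun (r : Icc (-(a true)) (-(a true) + m)) =>
      YY B C r ω - YY B C (-(a true)) ω) ⁻¹' {x | (fun u : I => x ⟨-(a true) + u.1, hmem true u⟩) ∈ S} := by
    ext ω
    exact (es ω).symm
  have e2 : {ω | th B C (ω, t) ∈ cylinder I S} = (fun ω => fun (r : Icc (-(a false)) (-(a false) + m)) =>
      YY B C r ω - YY B C (-(a false)) ω) ⁻¹' {x | (fun u : I => x ⟨-(a false) + u.1, hmem false u⟩) ∈ S} := by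
    ext ω
    exact (et ω).symm
  rw [← e1, ← e2, h1, h2] at key
  exact key

end

theorem cs_sq {α : Type*} [MeasurableSpace α] (μ : Measure α) (f g : α → ℝ≥0∞)
    (hf : Measurable f) (hg : Measurable g) :
    (∫⁻ a, f a * g a ∂μ) ^ 2 ≤ (∫⁻ a, f a ^ 2 ∂μ) * ∫⁻ a, g a ^ 2 ∂μ := by
  have h := ENNReal.lintegral_mul_le_Lp_mul_Lq μ Real.HolderConjugate.two_two
    hf.aemeasurable hg.aemeasurable
  have h2 := pow_le_pow_left₀ (zero_le) h 2
  simp only [Pi.mul_apply] at h2
  refine h2.trans (le_of_eq ?_)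
  rw [mul_pow, ← ENNReal.rpow_natCast, ← ENNReal.rpow_natCast, ← ENNReal.rpow_mul,
    ← ENNReal.rpow_mul]
  norm_num

end Pool.Agent.R970.FB
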