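import Mathlib

set_option autoImplicit false

open scoped ENNReal NNReal Topology
open MeasureTheory ProbabilityTheory Set Filter

namespace Pool.Agent.R970.FB

variable {Ω F : Type*} [MeasurableSpace Ω] [MeasurableSpace F]

/-- One step: a partial plan realising `θ`-image `∧` target. -/
theorem step_exists (P' : Measure Ω) [IsFiniteMeasure P'] (W' : Measure F) [IsFiniteMeasure W']
    (ρ : Measure ℝ) [IsProbabilityMeasure ρ] (θ : Ω × ℝ → F) (hθ : Measurable θ) :
    ∃ π : Measure (Ω × ℝ), π ≤ P'.prod ρ ∧ π.map θ = ((P'.prod ρ).map θ) ⊓ W' := by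
  set A := (P'.prod ρ).map θ with hA
  have hAf : IsFiniteMeasure A := Measure.isFiniteMeasure_map _ _
  set γ := A ⊓ W' with hγ
  have hγA : γ ≤ A := inf_le_left
  have hγf : IsFiniteMeasure γ := isFiniteMeasure_of_le A hγA
  have hac : γ ≪ A := Measure.absolutelyContinuous_of_le hγA
  refine ⟨(P'.prod ρ).withDensity (fun p => γ.rnDeriv A (θ p)), ?_, ?_⟩
  · have h1 : γ.rnDeriv A ≤ᵐ[A] 1 := Measure.rnDeriv_le_one_of_le hγA
    have h2 : ∀ᵐ p ∂(P'.prod ρ), γ.rnDeriv A (θ p) ≤ 1 := by
      have := ae_of_ae_map hθ.aemeasurable h1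
      exact this
    calc (P'.prod ρ).withDensity (fun p => γ.rnDeriv A (θ p))
        ≤ (P'.prod ρ).withDensity 1 := withDensity_mono h2
      _ = P'.prod ρ := withDensity_one
  · refine Measure.ext fun s hs => ?_
    rw [Measure.map_apply hθ hs, withDensity_apply _ (hθ hs)]
    have h3 : ∫⁻ y in s, γ.rnDeriv A y ∂A = ∫⁻ a in θ ⁻¹' s, γ.rnDeriv A (θ a) ∂(P'.prod ρ) :=
      setLIntegral_map hs (Measure.measurable_rnDeriv _ _) hθ
    rw [← h3, ← withDensity_apply _ hs, Measure.withDensity_rnDeriv_eq _ _ hac]

/-- Exhaustion. -/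
theorem exists_plan (P : Measure Ω) [IsProbabilityMeasure P] (W : Measure F)
    [IsProbabilityMeasure W]
    (ρ : Measure ℝ) [IsProbabilityMeasure ρ] (θ : Ω × ℝ → F) (hθ : Measurable θ)
    (H : ∀ B, MeasurableSet B → W B ≠ 0 → ∀ᵐ ω ∂P, ρ {s | θ (ω, s) ∈ B} ≠ 0) :
    ∃ π : Measure (Ω × ℝ), π.map Prod.fst = P ∧ π.map θ = W ∧ π ≪ P.prod ρ := by
  choose! g hg1 hg2 using fun (s : {P' : Measure Ω // IsFiniteMeasure P'} ×
      {W' : Measure F // IsFiniteMeasure W'}) => by
    have := s.1.2
    have := s.2.2
    exact step_exists s.1.1 s.2.1 ρ θ hθ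
  have hgf : ∀ s, IsFiniteMeasure (g s) := by
    intro s
    have := s.1.2
    exact isFiniteMeasure_of_le _ (hg1 s)
  let nxt : ({P' : Measure Ω // IsFiniteMeasure P'} × {W' : Measure F // IsFiniteMeasure W'}) →
      ({P' : Measure Ω // IsFiniteMeasure P'} × {W' : Measure F // IsFiniteMeasure W'}) :=
    fun s => (⟨s.1.1 - (g s).map Prod.fst, by
        have := s.1.2
        exact isFiniteMeasure_of_le _ Measure.sub_le⟩,
      ⟨s.2.1 - (g s).map θ, by
        have := s.2.2
        exact isFiniteMeasure_of_le _ Measure.sub_le⟩)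
  let st : ℕ → ({P' : Measure Ω // IsFiniteMeasure P'} × {W' : Measure F // IsFiniteMeasure W'}) :=
    fun n => Nat.rec (⟨P, inferInstance⟩, ⟨W, inferInstance⟩) (fun _ s => nxt s) n
  have hst0 : st 0 = (⟨P, inferInstance⟩, ⟨W, inferInstance⟩) := rfl
  have hst1 : ∀ n, st (n + 1) = nxt (st n) := fun n => rfl
  -- the plans
  let π : ℕ → Measure (Ω × ℝ) := fun n => g (st n)
  have hfst_le : ∀ s : ({P' : Measure Ω // IsFiniteMeasure P'} ×
      {W' : Measure F // IsFiniteMeasure W'}), (g s).map Prod.fst ≤ s.1.1 := by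
    intro s
    have := s.1.2
    calc (g s).map Prod.fst ≤ (s.1.1.prod ρ).map Prod.fst :=
          Measure.map_mono (hg1 s) measurable_fst
      _ = s.1.1 := by simp [Measure.map_fst_prod]
  have hsnd_le : ∀ s : ({P' : Measure Ω // IsFiniteMeasure P'} ×
      {W' : Measure F // IsFiniteMeasure W'}), (g s).map θ ≤ s.2.1 := by
    intro s
    rw [hg2 s]
    exact inf_le_right
  have hP1 : ∀ n, (st (n + 1)).1.1 + (π n).map Prod.fst = (st n).1.1 := by
    intro n
    have := hgf (st n)
    have : IsFiniteMeasure ((g (st n)).map Prod.fst) := Measure.isFiniteMeasure_map _ _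
    rw [hst1]
    exact Measure.sub_add_cancel_of_le (hfst_le (st n))
  have hW1 : ∀ n, (st (n + 1)).2.1 + (π n).map θ = (st n).2.1 := by
    intro n
    have := hgf (st n)
    have : IsFiniteMeasure ((g (st n)).map θ) := Measure.isFiniteMeasure_map _ _
    rw [hst1]
    exact Measure.sub_add_cancel_of_le (hsnd_le (st n))
  have hPs : ∀ n, (st n).1.1 + ∑ k ∈ Finset.range n, (π k).map Prod.fst = P := by
    intro n
    induction n with
    | zero => simp [hst0]
    | succ n ih =>
      rw [Finset.sum_range_succ, add_comm (∑ k ∈ Finset.range n, _), ← add_assoc, hP1, ih]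
  have hWs : ∀ n, (st n).2.1 + ∑ k ∈ Finset.range n, (π k).map θ = W := by
    intro n
    induction n with
    | zero => simp [hst0]
    | succ n ih =>
      rw [Finset.sum_range_succ, add_comm (∑ k ∈ Finset.range n, _), ← add_assoc, hW1, ih]
  have hmass1 : ∀ n, (π n).map Prod.fst univ = (π n) univ := by
    intro n
    rw [Measure.map_apply measurable_fst MeasurableSet.univ, preimage_univ]
  have hmass2 : ∀ n, (π n).map θ univ = (π n) univ := by
    intro n
    rw [Measure.map_apply hθ MeasurableSet.univ, preimage_univ]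
  set Pt : Measure (Ω × ℝ) := Measure.sum π with hPt
  have hT1 : Pt.map Prod.fst = Measure.sum (fun n => (π n).map Prod.fst) :=
    Measure.map_sum measurable_fst.aemeasurable
  have hT2 : Pt.map θ = Measure.sum (fun n => (π n).map θ) :=
    Measure.map_sum hθ.aemeasurable
  have hle1 : Pt.map Prod.fst ≤ P := by
    rw [hT1]
    refine Measure.le_iff.2 fun s hs => ?_
    rw [Measure.sum_apply _ hs]
    refine ENNReal.tsum_le_of_sum_range_le fun n => ?_
    have h := congrArg (fun m : Measure Ω => m s) (hPs n)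
    simp only [Measure.add_apply, Measure.finsetSum_apply] at h
    rw [← h]
    exact le_add_self
  have hle2 : Pt.map θ ≤ W := by
    rw [hT2]
    refine Measure.le_iff.2 fun s hs => ?_
    rw [Measure.sum_apply _ hs]
    refine ENNReal.tsum_le_of_sum_range_le fun n => ?_
    have h := congrArg (fun m : Measure F => m s) (hWs n)
    simp only [Measure.add_apply, Measure.finsetSum_apply] at h
    rw [← h]
    exact le_add_self
  have hf1 : IsFiniteMeasure (Pt.map Prod.fst) := isFiniteMeasure_of_le P hle1
  have hf2 : IsFiniteMeasure (Pt.map θ) := isFiniteMeasure_of_le W hle2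
  set Pi' := P - Pt.map Prod.fst with hPi
  set Wi := W - Pt.map θ with hWi
  have hPiadd : Pi' + Pt.map Prod.fst = P := Measure.sub_add_cancel_of_le hle1
  have hWiadd : Wi + Pt.map θ = W := Measure.sub_add_cancel_of_le hle2
  have hPif : IsFiniteMeasure Pi' := isFiniteMeasure_of_le P Measure.sub_le
  have hWif : IsFiniteMeasure Wi := isFiniteMeasure_of_le W Measure.sub_le
  have hPile : ∀ n, Pi' ≤ (st n).1.1 := by
    intro n
    refine Measure.sub_le_of_le_add ?_
    conv_lhs => rw [← hPs n]
    refine Measure.le_iff.2 fun s hs => ?_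
    simp only [Measure.add_apply, Measure.finsetSum_apply]
    refine add_le_add le_rfl ?_
    rw [hT1, Measure.sum_apply _ hs]
    exact ENNReal.sum_le_tsum _
  have hWile : ∀ n, Wi ≤ (st n).2.1 := by
    intro n
    refine Measure.sub_le_of_le_add ?_
    conv_lhs => rw [← hWs n]
    refine Measure.le_iff.2 fun s hs => ?_
    simp only [Measure.add_apply, Measure.finsetSum_apply]
    refine add_le_add le_rfl ?_
    rw [hT2, Measure.sum_apply _ hs]
    exact ENNReal.sum_le_tsum _
  have hmass : Pi' univ = Wi univ := by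
    have h1 := congrArg (fun m : Measure Ω => m univ) hPiadd
    have h2 := congrArg (fun m : Measure F => m univ) hWiadd
    simp only [Measure.add_apply, measure_univ] at h1 h2
    have h3 : Pt.map Prod.fst univ = Pt.map θ univ := by
      rw [Measure.map_apply measurable_fst MeasurableSet.univ,
        Measure.map_apply hθ MeasurableSet.univ, preimage_univ, preimage_univ]
    rw [h3] at h1
    have h4 : Pt.map θ univ ≠ ∞ := measure_ne_top _ _
    exact (ENNReal.add_left_inj h4).1 (h1.trans h2.symm)
  -- the residual measures are mutually singular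
  have hsing : ((Pi'.prod ρ).map θ) ⊓ Wi = 0 := by
    have hle : ∀ n, ((Pi'.prod ρ).map θ) ⊓ Wi ≤ (π n).map θ := by
      intro n
      show _ ≤ (g (st n)).map θ
      rw [hg2 (st n)]
      have := (st n).1.2
      refine inf_le_inf ?_ (hWile n)
      refine Measure.map_mono ?_ hθ
      exact Measure.prod_mono (hPile n) le_rfl
    have hsum : ∑' n, (π n).map θ univ ≠ ∞ := by
      have : Pt.map θ univ = ∑' n, (π n).map θ univ := by
        rw [hT2, Measure.sum_apply _ MeasurableSet.univ]
      rw [← this]
      exact measure_ne_top _ _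
    have ht : Tendsto (fun n => (π n).map θ univ) atTop (𝓝 0) :=
      ENNReal.tendsto_atTop_zero_of_tsum_ne_top hsum
    have h0 : (((Pi'.prod ρ).map θ) ⊓ Wi) univ = 0 := by
      refine le_antisymm (ge_of_tendsto' ht fun n => ?_) bot_le
      exact hle n univ
    exact Measure.measure_univ_eq_zero.1 h0
  have hms : ((Pi'.prod ρ).map θ) ⟂ₘ Wi := by
    have : IsFiniteMeasure ((Pi'.prod ρ).map θ) := Measure.isFiniteMeasure_map _ _
    exact Measure.mutuallySingular_iff_disjoint.2 (disjoint_iff.2 hsing)
  obtain ⟨B, hB, hB1, hB2⟩ := hms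
  have hPi0 : Pi' = 0 := by
    by_contra hne
    have hWne : Wi univ ≠ 0 := by
      rw [← hmass]
      exact fun h => hne (Measure.measure_univ_eq_zero.1 h)
    have hWB : W B ≠ 0 := by
      intro h
      have h1 : Wi B = 0 := le_antisymm ((Measure.sub_le B).trans h.le) bot_le
      exact hWne (by rw [← union_compl_self B]; exact measure_union_null h1 hB2)
    have h1 := H B hB hWB
    have hac : Pi' ≪ P := Measure.absolutelyContinuous_of_le Measure.sub_le
    have h2 := hac.ae_le h1
    rw [Measure.map_apply hθ hB, Measure.prod_apply (hθ hB)] at hB1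
    have h3 := (lintegral_eq_zero_iff (measurable_measure_prodMk_left (hθ hB))).1 hB1
    have h4 : ∀ᵐ ω ∂Pi', False := by
      filter_upwards [h2, h3] with ω h5 h6
      exact h5 h6
    refine hne ?_
    have := ae_iff.1 h4
    simpa using this
  have hWi0 : Wi = 0 := by
    refine Measure.measure_univ_eq_zero.1 ?_
    rw [← hmass, hPi0]
    simp
  refine ⟨Pt, ?_, ?_, ?_⟩
  · rw [hPi0, zero_add] at hPiadd
    exact hPiadd
  · rw [hWi0, zero_add] at hWiadd
    exact hWiadd
  · rw [hPt]
    refine Measure.absolutelyContinuous_sum_left fun n => ?_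
    refine (Measure.absolutelyContinuous_of_le (hg1 (st n))).trans ?_
    have := (st n).1.2
    refine Measure.absolutelyContinuous_of_le (Measure.prod_mono ?_ le_rfl)
    have h := hPs n
    refine Measure.le_iff.2 fun s _ => ?_
    rw [← h]
    simp only [Measure.add_apply]
    exact le_self_add

theorem exists_time (P : Measure Ω)
    [IsProbabilityMeasure P] (W : Measure F) [IsProbabilityMeasure W]
    (ρ : Measure ℝ) [IsProbabilityMeasure ρ] (θ : Ω × ℝ → F) (hθ : Measurable θ)
    (H : ∀ B, MeasurableSet B → W B ≠ 0 → ∀ᵐ ω ∂P, ρ {s | θ (ω, s) ∈ B} ≠ 0) :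
    ∃ h : Ω × unitInterval → ℝ, Measurable h ∧
      (P.prod volume).map (fun p => θ (p.1, h p)) = W ∧
      ∀ D, MeasurableSet D → ρ D = 0 → ∀ᵐ p ∂(P.prod volume), h p ∉ D := by
  obtain ⟨π, hπ1, hπ2, hπ3⟩ := exists_plan P W ρ θ hθ H
  have hfin : IsFiniteMeasure π := by
    constructor
    have : π univ = P univ := by
      rw [← hπ1, Measure.map_apply measurable_fst MeasurableSet.univ, preimage_univ]
    rw [this, measure_univ]
    exact ENNReal.one_lt_top
  obtain ⟨f, hf1, hf2⟩ := Kernel.exists_measurable_map_eq_unitInterval π.condKernel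
  have hdis : P ⊗ₘ π.condKernel = π := by
    have := π.disintegrate π.condKernel
    rwa [Measure.fst, hπ1] at this
  have hmap : (P.prod (volume : Measure unitInterval)).map
      (fun p => (p.1, Function.uncurry f p)) = π := by
    rw [← hdis]
    refine Measure.ext fun s hs => ?_
    have hm : Measurable (fun p : Ω × unitInterval => (p.1, Function.uncurry f p)) :=
      measurable_fst.prodMk hf1
    rw [Measure.map_apply hm hs, Measure.prod_apply (hm hs), Measure.compProd_apply hs]
    refine lintegral_congr fun ω => ?_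
    have hfω : Measurable (f ω) := hf1.comp measurable_prodMk_left
    rw [← hf2 ω, Measure.map_apply hfω (measurable_prodMk_left hs)]
    rfl
  have hm : Measurable (fun p : Ω × unitInterval => (p.1, Function.uncurry f p)) :=
    measurable_fst.prodMk hf1
  refine ⟨Function.uncurry f, hf1, ?_, ?_⟩
  · rw [← hπ2, ← hmap, Measure.map_map hθ hm]
    rfl
  · intro D hD hρD
    have h1 : π (Prod.snd ⁻¹' D) = 0 := by
      refine hπ3 ?_
      have : (Prod.snd ⁻¹' D : Set (Ω × ℝ)) = univ ×ˢ D := by ext; simp
      rw [this, Measure.prod_prod, hρD, mul_zero]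
    rw [← hmap, Measure.map_apply hm (measurable_snd hD)] at h1
    rw [ae_iff]
    convert! h1 using 2
    ext p
    simp

end Pool.Agent.R970.FB
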