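import Pool.Agent.R970.FB.TS
import Pool.Agent.R970.FB.D

set_option autoImplicit false

open scoped ENNReal NNReal Topology
open MeasureTheory ProbabilityTheory Set Filter
open ProbabilityTheory.BrownianReal

/-! # Piece NP: no exceptional points for two-sided Brownian motion -/

namespace Pool.Agent.R970.FB.NP

variable {Ω : Type*} [MeasurableSpace Ω]

/-- Some increment of length one starting in `[0, η]` is nonnegative (at rational times). -/
def G (η : ℚ≥0) : Set (ℚ≥0 → ℝ) :=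
  {b | ∀ n : ℕ, ∃ q : ℚ≥0, q ≤ η ∧ -(1 / ((n : ℝ) + 1)) < b (q + 1) - b q}

theorem measurableSet_G (η : ℚ≥0) : MeasurableSet (G η) := by
  have : G η = ⋂ n : ℕ, ⋃ q : ℚ≥0, {b : ℚ≥0 → ℝ | q ≤ η ∧ -(1 / ((n : ℝ) + 1)) < b (q + 1) - b q} := by
    ext b; simp [G]
  rw [this]
  refine MeasurableSet.iInter fun n => MeasurableSet.iUnion fun q => ?_
  have h1 : MeasurableSet {b : ℚ≥0 → ℝ | -(1 / ((n : ℝ) + 1)) < b (q + 1) - b q} :=
    measurableSet_lt measurable_const (by fun_prop)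
  exact (MeasurableSet.const _).inter h1

theorem G_mono {η η' : ℚ≥0} (h : η ≤ η') : G η ⊆ G η' := by
  intro b hb n
  obtain ⟨q, h1, h2⟩ := hb n
  exact ⟨q, h1.trans h, h2⟩

theorem law_eq {P : Measure Ω} {B B' : ℝ≥0 → Ω → ℝ} (hB : IsPreBrownianReal B P)
    (hB' : IsPreBrownianReal B' P) :
    P.map (fun ω (q : ℚ≥0) => B (q : ℝ≥0) ω) = P.map (fun ω (q : ℚ≥0) => B' (q : ℝ≥0) ω) := by
  classical
  have hP := hB.isGaussianProcess.isProbabilityMeasure
  have hm : ∀ (C : ℝ≥0 → Ω → ℝ), IsPreBrownianReal C P →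
      AEMeasurable (fun ω (q : ℚ≥0) => C (q : ℝ≥0) ω) P := fun C hC =>
    aemeasurable_pi_lambda _ fun q => hC.aemeasurable _
  have fin : ∀ (C : ℝ≥0 → Ω → ℝ), IsPreBrownianReal C P → ∀ I : Finset ℚ≥0,
      P.map (fun ω => I.restrict (fun q : ℚ≥0 => C (q : ℝ≥0) ω))
        = (projectiveFamily (I.image (fun q : ℚ≥0 => (q : ℝ≥0)))).map
          (fun x (q : I) => x ⟨((q : ℚ≥0) : ℝ≥0), Finset.mem_image_of_mem _ q.2⟩) := by
    intro C hC I
    have h1 := hC.hasLaw (I.image (fun q : ℚ≥0 => (q : ℝ≥0)))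
    rw [← h1.map_eq, AEMeasurable.map_map_of_aemeasurable]
    · rfl
    · apply Measurable.aemeasurable
      fun_prop
    · exact h1.aemeasurable
  rw [map_eq_iff_forall_finset_map_restrict_eq (X := fun (q : ℚ≥0) ω => B (q : ℝ≥0) ω)
    (Y := fun (q : ℚ≥0) ω => B' (q : ℝ≥0) ω) (hm B hB) (hm B' hB')]
  intro I
  rw [fin B hB I, fin B' hB' I]

theorem mem_G {b : ℝ≥0 → ℝ} (hb : Continuous b) {η : ℚ≥0} {u : ℝ≥0} (hu : u ≤ (η : ℝ≥0))
    (h : 0 ≤ b (u + 1) - b u) : (fun q : ℚ≥0 => b q) ∈ G η := by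
  intro n
  have hn : (0 : ℝ) < 1 / ((n : ℝ) + 1) := by positivity
  rcases hu.eq_or_lt with rfl | hlt
  · refine ⟨η, le_rfl, ?_⟩
    push_cast
    linarith
  · have hf : Continuous fun x : ℝ≥0 => b (x + 1) - b x := by fun_prop
    have ho : IsOpen {x : ℝ≥0 | -(1 / ((n : ℝ) + 1)) < b (x + 1) - b x} :=
      isOpen_lt continuous_const hf
    have hmem : u ∈ {x : ℝ≥0 | -(1 / ((n : ℝ) + 1)) < b (x + 1) - b x} := by
      simp only [mem_setOf_eq]; linarith
    obtain ⟨δ, hδ, hball⟩ := Metric.isOpen_iff.1 ho u hmem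
    have hlt' : (u : ℝ) < ((η : ℝ≥0) : ℝ) := by exact_mod_cast hlt
    obtain ⟨r, hr1, hr2⟩ := exists_rat_btwn
      (show (u : ℝ) < min ((u : ℝ) + δ) ((η : ℝ≥0) : ℝ) from lt_min (by linarith) hlt')
    have hu0 : (0 : ℝ) ≤ u := u.2
    have hr0 : (0 : ℚ) ≤ r := by
      have : (0 : ℝ) ≤ r := hu0.trans hr1.le
      exact_mod_cast this
    obtain ⟨q, rfl⟩ : ∃ q : ℚ≥0, (q : ℚ) = r := ⟨⟨r, hr0⟩, rfl⟩
    have hcast : (((q : ℚ≥0) : ℝ≥0) : ℝ) = ((q : ℚ) : ℝ) := by push_cast; rfl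
    refine ⟨q, ?_, ?_⟩
    · have h2 : ((q : ℝ≥0) : ℝ) < ((η : ℝ≥0) : ℝ) := by
        rw [hcast]; exact hr2.trans_le (min_le_right _ _)
      have h3 : (q : ℝ≥0) < (η : ℝ≥0) := by exact_mod_cast h2
      have h4 : q < η := by exact_mod_cast h3
      exact h4.le
    · have : (q : ℝ≥0) ∈ Metric.ball u δ := by
        rw [Metric.mem_ball, NNReal.dist_eq, hcast, abs_lt]
        have := hr2.trans_le (min_le_left _ _)
        constructor <;> linarith
      have := hball this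
      simp only [mem_setOf_eq] at this
      push_cast
      exact this

theorem lim_G {b : ℝ≥0 → ℝ} (hb : Continuous b)
    (h : ∀ k : ℕ, (fun q : ℚ≥0 => b q) ∈ G (1 / (k + 1))) : 0 ≤ b 1 - b 0 := by
  have h' : ∀ k : ℕ, ∃ q : ℚ≥0, q ≤ 1 / (k + 1) ∧
      -(1 / ((k : ℝ) + 1)) < b ((q + 1 : ℚ≥0) : ℝ≥0) - b q := fun k => h k k
  choose q hq1 hq2 using h'
  have hq0 : Tendsto (fun k => ((q k : ℚ≥0) : ℝ≥0)) atTop (𝓝 0) := by
    have h1 : Tendsto (fun k : ℕ => (1 / ((k : ℝ≥0) + 1))) atTop (𝓝 0) :=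
      tendsto_one_div_add_atTop_nhds_zero_nat
    refine tendsto_of_tendsto_of_tendsto_of_le_of_le tendsto_const_nhds h1
      (fun k => zero_le) (fun k => ?_)
    have := hq1 k
    have h2 : ((q k : ℚ≥0) : ℝ≥0) ≤ ((1 / (k + 1) : ℚ≥0) : ℝ≥0) := by exact_mod_cast this
    simpa using h2
  have hf : Continuous fun x : ℝ≥0 => b (x + 1) - b x := by fun_prop
  have h1 : Tendsto (fun k => b ((q k : ℝ≥0) + 1) - b (q k : ℝ≥0)) atTop (𝓝 (b (0 + 1) - b 0)) :=
    (hf.tendsto 0).comp hq0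
  have h2 : Tendsto (fun k : ℕ => -(1 / ((k : ℝ) + 1))) atTop (𝓝 (-0)) :=
    tendsto_one_div_add_atTop_nhds_zero_nat.neg
  have h3 := le_of_tendsto_of_tendsto' h2 h1 (fun k => by
    have := (hq2 k).le
    push_cast at this
    exact this)
  simpa using h3

theorem exists_eta {P : Measure Ω} {B : ℝ≥0 → Ω → ℝ} (hB : IsPreBrownianReal B P)
    (hc : ∀ᵐ ω ∂P, Continuous (B · ω)) :
    ∃ η : ℚ≥0, 0 < η ∧ η ≤ 1 ∧ P.map (fun ω (q : ℚ≥0) => B (q : ℝ≥0) ω) (G η) ≤ 3 / 5 := by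
  have hP := hB.isGaussianProcess.isProbabilityMeasure
  have hm : AEMeasurable (fun ω (q : ℚ≥0) => B (q : ℝ≥0) ω) P :=
    aemeasurable_pi_lambda _ fun q => hB.aemeasurable _
  have hPm : IsProbabilityMeasure (P.map (fun ω (q : ℚ≥0) => B (q : ℝ≥0) ω)) :=
    Measure.isProbabilityMeasure_map hm
  have hlim := tendsto_measure_iInter_atTop
    (μ := P.map (fun ω (q : ℚ≥0) => B (q : ℝ≥0) ω)) (s := fun k : ℕ => G (1 / (k + 1)))
    (fun k => (measurableSet_G _).nullMeasurableSet)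
    (by
      intro k l hkl
      apply G_mono
      apply one_div_le_one_div_of_le (by positivity)
      have : (k : ℚ≥0) ≤ l := by exact_mod_cast hkl
      gcongr)
    ⟨0, measure_ne_top _ _⟩
  have hle : P.map (fun ω (q : ℚ≥0) => B (q : ℝ≥0) ω) (⋂ k : ℕ, G (1 / (k + 1))) < 3 / 5 := by
    rw [Measure.map_apply_of_aemeasurable hm (MeasurableSet.iInter fun k => measurableSet_G _)]
    have h1 : P ((fun ω (q : ℚ≥0) => B (q : ℝ≥0) ω) ⁻¹' ⋂ k : ℕ, G (1 / (k + 1)))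
        ≤ P ((B 1 - B 0) ⁻¹' {x | x ∈ (univ : Set ℝ) ∧ 0 ≤ x}) := by
      apply measure_mono_ae
      filter_upwards [hc] with ω hω hin
      have hin' : ∀ k : ℕ, (fun q : ℚ≥0 => B (q : ℝ≥0) ω) ∈ G (1 / (k + 1)) := by
        intro k
        exact mem_iInter.1 hin k
      exact ⟨trivial, lim_G hω hin'⟩
    obtain ⟨v, hv, hl⟩ : ∃ v : ℝ≥0, v ≠ 0 ∧ HasLaw (B 1 - B 0) (gaussianReal 0 v) P := by
      refine ⟨nndist (1 : ℝ≥0).1 (0 : ℝ≥0).1, ?_, hB.hasLaw_sub 1 0⟩
      rw [Ne, nndist_eq_zero]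
      exact one_ne_zero
    have h2 : P ((B 1 - B 0) ⁻¹' {x | x ∈ (univ : Set ℝ) ∧ 0 ≤ x})
        = gaussianReal 0 v {x | x ∈ (univ : Set ℝ) ∧ 0 ≤ x} := by
      rw [← hl.map_eq, Measure.map_apply_of_aemeasurable hl.aemeasurable]
      exact MeasurableSet.univ.inter measurableSet_Ici
    have h3 := gauss_abs hv MeasurableSet.univ
    have h4 : gaussianReal 0 v {x : ℝ | |x| ∈ (univ : Set ℝ)} = 1 := by
      simp
    rw [h4] at h3
    refine (h1.trans_eq h2).trans_lt ?_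
    rw [ENNReal.lt_div_iff_mul_lt (by norm_num) (by norm_num)]
    set x := gaussianReal 0 v {x | x ∈ (univ : Set ℝ) ∧ 0 ≤ x}
    have hx : x * 2 = 1 := by rw [mul_comm, ← h3]
    calc x * 5 = x * 2 * (5 / 2) := by
          rw [mul_assoc, ENNReal.mul_div_cancel (by norm_num) (by norm_num)]
      _ = 5 / 2 := by rw [hx, one_mul]
      _ < 3 := by
          rw [ENNReal.div_lt_iff (by norm_num) (by norm_num)]
          norm_num
  obtain ⟨k, hk⟩ := ((hlim.eventually_lt_const hle)).exists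
  refine ⟨1 / (k + 1), by positivity, ?_, hk.le⟩
  rw [div_le_one (by positivity)]
  exact le_add_of_nonneg_left zero_le

theorem G_congr {η : ℚ≥0} {b b' : ℚ≥0 → ℝ} (h : ∀ q ≤ η + 1, b q = b' q) (hb : b ∈ G η) :
    b' ∈ G η := by
  intro n
  obtain ⟨q, h1, h2⟩ := hb n
  refine ⟨q, h1, ?_⟩
  rwa [← h q (h1.trans (by simp)), ← h (q + 1) (by gcongr)]

/-- The rescaled process started at time `a`, with sign. -/
noncomputable def Bp (Y : ℝ → Ω → ℝ) (σ a : ℝ) (e t : ℝ≥0) (ω : Ω) : ℝ :=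
  σ * ((√(e : ℝ))⁻¹ * (Y (a + (e * t : ℝ≥0)) ω - Y a ω))

theorem Bp_pre {P : Measure Ω} {Y : ℝ → Ω → ℝ} (hY : IsTS Y P) {σ : ℝ} (hσ : σ = 1 ∨ σ = -1)
    (a : ℝ) {e : ℝ≥0} (he : e ≠ 0) : IsPreBrownianReal (Bp Y σ a e) P := by
  have h := (hY.fwd a).smul he
  rcases hσ with rfl | rfl
  · refine h.congr fun t => Eventually.of_forall fun ω => ?_
    unfold Bp
    simp
  · refine h.neg.congr fun t => Eventually.of_forall fun ω => ?_
    unfold Bp
    simp

theorem Bp_cont {Y : ℝ → Ω → ℝ} {ω : Ω} (h : Continuous (Y · ω)) (σ a : ℝ) (e : ℝ≥0) :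
    Continuous (Bp Y σ a e · ω) := by
  unfold Bp
  fun_prop

/-- Extension by `0`. -/
noncomputable def extf (u v : ℝ) (g : Icc u v → ℝ) (t : ℝ) : ℝ :=
  open Classical in if h : t ∈ Icc u v then g ⟨t, h⟩ else 0

theorem measurable_extf (u v t : ℝ) : Measurable fun g : Icc u v → ℝ => extf u v g t := by
  unfold extf
  by_cases h : t ∈ Icc u v
  · simp only [h, dif_pos]
    exact measurable_pi_apply _
  · simp only [h, dif_neg, not_false_eq_true]
    exact measurable_const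

/-- The event in terms of the path over the window. -/
def St (u v σ : ℝ) (e : ℝ≥0) (η : ℚ≥0) : Set (Icc u v → ℝ) :=
  {g | (fun q : ℚ≥0 => σ * ((√(e : ℝ))⁻¹ * extf u v g (u + (e * (q : ℝ≥0) : ℝ≥0)))) ∈ G η}

theorem measurableSet_St (u v σ : ℝ) (e : ℝ≥0) (η : ℚ≥0) : MeasurableSet (St u v σ e η) := by
  have hm : Measurable fun (g : Icc u v → ℝ) (q : ℚ≥0) =>
      σ * ((√(e : ℝ))⁻¹ * extf u v g (u + (e * (q : ℝ≥0) : ℝ≥0))) := by
    rw [measurable_pi_iff]
    intro q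
    exact ((measurable_extf u v _).const_mul _).const_mul _
  exact hm (measurableSet_G η)

theorem preim_St (Y : ℝ → Ω → ℝ) (u v σ : ℝ) (e : ℝ≥0) (η : ℚ≥0)
    (hv : v = u + e * (((η + 1 : ℚ≥0) : ℝ≥0) : ℝ)) :
    (fun ω (t : Icc u v) => Y t ω - Y u ω) ⁻¹' St u v σ e η
      = {ω | (fun q : ℚ≥0 => Bp Y σ u e q ω) ∈ G η} := by
  have key : ∀ ω : Ω, ∀ q : ℚ≥0, q ≤ η + 1 →
      σ * ((√(e : ℝ))⁻¹ * extf u v (fun t : Icc u v => Y t ω - Y u ω)
        (u + (e * (q : ℝ≥0) : ℝ≥0))) = Bp Y σ u e q ω := by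
    intro ω q hq
    have hq' : ((q : ℝ≥0) : ℝ) ≤ (((η + 1 : ℚ≥0) : ℝ≥0) : ℝ) := by
      have : (q : ℝ≥0) ≤ ((η + 1 : ℚ≥0) : ℝ≥0) := by exact_mod_cast hq
      exact_mod_cast this
    have hmem : u + ((e * (q : ℝ≥0) : ℝ≥0) : ℝ) ∈ Icc u v := by
      constructor
      · have : (0 : ℝ) ≤ ((e * (q : ℝ≥0) : ℝ≥0) : ℝ) := NNReal.coe_nonneg _
        linarith
      · rw [hv, NNReal.coe_mul]
        have : (0 : ℝ) ≤ e := e.2
        gcongr
    unfold extf Bp
    rw [dif_pos hmem]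
  ext ω
  simp only [mem_preimage, mem_setOf_eq]
  constructor
  · intro h
    exact G_congr (key ω) h
  · intro h
    exact G_congr (fun q hq => (key ω q hq).symm) h

theorem kap_two {i j : ℕ} (h : i < j) : (kap i : ℝ) + 2 ≤ kap j := by
  have h1 : (kap i : ℝ) + 2 ≤ kap (i + 1) := by
    unfold kap
    push_cast
    have : (1 : ℝ) ≤ 64 ^ (i + 1) := one_le_pow₀ (by norm_num)
    have e : (64 : ℝ) ^ (i + 1 + 1) = 64 ^ (i + 1) * 64 := by ring
    rw [e]
    linarith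
  have h2 : (kap (i + 1) : ℝ) ≤ kap j := by
    unfold kap
    push_cast
    exact pow_le_pow_right₀ (by norm_num) (by omega)
  linarith

theorem one_le_kap (i : ℕ) : (1 : ℝ) ≤ kap i := by
  unfold kap; push_cast
  exact one_le_pow₀ (by norm_num)

/-- sign -/
def sg (s : Bool) : ℝ := if s then 1 else -1

/-- left end points of the windows seen from `c` -/
noncomputable def bs (c : ℝ) {N : ℕ} (j : Bool × Fin N) : ℝ :=
  if j.1 then c + kap j.2 else c - kap j.2 - eps j.2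

theorem prob_le {P : Measure Ω} {Y : ℝ → Ω → ℝ} (hY : IsTS Y P) {η : ℚ≥0} (hη : η ≤ 1)
    (hG : ∀ B : ℝ≥0 → Ω → ℝ, IsPreBrownianReal B P →
      P.map (fun ω (q : ℚ≥0) => B (q : ℝ≥0) ω) (G η) ≤ 3 / 5) (c : ℝ) (N : ℕ) :
    P (⋂ j ∈ (Finset.univ : Finset (Bool × Fin N)),
      {ω | (fun q : ℚ≥0 => Bp Y (sg j.1) (bs c j) (eps j.2) q ω) ∈ G η}) ≤ (3 / 5) ^ (2 * N) := by
  have hη' : (((η + 1 : ℚ≥0) : ℝ≥0) : ℝ) ≤ 2 := by
    have h1 : η + 1 ≤ 2 := by
      calc η + 1 ≤ 1 + 1 := by gcongr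
        _ = 2 := by norm_num
    have : ((η + 1 : ℚ≥0) : ℝ≥0) ≤ ((2 : ℚ≥0) : ℝ≥0) := by exact_mod_cast h1
    have h2 : (((η + 1 : ℚ≥0) : ℝ≥0) : ℝ) ≤ (((2 : ℚ≥0) : ℝ≥0) : ℝ) := by exact_mod_cast this
    simpa using h2
  have hη1 : (((η + 1 : ℚ≥0) : ℝ≥0) : ℝ) = ((η : ℝ≥0) : ℝ) + 1 := by push_cast; ring
  have hη0 : (0 : ℝ) ≤ ((η : ℝ≥0) : ℝ) := NNReal.coe_nonneg _
  have hpre : ∀ j : Bool × Fin N,
      {ω | (fun q : ℚ≥0 => Bp Y (sg j.1) (bs c j) (eps j.2) q ω) ∈ G η}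
        = (fun ω (t : Icc (bs c j) (bs c j + eps j.2 * (((η + 1 : ℚ≥0) : ℝ≥0) : ℝ))) =>
            Y t ω - Y (bs c j) ω) ⁻¹'
          St (bs c j) (bs c j + eps j.2 * (((η + 1 : ℚ≥0) : ℝ≥0) : ℝ)) (sg j.1) (eps j.2) η :=
    fun j => (preim_St Y _ _ _ _ _ rfl).symm
  have hind := hY.iIndep (ι := Bool × Fin N) (fun j => bs c j)
    (fun j => bs c j + eps j.2 * (((η + 1 : ℚ≥0) : ℝ≥0) : ℝ)) (by
      have hE : ∀ i : ℕ, (eps i : ℝ) * (((η + 1 : ℚ≥0) : ℝ≥0) : ℝ) ≤ 2 := by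
        intro i
        have h1 : (eps i : ℝ) ≤ 1 := by exact_mod_cast eps_le_one i
        have h0 : (0 : ℝ) ≤ eps i := (eps i).2
        nlinarith
      have hE1 : ∀ i : ℕ, (eps i : ℝ) * (((η + 1 : ℚ≥0) : ℝ≥0) : ℝ) - eps i ≤ 1 := by
        intro i
        have h1 : (eps i : ℝ) ≤ 1 := by exact_mod_cast eps_le_one i
        have h0 : (0 : ℝ) ≤ eps i := (eps i).2
        rw [hη1] at hη' ⊢
        nlinarith
      have hE2 : ∀ i : ℕ, (eps i : ℝ) ≤ 1 := fun i => by exact_mod_cast eps_le_one i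
      rintro ⟨s, i⟩ ⟨s', i'⟩ hne
      cases s <;> cases s'
      · have hii : i ≠ i' := by rintro rfl; exact hne rfl
        rcases lt_or_gt_of_ne hii with h | h
        · right
          have := kap_two (show (i : ℕ) < i' from h)
          have h1 := hE1 i'
          have h2 := hE2 i
          simp only [bs, Bool.false_eq_true, if_false]
          linarith
        · left
          have := kap_two (show (i' : ℕ) < i from h)
          have h1 := hE1 i
          have h2 := hE2 i'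
          simp only [bs, Bool.false_eq_true, if_false]
          linarith
      · left
        have h1 := hE1 i
        have h2 := one_le_kap i
        have h3 := one_le_kap i'
        simp only [bs, Bool.false_eq_true, if_false, if_true]
        linarith
      · right
        have h1 := hE1 i'
        have h2 := one_le_kap i
        have h3 := one_le_kap i'
        simp only [bs, Bool.false_eq_true, if_false, if_true]
        linarith
      · have hii : i ≠ i' := by rintro rfl; exact hne rfl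
        rcases lt_or_gt_of_ne hii with h | h
        · left
          have := kap_two (show (i : ℕ) < i' from h)
          have h1 := hE i
          simp only [bs, if_true]
          linarith
        · right
          have := kap_two (show (i' : ℕ) < i from h)
          have h1 := hE i'
          simp only [bs, if_true]
          linarith)
  have hprod := hind.measure_inter_preimage_eq_mul (Finset.univ : Finset (Bool × Fin N))
    (sets := fun j => St (bs c j) (bs c j + eps j.2 * (((η + 1 : ℚ≥0) : ℝ≥0) : ℝ)) (sg j.1)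
      (eps j.2) η) (fun j _ => measurableSet_St _ _ _ _ _)
  simp only [← hpre] at hprod
  rw [hprod]
  calc ∏ j : Bool × Fin N,
        P {ω | (fun q : ℚ≥0 => Bp Y (sg j.1) (bs c j) (eps j.2) q ω) ∈ G η}
      ≤ ∏ _j : Bool × Fin N, (3 / 5 : ℝ≥0∞) := by
        apply Finset.prod_le_prod'
        intro j _
        have he : eps j.2 ≠ 0 := (eps_pos _).ne'
        have hs : sg j.1 = 1 ∨ sg j.1 = -1 := by
          unfold sg; cases j.1 <;> simp
        have hb := Bp_pre hY hs (bs c j) he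
        have h1 := hG _ hb
        rwa [Measure.map_apply_of_aemeasurable
          (aemeasurable_pi_lambda _ fun q => hb.aemeasurable _) (measurableSet_G η)] at h1
    _ = (3 / 5) ^ (2 * N) := by
        rw [Finset.prod_const, Finset.card_univ, Fintype.card_prod, Fintype.card_bool,
          Fintype.card_fin]

/-- `c + [0, h]` contains a good point. -/
def Good (Y : ℝ → Ω → ℝ) (c h : ℝ) : Set Ω :=
  {ω | ∃ u ∈ Icc c (c + h), ∀ i : ℕ, 0 ≤ Y (u + kap i + eps i) ω - Y (u + kap i) ω ∧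
      0 ≤ Y (u - kap i - eps i) ω - Y (u - kap i) ω}

theorem good_sub {Y : ℝ → Ω → ℝ} {ω : Ω} (hc : Continuous (Y · ω)) {η : ℚ≥0} {c h : ℝ} {N : ℕ}
    (hh : ∀ i < N, h ≤ eps i * ((η : ℝ≥0) : ℝ)) (hg : ω ∈ Good Y c h) :
    ω ∈ ⋂ j ∈ (Finset.univ : Finset (Bool × Fin N)),
      {ω | (fun q : ℚ≥0 => Bp Y (sg j.1) (bs c j) (eps j.2) q ω) ∈ G η} := by
  obtain ⟨u, ⟨hu1, hu2⟩, hu⟩ := hg
  simp only [mem_iInter, mem_setOf_eq]
  rintro ⟨s, i⟩ -
  have he : (0 : ℝ) < eps i := by exact_mod_cast eps_pos i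
  have hs0 : 0 ≤ (u - c) / eps i := div_nonneg (by linarith) he.le
  set w : ℝ≥0 := ⟨(u - c) / eps i, hs0⟩ with hw
  have hwu : (eps i : ℝ) * w = u - c := by
    rw [hw]; change (eps i : ℝ) * ((u - c) / eps i) = u - c
    field_simp
  have hwη : w ≤ (η : ℝ≥0) := by
    rw [← NNReal.coe_le_coe]
    change (u - c) / eps i ≤ _
    rw [div_le_iff₀ he]
    have := hh i i.2
    linarith
  refine mem_G (b := fun t => Bp Y (sg s) (bs c (s, i)) (eps i) t ω) (Bp_cont hc _ _ _) hwη ?_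
  have hsq : 0 ≤ (√((eps i : ℝ≥0) : ℝ))⁻¹ := by positivity
  obtain ⟨h1, h2⟩ := hu i
  cases s
  · have e1 : c - (kap i : ℝ) - eps i + ((eps i * (w + 1) : ℝ≥0) : ℝ) = u - kap i := by
      push_cast
      linarith
    have e2 : c - (kap i : ℝ) - eps i + ((eps i * w : ℝ≥0) : ℝ) = u - kap i - eps i := by
      push_cast
      linarith
    simp only [Bp, sg, bs, Bool.false_eq_true, if_false]
    rw [e1, e2]
    have := mul_nonneg hsq h2
    linarith
  · have e1 : c + (kap i : ℝ) + ((eps i * (w + 1) : ℝ≥0) : ℝ) = u + kap i + eps i := by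
      push_cast
      linarith
    have e2 : c + (kap i : ℝ) + ((eps i * w : ℝ≥0) : ℝ) = u + kap i := by
      push_cast
      linarith
    simp only [Bp, sg, bs, if_true]
    rw [e1, e2]
    have := mul_nonneg hsq h1
    linarith

theorem good_null {P : Measure Ω} {Y : ℝ → Ω → ℝ} (hY : IsTS Y P)
    (hc : ∀ᵐ ω ∂P, Continuous (Y · ω)) {η : ℚ≥0} (hη0 : 0 < η) (hη : η ≤ 1)
    (hG : ∀ B : ℝ≥0 → Ω → ℝ, IsPreBrownianReal B P →
      P.map (fun ω (q : ℚ≥0) => B (q : ℝ≥0) ω) (G η) ≤ 3 / 5) (c : ℝ) :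
    P (Good Y c 1) = 0 := by
  have hη0' : (0 : ℝ) < ((η : ℝ≥0) : ℝ) := by
    have : (0 : ℝ≥0) < (η : ℝ≥0) := by exact_mod_cast hη0
    exact_mod_cast this
  have hb : ∀ N : ℕ, P (Good Y c 1)
      ≤ ENNReal.ofReal ((81 / 100) ^ N / ((η : ℝ≥0) : ℝ) + 2 * (9 / 25) ^ N) := by
    intro N
    set h : ℝ := (4 / 9) ^ N * ((η : ℝ≥0) : ℝ) with hh
    have hpos : 0 < h := by positivity
    have hle : ∀ i < N, h ≤ eps i * ((η : ℝ≥0) : ℝ) := by
      intro i hi
      rw [hh]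
      have : ((4 : ℝ) / 9) ^ N ≤ eps i := by
        unfold eps
        push_cast
        exact pow_le_pow_of_le_one (by norm_num) (by norm_num) (by omega)
      gcongr
    set K : ℕ := ⌈1 / h⌉₊ with hK
    have hsub : Good Y c 1 ⊆ ⋃ k ∈ Finset.range (K + 1), Good Y (c + k * h) h := by
      rintro ω ⟨u, ⟨hu1, hu2⟩, hu⟩
      have h0 : 0 ≤ (u - c) / h := div_nonneg (by linarith) hpos.le
      simp only [mem_iUnion, Finset.mem_range]
      refine ⟨⌊(u - c) / h⌋₊, ?_, u, ⟨?_, ?_⟩, hu⟩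
      · rw [Nat.lt_succ_iff]
        calc ⌊(u - c) / h⌋₊ ≤ ⌊1 / h⌋₊ := by
              apply Nat.floor_le_floor
              gcongr
              linarith
          _ ≤ ⌈1 / h⌉₊ := Nat.floor_le_ceil _
      · have := Nat.floor_le h0
        rw [le_div_iff₀ hpos] at this
        linarith
      · have := (Nat.lt_floor_add_one ((u - c) / h)).le
        rw [div_le_iff₀ hpos] at this
        linarith
    have h35 : (3 / 5 : ℝ≥0∞) = ENNReal.ofReal (3 / 5) := by
      rw [ENNReal.ofReal_div_of_pos (by norm_num)]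
      norm_num
    calc P (Good Y c 1) ≤ P (⋃ k ∈ Finset.range (K + 1), Good Y (c + k * h) h) :=
          measure_mono hsub
      _ ≤ ∑ k ∈ Finset.range (K + 1), P (Good Y (c + k * h) h) :=
          measure_biUnion_finset_le _ _
      _ ≤ ∑ _k ∈ Finset.range (K + 1), (3 / 5 : ℝ≥0∞) ^ (2 * N) := by
          apply Finset.sum_le_sum
          intro k _
          refine le_trans (measure_mono_ae ?_) (prob_le hY hη hG (c + k * h) N)
          filter_upwards [hc] with ω hω hin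
          exact good_sub hω hle hin
      _ = ENNReal.ofReal (((K + 1 : ℕ) : ℝ) * (3 / 5) ^ (2 * N)) := by
          rw [Finset.sum_const, Finset.card_range, nsmul_eq_mul, h35,
            ENNReal.ofReal_mul (by positivity), ENNReal.ofReal_pow (by norm_num),
            ENNReal.ofReal_natCast]
      _ ≤ _ := by
          apply ENNReal.ofReal_le_ofReal
          have h1 : ((K + 1 : ℕ) : ℝ) ≤ 1 / h + 2 := by
            push_cast
            have := (Nat.ceil_lt_add_one (show 0 ≤ 1 / h by positivity)).le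
            rw [← hK] at this
            linarith
          have e1 : ((3 : ℝ) / 5) ^ (2 * N) = (9 / 25) ^ N := by
            rw [pow_mul]; norm_num
          rw [e1]
          calc ((K + 1 : ℕ) : ℝ) * (9 / 25) ^ N ≤ (1 / h + 2) * (9 / 25) ^ N := by gcongr
            _ = (81 / 100) ^ N / ((η : ℝ≥0) : ℝ) + 2 * (9 / 25) ^ N := by
                rw [hh, add_mul]
                congr 1
                have hA : (0 : ℝ) < (4 / 9) ^ N := by positivity
                have e2 : (81 / 100 : ℝ) ^ N = (9 / 25) ^ N / (4 / 9) ^ N := by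
                  rw [← div_pow]; norm_num
                rw [e2]
                generalize ((4 : ℝ) / 9) ^ N = A at hA
                generalize ((9 : ℝ) / 25) ^ N = D
                field_simp
  have hlim : Tendsto (fun N : ℕ =>
      ENNReal.ofReal ((81 / 100) ^ N / ((η : ℝ≥0) : ℝ) + 2 * (9 / 25) ^ N)) atTop (𝓝 0) := by
    have h1 : Tendsto (fun N : ℕ => ((81 : ℝ) / 100) ^ N / ((η : ℝ≥0) : ℝ) + 2 * (9 / 25) ^ N)
        atTop (𝓝 (0 / ((η : ℝ≥0) : ℝ) + 2 * 0)) :=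
      ((tendsto_pow_atTop_nhds_zero_of_lt_one (by norm_num) (by norm_num)).div_const _).add
        ((tendsto_pow_atTop_nhds_zero_of_lt_one (by norm_num) (by norm_num)).const_mul _)
    have h2 := ENNReal.tendsto_ofReal h1
    simpa using h2
  exact le_antisymm (ge_of_tendsto' hlim hb) (by simp)

end Pool.Agent.R970.FB.NP

namespace Pool.Agent.R970.FB

variable {Ω : Type*} [MeasurableSpace Ω]

theorem no_point {P : Measure Ω} {Y : ℝ → Ω → ℝ} (hY : IsTS Y P)
    (hc : ∀ᵐ ω ∂P, Continuous (Y · ω)) :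
    ∀ᵐ ω ∂P, ¬ ∃ u : ℝ, ∀ i : ℕ, 0 ≤ Y (u + kap i + eps i) ω - Y (u + kap i) ω ∧
      0 ≤ Y (u - kap i - eps i) ω - Y (u - kap i) ω := by
  have hB := hY.fwd 0
  obtain ⟨η, hη0, hη1, hle⟩ := NP.exists_eta hB (by
    filter_upwards [hc] with ω hω
    fun_prop)
  have hG : ∀ B : ℝ≥0 → Ω → ℝ, IsPreBrownianReal B P →
      P.map (fun ω (q : ℚ≥0) => B (q : ℝ≥0) ω) (NP.G η) ≤ 3 / 5 := by
    intro B hB'
    rw [NP.law_eq hB' hB]
    exact hle
  have hall : ∀ r : ℤ, ∀ᵐ ω ∂P, ω ∉ NP.Good Y r 1 := by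
    intro r
    exact measure_eq_zero_iff_ae_notMem.1 (NP.good_null hY hc hη0 hη1 hG r)
  filter_upwards [ae_all_iff.2 hall] with ω hω
  rintro ⟨u, hu⟩
  exact hω ⌊u⌋ ⟨u, ⟨Int.floor_le u, (Int.lt_floor_add_one u).le⟩, hu⟩

end Pool.Agent.R970.FB
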