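import Pool.Agent.R970.FB.Hits
import Pool.Agent.R970.FB.L1
import Pool.Agent.R970.FB.NP

set_option autoImplicit false

open scoped ENNReal NNReal Topology
open MeasureTheory ProbabilityTheory Set Filter
open ProbabilityTheory.BrownianReal

namespace Pool.Agent.R970.FB

section
variable {Ω : Type} [MeasurableSpace Ω] {B C : ℝ≥0 → Ω → ℝ}

theorem measurableSet_Ev_joint (hBm : ∀ t, Measurable (B t)) (hBc : ∀ ω, Continuous (B · ω))
    (j N : ℕ) : MeasurableSet {p : Ω × ℝ | Ev j N p.2 (B · p.1)} := by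
  have hJ := measurable_joint' hBm hBc
  have : {p : Ω × ℝ | Ev j N p.2 (B · p.1)} =
      (⋂ i ∈ Finset.range j, {p : Ω × ℝ |
        0 ≤ B (p.2 - kap i - eps i).toNNReal p.1 - B (p.2 - kap i).toNNReal p.1}) ∩
      (⋂ i ∈ Finset.range N, {p : Ω × ℝ |
        0 ≤ B (p.2 + kap i + eps i).toNNReal p.1 - B (p.2 + kap i).toNNReal p.1}) := by
    ext b
    simp [Ev]
  rw [this]
  refine (Finset.measurableSet_biInter _ fun i _ => ?_).inter
    (Finset.measurableSet_biInter _ fun i _ => ?_)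
  · exact measurableSet_le measurable_const
      ((hJ.comp (measurable_fst.prodMk (by fun_prop))).sub
        (hJ.comp (measurable_fst.prodMk (by fun_prop))))
  · exact measurableSet_le measurable_const
      ((hJ.comp (measurable_fst.prodMk (by fun_prop))).sub
        (hJ.comp (measurable_fst.prodMk (by fun_prop))))

theorem avg_bound {K : ℝ≥0∞} (hK : ∀ (Ω : Type) [MeasurableSpace Ω] (P : Measure Ω)
    (B : ℝ≥0 → Ω → ℝ), IsPreBrownianReal B P → (∀ t, Measurable (B t)) →
    (∀ ω, Continuous (B · ω)) → ∀ j N : ℕ,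
    ∫⁻ s in Ioo ((kap j : ℝ) / 2) (kap j), ∫⁻ t in Ioo ((kap j : ℝ) / 2) (kap j),
      (2 : ℝ≥0∞) ^ (2 * (j + N)) * P {ω | Ev j N s (B · ω) ∧ Ev j N t (B · ω)}
      ≤ K * ENNReal.ofReal (kap j / 2) ^ 2)
    {P : Measure Ω} [IsProbabilityMeasure P]
    (hBm : ∀ t, Measurable (B t)) (hCm : ∀ t, Measurable (C t))
    (hBc : ∀ ω, Continuous (B · ω))
    (hB : IsPreBrownianReal B P) (hC : IsPreBrownianReal C P)
    (hi : IndepFun (fun ω t => B t ω) (fun ω t => C t ω) P)
    {W : Measure (ℝ≥0 → ℝ)} (hW : IsW W) (j : ℕ) (A : Set (ℝ≥0 → ℝ))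
    (hA : A ∈ measurableCylinders (fun _ : ℝ≥0 => ℝ)) :
    (∫⁻ s in Ioo ((kap j : ℝ) / 2) (kap j), P {ω | th B C (ω, s) ∈ A}) ^ 2 ≤
      K * W A * ENNReal.ofReal ((kap j : ℝ) - kap j / 2) ^ 2 := by
  obtain ⟨I, S, hS, rfl⟩ := (mem_measurableCylinders A).1 hA
  obtain ⟨N, hN⟩ : ∃ N : ℕ, ∀ u ∈ I, u ≤ kap N := by
    obtain ⟨M, hM⟩ := I.bddAbove
    obtain ⟨N, hN⟩ := exists_nat_gt M
    exact ⟨N, fun u hu => (hM hu).trans (hN.le.trans (le_trans (by simp) (kap_ge N)))⟩
  have hcyl : MeasurableSet (cylinder I S) := MeasurableSet.cylinder (α := fun _ => ℝ) I hS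
  set J := Ioo ((kap j : ℝ) / 2) (kap j) with hJ
  have hJm : MeasurableSet J := measurableSet_Ioo
  set A' : Set (Ω × ℝ) := {p : Ω × ℝ | Ev j N p.2 (B · p.1)} with hA'
  have hA'm : MeasurableSet A' := measurableSet_Ev_joint hBm hBc j N
  set D : Set Ω := {ω | (B · ω) ∈ cylinder I S} with hD
  have hDm : MeasurableSet D := (measurable_path hBm) hcyl
  set A'' : Set (Ω × ℝ) := {p : Ω × ℝ | p.1 ∈ D ∧ p ∈ A'} with hA''
  have hA''m : MeasurableSet A'' := (measurable_fst hDm).inter hA'm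
  have hkap0 : (0 : ℝ) ≤ kap j := (kap j).2
  have h1 : ∫⁻ s in J, P {ω | th B C (ω, s) ∈ cylinder I S} =
      2 ^ (j + N) * ∫⁻ ω, D.indicator 1 ω * occ id J A' ω ∂P := by
    have h2 : ∫⁻ s in J, P {ω | th B C (ω, s) ∈ cylinder I S} =
        ∫⁻ s in J, 2 ^ (j + N) * P {ω | (ω, s) ∈ A''} := by
      refine setLIntegral_congr_fun hJm fun s hs => ?_
      refine dens hBm hCm hB hC hi hW j N s (fun i hij => ?_) (by linarith [hs.1]) hs.2.le I hN S hS
      have h3 := kap_gap hij
      have h4 : (kap j : ℝ) / 64 + 1 ≤ kap j / 2 := by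
        have h5 : (64 : ℝ≥0) ≤ kap j := by
          have := kap_mono (Nat.zero_le j)
          refine le_trans ?_ this
          unfold kap; norm_num
        have h6 : (64 : ℝ) ≤ kap j := by exact_mod_cast h5
        linarith
      linarith [hs.1]
    rw [h2, lintegral_const_mul']
    · congr 1
      have h3 := lintegral_occ P (id : Ω × ℝ → Ω × ℝ) measurable_id hJm hA''m
      simp only [id_eq] at h3
      rw [← h3]
      refine lintegral_congr fun ω => ?_
      by_cases hω : ω ∈ D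
      · rw [indicator_of_mem hω, Pi.one_apply, one_mul]
        unfold occ
        congr 1
        ext s
        simp [hA'', hω]
      · rw [indicator_of_notMem hω, zero_mul]
        unfold occ
        exact measure_mono_null (t := ∅) (fun s hs => absurd hs.2.1 hω) measure_empty
    · exact ENNReal.pow_ne_top (by norm_num)
  rw [h1, mul_pow]
  have hcs := cs_sq P (D.indicator 1) (occ id J A')
    (measurable_one.indicator hDm) (occ_measurable _ measurable_id hJm hA'm)
  have hD2 : ∫⁻ ω, (D.indicator 1 ω : ℝ≥0∞) ^ 2 ∂P = W (cylinder I S) := by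
    have : (fun ω => (D.indicator 1 ω : ℝ≥0∞) ^ 2) = D.indicator 1 := by
      funext ω
      by_cases hω : ω ∈ D <;> simp [hω]
    rw [this, lintegral_indicator_one hDm, ← (isPreBrownianReal_iff hW hBm).1 hB,
      Measure.map_apply (measurable_path hBm) hcyl]
    rfl
  have hsm := hK Ω P B hB hBm hBc j N
  have hocc : (2 ^ (j + N)) ^ 2 * ∫⁻ ω, occ id J A' ω ^ 2 ∂P ≤
      K * ENNReal.ofReal (kap j / 2) ^ 2 := by
    refine le_trans (le_of_eq ?_) hsm
    have h3 := lintegral_occ_sq P (id : Ω × ℝ → Ω × ℝ) measurable_id hJm hA'm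
    simp only [id_eq] at h3
    rw [h3, ← pow_mul, mul_comm (j + N) 2, ← lintegral_const_mul']
    · refine lintegral_congr fun s => ?_
      rw [← lintegral_const_mul']
      · rfl
      · exact ENNReal.pow_ne_top (by norm_num)
    · exact ENNReal.pow_ne_top (by norm_num)
  calc (2 ^ (j + N)) ^ 2 * (∫⁻ ω, D.indicator 1 ω * occ id J A' ω ∂P) ^ 2
      ≤ (2 ^ (j + N)) ^ 2 * ((∫⁻ ω, (D.indicator 1 ω : ℝ≥0∞) ^ 2 ∂P) *
        ∫⁻ ω, occ id J A' ω ^ 2 ∂P) := by gcongr
    _ = W (cylinder I S) * ((2 ^ (j + N)) ^ 2 * ∫⁻ ω, occ id J A' ω ^ 2 ∂P) := by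
        rw [hD2]; ring
    _ ≤ W (cylinder I S) * (K * ENNReal.ofReal (kap j / 2) ^ 2) := by gcongr
    _ = K * W (cylinder I S) * ENNReal.ofReal ((kap j : ℝ) - kap j / 2) ^ 2 := by
        rw [show (kap j : ℝ) - kap j / 2 = kap j / 2 by ring]
        ring

theorem tendsto_kap : Tendsto (fun j => (kap j : ℝ)) atTop atTop := by
  refine tendsto_atTop_mono (fun j => ?_) tendsto_natCast_atTop_atTop
  have := kap_ge j
  rw [← NNReal.coe_le_coe] at this
  push_cast at this
  linarith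

theorem hits {P : Measure Ω} [IsProbabilityMeasure P]
    (hBm : ∀ t, Measurable (B t)) (hCm : ∀ t, Measurable (C t))
    (hBc : ∀ ω, Continuous (B · ω)) (hCc : ∀ ω, Continuous (C · ω))
    (hB : IsPreBrownianReal B P) (hC : IsPreBrownianReal C P)
    (hi : IndepFun (fun ω t => B t ω) (fun ω t => C t ω) P)
    {W : Measure (ℝ≥0 → ℝ)} (hW : IsW W) (A : Set (ℝ≥0 → ℝ)) (hA : MeasurableSet A)
    (hWA : W A ≠ 0) (n : ℕ) :
    ∀ᵐ ω ∂P, volume {s : ℝ | (n : ℝ) < s ∧ th B C (ω, s) ∈ A} ≠ 0 := by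
  obtain ⟨K, hKt, hK⟩ := second_moment
  have hWp : IsProbabilityMeasure W := by
    rw [← (isPreBrownianReal_iff hW hBm).1 hB]
    exact Measure.isProbabilityMeasure_map (measurable_path hBm).aemeasurable
  have hlim := recur P W (measurableCylinders (fun _ : ℝ≥0 => ℝ)) isSetAlgebra_measurableCylinders
    generateFrom_measurableCylinders.symm (th B C) (measurable_th hBm hCm hBc hCc)
    (fun j => (kap j : ℝ) / 2) (fun j => kap j)
    (by
      have : (fun j => (kap j : ℝ) - kap j / 2) = fun j => (kap j : ℝ) / 2 := by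
        funext j; ring
      rw [this]
      exact tendsto_kap.atTop_div_const (by norm_num))
    (by
      intro D hD
      obtain ⟨I, S, hS, rfl⟩ := (mem_measurableCylinders D).1 hD
      obtain ⟨M, hM⟩ := I.bddAbove
      refine ⟨M, ?_⟩
      filter_upwards [tendsto_kap.eventually_ge_atTop (4 * (M + 1))] with j hj
      have hM0 : (0 : ℝ) ≤ M := M.2
      have hI : ∀ u ∈ I, (u : ℝ) ≤ M := fun u hu => by exact_mod_cast hM hu
      have hgap : ∀ s ∈ Ioo ((kap j : ℝ) / 2) (kap j), ∀ i < j, (kap i : ℝ) + eps i ≤ s - M := by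
        intro s hs i hij
        have := kap_gap hij
        linarith [hs.1]
      have hle : ∀ s ∈ Ioo ((kap j : ℝ) / 2) (kap j), (M : ℝ) ≤ s := by
        intro s hs
        linarith [hs.1]
      refine ⟨fun s hs => ?_, fun s hs t ht hst => ?_⟩
      · exact local_one hBm hCm hB hC hi hW hs.2.le hM0 (hgap s hs) (hle s hs) I hI S hS
      · exact local_two hBm hCm hB hC hi hW hs.2.le ht.2.le hM0 (hgap s hs) (hle s hs)
          (hgap t ht) (hle t ht) hst I hI S hS)
    K hKt (fun j D hD => avg_bound hK hBm hCm hBc hB hC hi hW j D hD) A hA hWA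
  have hzero : P {ω | volume {s : ℝ | (n : ℝ) < s ∧ th B C (ω, s) ∈ A} = 0} = 0 := by
    refine le_antisymm (ge_of_tendsto hlim ?_) zero_le
    filter_upwards [tendsto_kap.eventually_ge_atTop (2 * n)] with j hj
    refine measure_mono fun ω hω => ?_
    simp only [mem_ofPred_eq] at hω ⊢
    refine measure_mono_null (fun s hs => ?_) hω
    exact ⟨by linarith [hs.1.1], hs.2⟩
  rw [ae_iff]
  simpa using hzero

end

end Pool.Agent.R970.FB
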