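import Pool.Agent.R970.FB.Hits2

set_option autoImplicit false

open scoped ENNReal NNReal Topology
open MeasureTheory ProbabilityTheory Set Filter
open ProbabilityTheory.BrownianReal

namespace Pool.Agent.R970.FB

/-- The standard Gaussian law conditioned on `(n, ∞)`. -/
noncomputable def rho (n : ℕ) : Measure ℝ := (gaussianReal 0 1)[|Ioi (n : ℝ)]

theorem gauss_Ioi (n : ℕ) : gaussianReal 0 1 (Ioi (n : ℝ)) ≠ 0 := by
  intro h
  have h1 := gaussianReal_absolutelyContinuous' 0 (v := 1) (by norm_num) h
  simp at h1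

instance (n : ℕ) : IsProbabilityMeasure (rho n) := cond_isProbabilityMeasure (gauss_Ioi n)

theorem rho_ne {n : ℕ} {U : Set ℝ} (h : volume {s : ℝ | (n : ℝ) < s ∧ s ∈ U} ≠ 0) :
    rho n U ≠ 0 := by
  intro h0
  apply h
  unfold rho at h0
  rw [cond_apply measurableSet_Ioi] at h0
  have h1 : gaussianReal 0 1 (Ioi (n : ℝ) ∩ U) = 0 := by
    rcases mul_eq_zero.1 h0 with h2 | h2
    · exact absurd (ENNReal.inv_eq_zero.1 h2) (measure_ne_top _ _)
    · exact h2
  exact gaussianReal_absolutelyContinuous' 0 (v := 1) (by norm_num) h1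

theorem rho_Iic (n : ℕ) : rho n (Iic (n : ℝ)) = 0 := by
  unfold rho
  rw [cond_apply measurableSet_Ioi]
  have : Ioi (n : ℝ) ∩ Iic (n : ℝ) = ∅ := by
    ext x
    simp
  rw [this, measure_empty, mul_zero]

section
variable {Ω : Type} [MeasurableSpace Ω] {B C : ℝ≥0 → Ω → ℝ}

theorem isFBM_XX {P : Measure Ω} [IsProbabilityMeasure P]
    (hBm : ∀ t, Measurable (B t)) (hCm : ∀ t, Measurable (C t))
    (hBc : ∀ ω, Continuous (B · ω)) (hCc : ∀ ω, Continuous (C · ω))
    (hB : IsPreBrownianReal B P) (hC : IsPreBrownianReal C P)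
    (hi : IndepFun (fun ω t => B t ω) (fun ω t => C t ω) P) :
    IsFBM (fun t (p : Ω × unitInterval) => XX B C t p.1) (P.prod volume) := by
  obtain ⟨W, hW⟩ := exists_isW
  have hWp : IsProbabilityMeasure W := by
    rw [← (isPreBrownianReal_iff hW hBm).1 hB]
    exact Measure.isProbabilityMeasure_map (measurable_path hBm).aemeasurable
  have hth := measurable_th hBm hCm hBc hCc
  have key : ∀ n : ℕ, ∃ h : Ω × unitInterval → ℝ, Measurable h ∧
      (P.prod volume).map (fun p => th B C (p.1, h p)) = W ∧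
      ∀ D, MeasurableSet D → rho n D = 0 → ∀ᵐ p ∂(P.prod volume), h p ∉ D := by
    intro n
    refine exists_time P W (rho n) (th B C) hth fun A hA hWA => ?_
    filter_upwards [hits hBm hCm hBc hCc hB hC hi hW A hA hWA n] with ω hω
    exact rho_ne hω
  choose h hm hmap hD using key
  refine ⟨fun n p => -h n p, fun n => (hm n).neg, ?_, fun n => ?_⟩
  · have h1 : ∀ᵐ p ∂(P.prod (volume : Measure unitInterval)), ∀ n : ℕ, h n p ∉ Iic (n : ℝ) :=
      ae_all_iff.2 fun n => hD n _ measurableSet_Iic (rho_Iic n)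
    filter_upwards [h1] with p hp
    refine tendsto_neg_atTop_atBot.comp (tendsto_atTop_mono (fun n => ?_)
      tendsto_natCast_atTop_atTop)
    have := hp n
    rw [mem_Iic, not_le] at this
    exact this.le
  · have e : (fwd (fun t (p : Ω × unitInterval) => XX B C t p.1) fun p => -h n p) =
        fun t p => th B C (p.1, h n p) t := rfl
    have hmt : ∀ t : ℝ≥0, Measurable (fun p : Ω × unitInterval => th B C (p.1, h n p) t) :=
      fun t => (measurable_pi_apply t).comp (hth.comp (measurable_fst.prodMk (hm n)))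
    refine ⟨?_, ?_⟩
    · rw [e]
      exact (isPreBrownianReal_iff hW hmt).2 (hmap n)
    · refine Eventually.of_forall fun p => ?_
      have hc := continuous_XX hBc hCc p.1
      rw [e]
      unfold th
      exact (hc.comp (by fun_prop : Continuous fun t : ℝ≥0 => -(h n p) + (t : ℝ))).sub
        continuous_const

omit [MeasurableSpace Ω] in
theorem XX_neg (t : ℝ) (ω : Ω) : XX B C (-t) ω = XX C B t ω := by
  unfold XX
  rw [neg_neg, add_comm]

theorem indep_fst {P : Measure Ω} [IsProbabilityMeasure P] {α β : Type*} [MeasurableSpace α]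
    [MeasurableSpace β] {f : Ω → α} {g : Ω → β} (hf : Measurable f) (hg : Measurable g)
    (hi : IndepFun f g P) :
    IndepFun (fun p : Ω × unitInterval => f p.1) (fun p : Ω × unitInterval => g p.1)
      (P.prod volume) := by
  rw [indepFun_iff_measure_inter_preimage_eq_mul] at hi ⊢
  intro s t hs ht
  have e : ∀ E : Set Ω, MeasurableSet E →
      (P.prod (volume : Measure unitInterval)) (Prod.fst ⁻¹' E) = P E := by
    intro E hE
    rw [← Measure.map_apply measurable_fst hE]
    simp [Measure.map_fst_prod]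
  have h1 := hi s t hs ht
  rw [← e _ ((hf hs).inter (hg ht)), ← e _ (hf hs), ← e _ (hg ht)] at h1
  exact h1

omit [MeasurableSpace Ω] in
/-- A process all of whose paths are continuous and have nonnegative increments over all windows,
in both directions, is not a two-sided Brownian motion. -/
theorem not_is2BM {Ω' : Type*} [MeasurableSpace Ω'] {P' : Measure Ω'} [IsProbabilityMeasure P']
    (g : Ω' → Ω) (hBc : ∀ ω, Continuous (B · ω)) (hCc : ∀ ω, Continuous (C · ω)) :
    ¬ Is2BM (fun t (p : Ω') => XX B C t (g p)) P' := by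
  rintro ⟨S, hS, hf, hb, hind⟩
  set X : ℝ → Ω' → ℝ := fun t p => XX B C t (g p) with hX
  have hTS := isTS_of_pair hf.toIsPreBrownianReal hb.toIsPreBrownianReal hind
  set Y : ℝ → Ω' → ℝ := fun t p => X (S p + t) p - X (S p) p with hY
  have hYe : (fun (t : ℝ) p => fwd X S t.toNNReal p + bwd X S (-t).toNNReal p) = Y := by
    funext t p
    simp only [fwd, bwd, hY]
    rcases le_total 0 t with h | h
    · rw [Real.coe_toNNReal _ h, Real.toNNReal_of_nonpos (by linarith : -t ≤ 0)]
      simp
    · rw [Real.coe_toNNReal _ (by linarith : 0 ≤ -t), Real.toNNReal_of_nonpos h]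
      simp
  rw [hYe] at hTS
  have hcont : ∀ᵐ p ∂P', Continuous (Y · p) := by
    refine Eventually.of_forall fun p => ?_
    have hc := continuous_XX hBc hCc (g p)
    exact (hc.comp (by fun_prop : Continuous fun t : ℝ => S p + t)).sub continuous_const
  have hno := no_point hTS hcont
  have hpos : ∀ (b : ℝ≥0 → ℝ) (i : ℕ), 0 ≤ Del i (Psi b) := by
    intro b i
    have e3 : Del i (Psi b) = Del i (PsiN (i + 1) b) := by
      unfold Del
      have h1 : kap i + eps i ≤ kap (i + 1) := by
        have := kap_gap (Nat.lt_succ_self i)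
        have h64 : (64 : ℝ≥0) ≤ kap (i + 1) := by
          refine le_trans ?_ (kap_mono (Nat.zero_le _))
          unfold kap; norm_num
        rw [← NNReal.coe_le_coe] at h64 ⊢
        push_cast at *
        linarith
      rw [Psi_eq h1, Psi_eq ((by simp : kap i ≤ kap i + eps i).trans h1)]
    rw [e3, Del_PsiN _ (Nat.lt_succ_self i)]
    exact abs_nonneg _
  have hall : ∀ p : Ω', ∃ u : ℝ, ∀ i : ℕ,
      0 ≤ Y (u + kap i + eps i) p - Y (u + kap i) p ∧
      0 ≤ Y (u - kap i - eps i) p - Y (u - kap i) p := by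
    intro p
    refine ⟨-S p, fun i => ⟨?_, ?_⟩⟩
    · have e : Y (-S p + kap i + eps i) p - Y (-S p + kap i) p = Del i (Psi (B · (g p))) := by
        simp only [hY, hX, XX, Del]
        have e1 : S p + (-S p + kap i + eps i) = ((kap i + eps i : ℝ≥0) : ℝ) := by
          push_cast; ring
        have e2 : S p + (-S p + kap i) = ((kap i : ℝ≥0) : ℝ) := by ring
        rw [e1, e2, Real.toNNReal_coe, Real.toNNReal_coe,
          Real.toNNReal_of_nonpos (neg_nonpos.2 (NNReal.coe_nonneg (kap i + eps i))),
          Real.toNNReal_of_nonpos (neg_nonpos.2 (NNReal.coe_nonneg (kap i)))]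
        ring
      rw [e]
      exact hpos _ i
    · have e : Y (-S p - kap i - eps i) p - Y (-S p - kap i) p = Del i (Psi (C · (g p))) := by
        simp only [hY, hX, XX, Del]
        have e1 : S p + (-S p - kap i - eps i) = -((kap i + eps i : ℝ≥0) : ℝ) := by
          push_cast; ring
        have e2 : S p + (-S p - kap i) = -((kap i : ℝ≥0) : ℝ) := by ring
        rw [e1, e2, neg_neg, neg_neg, Real.toNNReal_coe, Real.toNNReal_coe,
          Real.toNNReal_of_nonpos (neg_nonpos.2 (NNReal.coe_nonneg (kap i + eps i))),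
          Real.toNNReal_of_nonpos (neg_nonpos.2 (NNReal.coe_nonneg (kap i)))]
        ring
      rw [e]
      exact hpos _ i
  have hF : ∀ᵐ _ ∂P', False := by
    filter_upwards [hno] with p hp
    exact hp (hall p)
  have := ae_iff.1 hF
  simp at this

end

theorem main : ∃ (Ω : Type) (_ : MeasurableSpace Ω) (P : Measure Ω) (X : ℝ → Ω → ℝ),
    IsProbabilityMeasure P ∧ (∀ t, Measurable (X t)) ∧ (∀ ω, Continuous (X · ω)) ∧
    IsFBM X P ∧ IsBBM X P ∧ (∃ T : Ω → ℝ, Measurable T ∧ IndepAt X T P) ∧ ¬ Is2BM X P ∧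
    ∀ (Ω' : Type) (_ : MeasurableSpace Ω') (P' : Measure Ω') (g : Ω' → Ω),
      MeasurePreserving g P' P → ¬ Is2BM (fun t ω => X t (g ω)) P' := by
  obtain ⟨Ω, mΩ, P, B, C, hP, hBm, hCm, hBc, hCc, -, -, hB, hC, hi⟩ := exists_two
  refine ⟨Ω × unitInterval, inferInstance, P.prod volume, fun t p => XX B C t p.1,
    inferInstance, fun t => (measurable_XX hBm hCm t).comp measurable_fst,
    fun p => continuous_XX hBc hCc p.1, isFBM_XX hBm hCm hBc hCc hB hC hi, ?_,
    ⟨fun _ => 0, measurable_const, ?_⟩, not_is2BM (fun p : Ω × unitInterval => p.1) hBc hCc,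
    fun Ω' _ P' g hg => ?_⟩
  · unfold IsBBM
    have e : (fun (t : ℝ) (p : Ω × unitInterval) => XX B C (-t) p.1) =
        fun t p => XX C B t p.1 := by
      funext t p
      exact XX_neg t p.1
    rw [e]
    exact isFBM_XX hCm hBm hCc hBc hC hB hi.symm
  · unfold IndepAt
    have hm : Measurable (fun (b : ℝ≥0 → ℝ) (t : ℝ≥0) => Psi b t - Psi b 0) :=
      measurable_pi_lambda _ fun t =>
        (measurable_pi_iff.1 measurable_Psi t).sub (measurable_pi_iff.1 measurable_Psi 0)
    have h1 := (indep_fst (measurable_path hBm) (measurable_path hCm) hi).comp hm hm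
    have e1 : (fun (p : Ω × unitInterval) (t : ℝ≥0) =>
        fwd (fun t (p : Ω × unitInterval) => XX B C t p.1) (fun _ => 0) t p) =
        (fun (b : ℝ≥0 → ℝ) (t : ℝ≥0) => Psi b t - Psi b 0) ∘ fun p => (B · p.1) := by
      funext p t
      simp only [fwd, XX, Function.comp_apply]
      rw [zero_add, Real.toNNReal_coe, Real.toNNReal_of_nonpos (by simp : -(t : ℝ) ≤ 0)]
      simp
    have e2 : (fun (p : Ω × unitInterval) (t : ℝ≥0) =>
        bwd (fun t (p : Ω × unitInterval) => XX B C t p.1) (fun _ => 0) t p) =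
        (fun (b : ℝ≥0 → ℝ) (t : ℝ≥0) => Psi b t - Psi b 0) ∘ fun p => (C · p.1) := by
      funext p t
      simp only [bwd, XX, Function.comp_apply]
      rw [zero_sub, neg_neg, Real.toNNReal_coe, Real.toNNReal_of_nonpos (by simp : -(t : ℝ) ≤ 0)]
      simp
    rw [e1, e2]
    exact h1
  · have hP' : IsProbabilityMeasure P' := ⟨by
      have := hg.measure_preimage MeasurableSet.univ.nullMeasurableSet
      rw [preimage_univ] at this
      rw [this]
      exact measure_univ⟩
    exact not_is2BM (fun p => (g p).1) hBc hCc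

end Pool.Agent.R970.FB

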