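import Pool.Agent.R970.FB.Defs2

set_option autoImplicit false

open scoped ENNReal NNReal Topology
open MeasureTheory ProbabilityTheory Set Filter
open ProbabilityTheory.BrownianReal

namespace Pool.Agent.R970.FB

variable {Ω : Type*} [mΩ : MeasurableSpace Ω]

namespace PT1a

theorem charf {P : Measure Ω} [IsProbabilityMeasure P] (Y : ℝ≥0 → Ω → ℝ)
    (hY : IsPreBrownianReal Y P) (m : ℕ) (c : Fin m → ℝ) (r : Fin m → ℝ≥0) :
    ∫ ω, Complex.exp (Complex.I * (∑ l, c l * Y (r l) ω : ℝ)) ∂P =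
      Complex.exp ((-(1 / 2 * ∑ l, ∑ l', c l * c l' * (min (r l) (r l') : ℝ≥0)) : ℝ)) := by
  classical
  have hG := hY.isGaussianProcess
  have hg : HasGaussianLaw (fun ω => ∑ l, c l * Y (r l) ω) P := by
    have h1 := hG.of_isGaussianProcess (S := Unit) (Y := fun _ ω => ∑ l, c l * Y (r l) ω)
      (fun _ => ⟨Finset.univ.image r, 
        { toFun := fun x => ∑ l, c l * x ⟨r l, by simp⟩
          map_add' := fun x y => by
            simp [mul_add, Finset.sum_add_distrib]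
          map_smul' := fun a x => by
            simp only [Pi.smul_apply, smul_eq_mul, RingHom.id_apply, Finset.mul_sum]
            exact Finset.sum_congr rfl fun l _ => by ring
          cont := by fun_prop }, fun ω => rfl⟩)
    exact h1.hasGaussianLaw_eval ()
  have hi : ∀ l, MemLp (fun ω => c l * Y (r l) ω) 2 P := fun l =>
    (hG.hasGaussianLaw_eval _).memLp_two.const_mul _
  have hm : ∫ ω, (∑ l, c l * Y (r l) ω) ∂P = 0 := by
    rw [integral_finsetSum _ (fun l _ => (hY.integrable_eval _).const_mul _)]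
    refine Finset.sum_eq_zero fun l _ => ?_
    rw [integral_const_mul, hY.integral_eval, mul_zero]
  have hv : Var[fun ω => ∑ l, c l * Y (r l) ω; P] =
      ∑ l, ∑ l', c l * c l' * (min (r l) (r l') : ℝ≥0) := by
    rw [variance_fun_sum hi]
    refine Finset.sum_congr rfl fun l _ => Finset.sum_congr rfl fun l' _ => ?_
    rw [covariance_const_mul_left, covariance_const_mul_right, hY.covariance_fun_eval]
    ring
  have hmap := hg.map_eq_gaussianReal
  rw [hm, hv] at hmap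
  have hae : AEMeasurable (fun ω => ∑ l, c l * Y (r l) ω) P := hg.aemeasurable
  have hnn : 0 ≤ ∑ l, ∑ l', c l * c l' * ((min (r l) (r l') : ℝ≥0) : ℝ) := by
    rw [← hv]; exact variance_nonneg _ _
  have h2 : ∫ ω, Complex.exp (Complex.I * (∑ l, c l * Y (r l) ω : ℝ)) ∂P =
      ∫ x, Complex.exp ((1 : ℝ) * x * Complex.I)
        ∂(P.map (fun ω => ∑ l, c l * Y (r l) ω)) := by
    rw [integral_map hae (by fun_prop)]
    refine integral_congr_ae (ae_of_all _ fun ω => ?_)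
    dsimp only
    congr 1
    push_cast
    ring
  rw [h2, ← charFun_apply_real, hmap, charFun_gaussianReal]
  congr 1
  rw [Real.coe_toNNReal _ hnn]
  push_cast
  ring

/-- The martingale. -/
noncomputable def N {m : ℕ} (B : ℝ≥0 → Ω → ℝ) (c : Fin m → ℝ) (t : Fin m → ℝ≥0) (s : ℝ≥0)
    (ω : Ω) : ℂ :=
  Complex.exp (Complex.I * (∑ l, c l * B (min (t l) s) ω : ℝ) +
      (1 / 2 * ∑ l, ∑ l', c l * c l' * (min s (min (t l) (t l')) : ℝ≥0) : ℝ))

/-- Its final value. -/
noncomputable def NI {m : ℕ} (B : ℝ≥0 → Ω → ℝ) (c : Fin m → ℝ) (t : Fin m → ℝ≥0) (ω : Ω) : ℂ :=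
  Complex.exp (Complex.I * (∑ l, c l * B (t l) ω : ℝ) +
      (1 / 2 * ∑ l, ∑ l', c l * c l' * (min (t l) (t l') : ℝ≥0) : ℝ))

/-- The ratio. -/
noncomputable def K {m : ℕ} (c : Fin m → ℝ) (t : Fin m → ℝ≥0) (s : ℝ≥0) (y : ℝ≥0 → ℝ) : ℂ :=
  Complex.exp (Complex.I * (∑ l, c l * y (t l - s) : ℝ) +
      (1 / 2 * ∑ l, ∑ l', c l * c l' * (min (t l - s) (t l' - s) : ℝ≥0) : ℝ))

theorem norm_expI (a b : ℝ) : ‖Complex.exp (Complex.I * (a : ℂ) + (b : ℂ))‖ = Real.exp b := by
  rw [Complex.norm_exp]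
  simp

/-- The bound. -/
noncomputable def bd {m : ℕ} (c : Fin m → ℝ) (t : Fin m → ℝ≥0) : ℝ :=
  Real.exp (1 / 2 * ∑ l, ∑ l', |c l| * |c l'| * (min (t l) (t l') : ℝ≥0))

omit mΩ in
theorem norm_N_le {m : ℕ} (B : ℝ≥0 → Ω → ℝ) (c : Fin m → ℝ) (t : Fin m → ℝ≥0) (s : ℝ≥0)
    (ω : Ω) : ‖N B c t s ω‖ ≤ bd c t := by
  rw [N, norm_expI, bd]
  apply Real.exp_le_exp.2
  refine mul_le_mul_of_nonneg_left ?_ (by norm_num)
  refine Finset.sum_le_sum fun l _ => Finset.sum_le_sum fun l' _ => ?_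
  have h1 : c l * c l' ≤ |c l| * |c l'| := by rw [← abs_mul]; exact le_abs_self _
  have h2 : ((min s (min (t l) (t l')) : ℝ≥0) : ℝ) ≤ (min (t l) (t l') : ℝ≥0) :=
    NNReal.coe_le_coe.2 (min_le_right _ _)
  calc c l * c l' * ((min s (min (t l) (t l')) : ℝ≥0) : ℝ)
      ≤ |c l| * |c l'| * ((min s (min (t l) (t l')) : ℝ≥0) : ℝ) :=
        mul_le_mul_of_nonneg_right h1 (NNReal.coe_nonneg _)
    _ ≤ _ := mul_le_mul_of_nonneg_left h2 (by positivity)

omit mΩ in
theorem norm_NI_le {m : ℕ} (B : ℝ≥0 → Ω → ℝ) (c : Fin m → ℝ) (t : Fin m → ℝ≥0)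
    (ω : Ω) : ‖NI B c t ω‖ ≤ bd c t := by
  rw [NI, norm_expI, bd]
  apply Real.exp_le_exp.2
  refine mul_le_mul_of_nonneg_left ?_ (by norm_num)
  refine Finset.sum_le_sum fun l _ => Finset.sum_le_sum fun l' _ => ?_
  have h1 : c l * c l' ≤ |c l| * |c l'| := by rw [← abs_mul]; exact le_abs_self _
  exact mul_le_mul_of_nonneg_right h1 (NNReal.coe_nonneg _)

theorem min_sub_add (a b s : ℝ≥0) : min a b = min s (min a b) + min (a - s) (b - s) := by
  rcases le_total a b with h | h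
  · rw [min_eq_left h, min_eq_left (tsub_le_tsub_right h s)]
    rcases le_total s a with h' | h'
    · rw [min_eq_left h', add_tsub_cancel_of_le h']
    · rw [min_eq_right h', tsub_eq_zero_of_le h', add_zero]
  · rw [min_eq_right h, min_eq_right (tsub_le_tsub_right h s)]
    rcases le_total s b with h' | h'
    · rw [min_eq_left h', add_tsub_cancel_of_le h']
    · rw [min_eq_right h', tsub_eq_zero_of_le h', add_zero]

omit mΩ in
theorem NI_eq {m : ℕ} (B : ℝ≥0 → Ω → ℝ) (c : Fin m → ℝ) (t : Fin m → ℝ≥0) (s : ℝ≥0)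
    (ω : Ω) : NI B c t ω = N B c t s ω * K c t s (fun u => B (s + u) ω - B s ω) := by
  rw [NI, N, K, ← Complex.exp_add]
  congr 1
  have h1 : (∑ l, c l * B (t l) ω : ℝ) = (∑ l, c l * B (min (t l) s) ω) +
      ∑ l, c l * (B (s + (t l - s)) ω - B s ω) := by
    rw [← Finset.sum_add_distrib]
    refine Finset.sum_congr rfl fun l _ => ?_
    rcases le_total s (t l) with h | h
    · rw [add_tsub_cancel_of_le h, min_eq_right h]; ring
    · rw [tsub_eq_zero_of_le h, min_eq_left h, add_zero]; ring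
  have h2 : (∑ l, ∑ l', c l * c l' * ((min (t l) (t l') : ℝ≥0) : ℝ)) =
      (∑ l, ∑ l', c l * c l' * ((min s (min (t l) (t l')) : ℝ≥0) : ℝ)) +
      ∑ l, ∑ l', c l * c l' * ((min (t l - s) (t l' - s) : ℝ≥0) : ℝ) := by
    rw [← Finset.sum_add_distrib]
    refine Finset.sum_congr rfl fun l _ => ?_
    rw [← Finset.sum_add_distrib]
    refine Finset.sum_congr rfl fun l' _ => ?_
    rw [← mul_add, ← NNReal.coe_add, ← min_sub_add]
  rw [h1, h2]
  push_cast
  ring

theorem meas_N' {m : ℕ} (F : Filtration ℝ≥0 mΩ)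
    (B : ℝ≥0 → Ω → ℝ) (had : ∀ t, Measurable[F t] (B t)) (c : Fin m → ℝ) (t : Fin m → ℝ≥0)
    (s : ℝ≥0) : Measurable[F s] (N B c t s) := by
  have h : ∀ l, Measurable[F s] (B (min (t l) s)) := fun l =>
    (had _).mono (F.mono (min_le_right _ _)) le_rfl
  unfold N
  have h3 : Measurable[F s] fun ω => ∑ l, c l * B (min (t l) s) ω :=
    Finset.measurable_sum _ fun l _ => (h l).const_mul (c l)
  have h4 : Measurable (fun x : ℝ => Complex.exp (Complex.I * (x : ℂ) +
      (1 / 2 * ∑ l, ∑ l', c l * c l' * (min s (min (t l) (t l')) : ℝ≥0) : ℝ))) := by fun_prop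
  exact h4.comp h3

theorem meas_NI {m : ℕ} (B : ℝ≥0 → Ω → ℝ) (hm : ∀ t, Measurable (B t)) (c : Fin m → ℝ)
    (t : Fin m → ℝ≥0) : Measurable (NI B c t) := by
  unfold NI
  have h3 : Measurable fun ω => ∑ l, c l * B (t l) ω :=
    Finset.measurable_sum _ fun l _ => (hm _).const_mul (c l)
  fun_prop

theorem meas_K {m : ℕ} (c : Fin m → ℝ) (t : Fin m → ℝ≥0) (s : ℝ≥0) :
    Measurable (K c t s) := by
  unfold K
  have h3 : Measurable fun y : ℝ≥0 → ℝ => ∑ l, c l * y (t l - s) := by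
    refine Finset.measurable_sum _ fun l _ => ?_
    have := measurable_pi_apply (X := fun _ : ℝ≥0 => ℝ) (t l - s)
    exact this.const_mul (c l)
  fun_prop

theorem meas_NT {m : ℕ} (B : ℝ≥0 → Ω → ℝ) (hc : ∀ ω, Continuous (B · ω))
    (hm : ∀ t, Measurable (B t)) (c : Fin m → ℝ)
    (t : Fin m → ℝ≥0) (T : Ω → ℝ≥0) (hT : Measurable T) :
    Measurable (fun ω => N B c t (T ω) ω) := by
  unfold N
  have hu : Measurable (Function.uncurry B) :=
    measurable_uncurry_of_continuous_of_measurable hc hm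
  have h3 : Measurable fun ω => ∑ l, c l * B (min (t l) (T ω)) ω :=
    Finset.measurable_sum _ fun l _ =>
      (hu.comp ((measurable_const.min hT).prodMk measurable_id)).const_mul (c l)
  have h4 : Measurable fun ω => ∑ l, ∑ l', c l * c l' *
      ((min (T ω) (min (t l) (t l')) : ℝ≥0) : ℝ) :=
    Finset.measurable_sum _ fun l _ => Finset.measurable_sum _ fun l' _ =>
      ((hT.min measurable_const).coe_nnreal_real).const_mul _
  fun_prop

theorem int_K {P : Measure Ω} [IsProbabilityMeasure P]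
    (B : ℝ≥0 → Ω → ℝ) (hB : IsBrownianReal B P) {m : ℕ} (c : Fin m → ℝ) (t : Fin m → ℝ≥0)
    (s : ℝ≥0) : ∫ ω, K c t s (fun u => B (s + u) ω - B s ω) ∂P = 1 := by
  have h := charf (fun u ω => B (s + u) ω - B s ω) (hB.toIsPreBrownianReal.shift s) m c
    (fun l => t l - s)
  unfold K
  simp_rw [Complex.exp_add]
  rw [integral_mul_const, h, ← Complex.exp_add, ← Complex.ofReal_add, neg_add_cancel]
  simp

theorem fact {P : Measure Ω} [IsProbabilityMeasure P] (F : Filtration ℝ≥0 mΩ)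
    (B : ℝ≥0 → Ω → ℝ) (hB : IsBrownianReal B P)
    (had : ∀ t, Measurable[F t] (B t))
    (hin : ∀ (s : ℝ≥0), Indep (F s)
      (MeasurableSpace.comap (fun ω (t : ℝ≥0) => B (s + t) ω - B s ω) inferInstance) P)
    {m : ℕ} (c : Fin m → ℝ) (t : Fin m → ℝ≥0) (s : ℝ≥0) (A : Set Ω)
    (hA : MeasurableSet[F s] A) :
    ∫ ω in A, NI B c t ω ∂P = ∫ ω in A, N B c t s ω ∂P := by
  have hA' : MeasurableSet A := F.le s A hA
  have hg : Measurable[F s] (A.indicator (N B c t s)) := by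
    have := meas_N' F B had c t s
    exact this.indicator hA
  have hind : IndepFun (A.indicator (N B c t s))
      (fun ω => K c t s (fun u => B (s + u) ω - B s ω)) P := by
    rw [IndepFun_iff_Indep]
    refine indep_of_indep_of_le_left (indep_of_indep_of_le_right (hin s) ?_) hg.comap_le
    have := (meas_K c t s).comp
      (comap_measurable (fun ω (t : ℝ≥0) => B (s + t) ω - B s ω))
    exact this.comap_le
  have hmB : ∀ t, Measurable (B t) := fun t => (had t).mono (F.le t) le_rfl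
  have h1 : AEStronglyMeasurable (A.indicator (N B c t s)) P :=
    (hg.mono (F.le s) le_rfl).aestronglyMeasurable
  have h2 : AEStronglyMeasurable (fun ω => K c t s (fun u => B (s + u) ω - B s ω)) P := by
    refine Measurable.aestronglyMeasurable ?_
    exact (meas_K c t s).comp (measurable_pi_lambda _ fun u => (hmB _).sub (hmB _))
  have h3 := hind.integral_fun_mul_eq_mul_integral h1 h2
  rw [int_K B hB c t s, mul_one] at h3
  rw [← integral_indicator hA', ← integral_indicator hA', ← h3]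
  refine integral_congr_ae (ae_of_all _ fun ω => ?_)
  dsimp only
  by_cases hω : ω ∈ A
  · rw [indicator_of_mem hω, indicator_of_mem hω, NI_eq B c t s]
  · rw [indicator_of_notMem hω, indicator_of_notMem hω, zero_mul]

theorem meas_T (F : Filtration ℝ≥0 mΩ) (T : Ω → ℝ≥0)
    (hT : ∀ (t : ℝ≥0), MeasurableSet[F t] {ω | T ω ≤ t}) : Measurable T :=
  measurable_of_Iic fun t => F.le t _ (hT t)

theorem meas_A (F : Filtration ℝ≥0 mΩ) (T : Ω → ℝ≥0)
    (hT : ∀ (t : ℝ≥0), MeasurableSet[F t] {ω | T ω ≤ t}) (q : ℝ≥0) (hq : 0 < q) (k : ℕ) :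
    MeasurableSet[F (k / q)] {ω | ⌈T ω * q⌉₊ = k} := by
  have h1 : {ω | ⌈T ω * q⌉₊ = k} = {ω | T ω ≤ k / q} \ ⋃ j ∈ Finset.range k,
      {ω | T ω ≤ j / q} := by
    ext ω
    simp only [mem_ofPred_eq, Set.mem_sdiff, mem_iUnion, Finset.mem_range, not_exists, not_le]
    have h2 : ∀ j : ℕ, T ω ≤ j / q ↔ ⌈T ω * q⌉₊ ≤ j := fun j => by
      rw [Nat.ceil_le, le_div_iff₀ hq]
    constructor
    · rintro rfl
      refine ⟨(h2 _).2 le_rfl, fun j hj => ?_⟩
      rw [← not_le, h2]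
      exact not_le.2 hj
    · rintro ⟨h3, h4⟩
      refine le_antisymm ((h2 _).1 h3) ?_
      by_contra h5
      have h6 := h4 _ (not_le.1 h5)
      rw [← not_le, h2] at h6
      exact h6 le_rfl
  rw [h1]
  refine (hT _).diff ?_
  refine Finset.measurableSet_biUnion _ fun j hj => ?_
  have h3 : (j : ℝ≥0) / q ≤ k / q := by
    gcongr
    exact (Finset.mem_range.1 hj).le
  exact F.mono h3 _ (hT _)

theorem disc {P : Measure Ω} [IsProbabilityMeasure P] (F : Filtration ℝ≥0 mΩ)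
    (B : ℝ≥0 → Ω → ℝ) (T : Ω → ℝ≥0) (hB : IsBrownianReal B P) (hc : ∀ ω, Continuous (B · ω))
    (had : ∀ t, Measurable[F t] (B t))
    (hin : ∀ (s : ℝ≥0), Indep (F s)
      (MeasurableSpace.comap (fun ω (t : ℝ≥0) => B (s + t) ω - B s ω) inferInstance) P)
    (hT : ∀ (t : ℝ≥0), MeasurableSet[F t] {ω | T ω ≤ t})
    {m : ℕ} (c : Fin m → ℝ) (t : Fin m → ℝ≥0) (q : ℝ≥0) (hq : 0 < q) :
    ∫ ω, N B c t (⌈T ω * q⌉₊ / q) ω ∂P = ∫ ω, NI B c t ω ∂P := by
  have hmB : ∀ t, Measurable (B t) := fun t => (had t).mono (F.le t) le_rfl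
  have hmT : Measurable (fun ω => (⌈T ω * q⌉₊ : ℝ≥0) / q) := by
    have h1 : Measurable (fun ω => (⌈T ω * q⌉₊ : ℕ)) :=
      Nat.measurable_ceil.comp ((meas_T F T hT).mul_const q)
    have h2 : Measurable (fun n : ℕ => (n : ℝ≥0) / q) := measurable_from_nat
    exact h2.comp h1
  have hmA : ∀ k : ℕ, MeasurableSet {ω | ⌈T ω * q⌉₊ = k} := fun k =>
    F.le _ _ (meas_A F T hT q hq k)
  have hU : (⋃ k : ℕ, {ω | ⌈T ω * q⌉₊ = k}) = univ := by
    ext ω; simp
  have hd : Pairwise (Function.onFun Disjoint fun k : ℕ => {ω | ⌈T ω * q⌉₊ = k}) := by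
    intro a b hab
    rw [Function.onFun, Set.disjoint_left]
    intro ω h1 h2
    exact hab (h1.symm.trans h2)
  have hi1 : Integrable (fun ω => N B c t (⌈T ω * q⌉₊ / q) ω) P :=
    Integrable.of_bound (meas_NT B hc hmB c t _ hmT).aestronglyMeasurable (bd c t)
      (ae_of_all _ fun ω => norm_N_le B c t _ ω)
  have hi2 : Integrable (NI B c t) P :=
    Integrable.of_bound (meas_NI B hmB c t).aestronglyMeasurable (bd c t)
      (ae_of_all _ fun ω => norm_NI_le B c t ω)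
  rw [← setIntegral_univ, ← setIntegral_univ (f := fun ω => NI B c t ω), ← hU,
    integral_iUnion hmA hd hi1.integrableOn, integral_iUnion hmA hd hi2.integrableOn]
  congr 1
  ext k
  rw [fact F B hB had hin c t (k / q) _ (meas_A F T hT q hq k)]
  refine setIntegral_congr_fun (hmA k) fun ω hω => ?_
  have : ⌈T ω * q⌉₊ = k := hω
  rw [this]

theorem int_NI {P : Measure Ω} [IsProbabilityMeasure P]
    (B : ℝ≥0 → Ω → ℝ) (hB : IsBrownianReal B P) {m : ℕ} (c : Fin m → ℝ) (t : Fin m → ℝ≥0) :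
    ∫ ω, NI B c t ω ∂P = 1 := by
  have h := charf B hB.toIsPreBrownianReal m c t
  unfold NI
  simp_rw [Complex.exp_add]
  rw [integral_mul_const, h, ← Complex.exp_add, ← Complex.ofReal_add, neg_add_cancel]
  simp

theorem tend (x : ℝ≥0) : Tendsto (fun n : ℕ => (⌈x * ((n : ℝ≥0) + 1)⌉₊ : ℝ≥0) / ((n : ℝ≥0) + 1))
    atTop (𝓝 x) := by
  have h0 : Tendsto (fun n : ℕ => x + 1 / ((n : ℝ≥0) + 1)) atTop (𝓝 x) := by
    have : Tendsto (fun n : ℕ => 1 / ((n : ℝ≥0) + 1)) atTop (𝓝 0) :=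
      tendsto_one_div_add_atTop_nhds_zero_nat
    simpa using this.const_add x
  refine tendsto_of_tendsto_of_tendsto_of_le_of_le tendsto_const_nhds h0 (fun n => ?_)
    (fun n => ?_)
  · have hn : (0 : ℝ≥0) < (n : ℝ≥0) + 1 := by positivity
    exact (le_div_iff₀ hn).2 (Nat.le_ceil _)
  · have hn : (0 : ℝ≥0) < (n : ℝ≥0) + 1 := by positivity
    dsimp only
    rw [div_le_iff₀ hn, add_mul, one_div, inv_mul_cancel₀ hn.ne']
    exact (Nat.ceil_lt_add_one (by positivity)).le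

end PT1a

open PT1a in
theorem piece_exp {P : Measure Ω} [IsProbabilityMeasure P] (F : Filtration ℝ≥0 mΩ)
    (B : ℝ≥0 → Ω → ℝ) (T : Ω → ℝ≥0) (hB : IsBrownianReal B P) (hc : ∀ ω, Continuous (B · ω))
    (had : ∀ t, Measurable[F t] (B t))
    (hin : ∀ (s : ℝ≥0), Indep (F s)
      (MeasurableSpace.comap (fun ω (t : ℝ≥0) => B (s + t) ω - B s ω) inferInstance) P)
    (hT : ∀ (t : ℝ≥0), MeasurableSet[F t] {ω | T ω ≤ t})
    (m : ℕ) (c : Fin m → ℝ) (t : Fin m → ℝ≥0) :
    ∫ ω, Complex.exp (Complex.I * (∑ l, c l * B (min (t l) (T ω)) ω : ℝ) +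
      (1 / 2 * ∑ l, ∑ l', c l * c l' * (min (T ω) (min (t l) (t l')) : ℝ≥0) : ℝ)) ∂P = 1 := by
  have hmB : ∀ t, Measurable (B t) := fun t => (had t).mono (F.le t) le_rfl
  have hmT : ∀ q : ℝ≥0, Measurable (fun ω => (⌈T ω * q⌉₊ : ℝ≥0) / q) := by
    intro q
    have h1 : Measurable (fun ω => (⌈T ω * q⌉₊ : ℕ)) :=
      Nat.measurable_ceil.comp ((meas_T F T hT).mul_const q)
    have h2 : Measurable (fun n : ℕ => (n : ℝ≥0) / q) := measurable_from_nat
    exact h2.comp h1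
  have hlim : Tendsto (fun n : ℕ => ∫ ω, N B c t (⌈T ω * ((n : ℝ≥0) + 1)⌉₊ / ((n : ℝ≥0) + 1)) ω ∂P)
      atTop (𝓝 (∫ ω, N B c t (T ω) ω ∂P)) := by
    refine tendsto_integral_of_dominated_convergence (fun _ => bd c t)
      (fun n => (meas_NT B hc hmB c t _ (hmT _)).aestronglyMeasurable)
      (integrable_const _) (fun n => ae_of_all _ fun ω => norm_N_le B c t _ ω)
      (ae_of_all _ fun ω => ?_)
    have hcont : Continuous (fun s : ℝ≥0 => N B c t s ω) := by
      unfold N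
      have h1 : ∀ l, Continuous fun s : ℝ≥0 => B (min (t l) s) ω := fun l =>
        (hc ω).comp (continuous_const.min continuous_id)
      fun_prop
    exact (hcont.tendsto _).comp (tend (T ω))
  have hconst : ∀ n : ℕ,
      ∫ ω, N B c t (⌈T ω * ((n : ℝ≥0) + 1)⌉₊ / ((n : ℝ≥0) + 1)) ω ∂P = 1 := fun n => by
    rw [disc F B T hB hc had hin hT c t _ (by positivity), int_NI B hB c t]
  simp_rw [hconst] at hlim
  exact (tendsto_nhds_unique tendsto_const_nhds hlim).symm

end Pool.Agent.R970.FB
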