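import Pool.Agent.R970.FB.PT1a

set_option autoImplicit false

open scoped ENNReal NNReal Topology
open MeasureTheory ProbabilityTheory Set Filter
open ProbabilityTheory.BrownianReal

namespace Pool.Agent.R970.FB

namespace PT1b

/-! ### Characterisation of pre-Brownian motion -/

theorem pre_of_char {Ω : Type*} [mΩ : MeasurableSpace Ω] {P : Measure Ω} [IsProbabilityMeasure P]
    (Y : ℝ≥0 → Ω → ℝ) (hY : ∀ t, Measurable (Y t))
    (H : ∀ (m : ℕ) (c : Fin m → ℝ) (t : Fin m → ℝ≥0),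
      ∫ ω, Complex.exp (Complex.I * (∑ l, c l * Y (t l) ω : ℝ)) ∂P =
      Complex.exp ((-(1 / 2 * ∑ l, ∑ l', c l * c l' * (min (t l) (t l') : ℝ≥0)) : ℝ))) :
    IsPreBrownianReal Y P := by
  classical
  refine ⟨fun I => ⟨(measurable_pi_lambda _ fun t : I => hY t).aemeasurable, ?_⟩⟩
  have : IsProbabilityMeasure (P.map fun ω => I.restrict (Y · ω)) :=
    Measure.isProbabilityMeasure_map (measurable_pi_lambda _ fun t : I => hY t).aemeasurable
  refine Measure.ext_of_charFunDual ?_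
  ext L
  set e := Fintype.equivFin I with he
  obtain ⟨a, hL⟩ : ∃ a : I → ℝ, ∀ x : I → ℝ, L x = ∑ i, a i * x i := by
    refine ⟨fun i => L (Pi.single i 1), fun x => ?_⟩
    have h1 : x = ∑ i, x i • (Pi.single i (1 : ℝ) : I → ℝ) := by
      ext j
      simp [Finset.sum_apply, Pi.single_apply]
    conv_lhs => rw [h1]
    rw [map_sum]
    refine Finset.sum_congr rfl fun i _ => ?_
    rw [map_smul, smul_eq_mul, mul_comm]
  have hYI : AEMeasurable (fun ω => I.restrict (Y · ω)) P :=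
    (measurable_pi_lambda _ fun t : I => hY t).aemeasurable
  rw [charFunDual_apply, integral_map hYI (by fun_prop), IsGaussian.charFunDual_eq]
  have h2 := H (Fintype.card I) (fun l => a (e.symm l)) (fun l => (e.symm l : ℝ≥0))
  have h3 : ∀ f : I → ℝ, ∑ l, f (e.symm l) = ∑ i, f i := fun f => e.symm.sum_comp f
  have h4 : (fun ω => Complex.exp (L (I.restrict (Y · ω)) * Complex.I)) =
      fun ω => Complex.exp (Complex.I * (∑ l, a (e.symm l) * Y (e.symm l) ω : ℝ)) := by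
    ext ω
    rw [hL, mul_comm, h3 (fun i => a i * Y i ω)]
    rfl
  rw [h4, h2]
  have h5 : ∫ x, L x ∂(projectiveFamily I) = 0 := by
    have : ∫ x, L x ∂(projectiveFamily I) = L (∫ x, x ∂(projectiveFamily I)) :=
      L.integral_comp_id_comm IsGaussian.integrable_id
    rw [this, integral_id_projectiveFamily, map_zero]
  have hm : ∀ i : I, MemLp (fun x : I → ℝ => a i * x i) 2 (projectiveFamily I) :=
    fun i => (IsGaussian.hasGaussianLaw_id.eval i).memLp_two.const_mul _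
  have h6 : Var[L; projectiveFamily I] = ∑ i : I, ∑ j : I,
      a i * a j * (min (i : ℝ≥0) (j : ℝ≥0) : ℝ≥0) := by
    have : (L : (I → ℝ) → ℝ) = fun x => ∑ i, a i * x i := funext hL
    rw [this, variance_fun_sum hm]
    refine Finset.sum_congr rfl fun l _ => Finset.sum_congr rfl fun l' _ => ?_
    rw [covariance_const_mul_left, covariance_const_mul_right, covariance_eval_projectiveFamily]
    push_cast
    ring
  rw [integral_complex_ofReal, h5, h6]
  have h7 : ∑ l, ∑ l', a (e.symm l) * a (e.symm l') *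
      ((min (e.symm l : ℝ≥0) (e.symm l' : ℝ≥0) : ℝ≥0) : ℝ) = ∑ i : I, ∑ j : I,
      a i * a j * ((min (i : ℝ≥0) (j : ℝ≥0) : ℝ≥0) : ℝ) := by
    rw [← h3 (fun i => ∑ j : I, a i * a j * ((min (i : ℝ≥0) (j : ℝ≥0) : ℝ≥0) : ℝ))]
    refine Finset.sum_congr rfl fun l _ => ?_
    exact h3 (fun j => a (e.symm l) * a j * ((min (e.symm l : ℝ≥0) (j : ℝ≥0) : ℝ≥0) : ℝ))
  rw [h7]
  congr 1
  push_cast
  ring

/-! ### Integrating out an independent variable -/

theorem step {Ω : Type*} [mΩ : MeasurableSpace Ω] {P : Measure Ω} [IsProbabilityMeasure P]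
    {E' E : Type*} [mE' : MeasurableSpace E'] [mE : MeasurableSpace E] (W : Ω → E') (ζ : Ω → E)
    (hW : Measurable W) (hζ : Measurable ζ) (h : IndepFun W ζ P) (V : E' → ℂ) (hV : Measurable V)
    (e : E' → E → ℂ) (he : Measurable (Function.uncurry e))
    (hi : Integrable (fun ω => V (W ω) * e (W ω) (ζ ω)) P)
    (h1 : ∀ w, ∫ ω, e w (ζ ω) ∂P = 1) :
    ∫ ω, V (W ω) * e (W ω) (ζ ω) ∂P = ∫ ω, V (W ω) ∂P := by
  have hmap : P.map (fun ω => (W ω, ζ ω)) = (P.map W).prod (P.map ζ) :=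
    (indepFun_iff_map_prod_eq_prod_map_map hW.aemeasurable hζ.aemeasurable).1 h
  set G : E' × E → ℂ := fun p => V p.1 * e p.1 p.2 with hG
  have hGm : Measurable G := (hV.comp measurable_fst).mul he
  have hGi : Integrable G ((P.map W).prod (P.map ζ)) := by
    rw [← hmap, integrable_map_measure hGm.aestronglyMeasurable (hW.prodMk hζ).aemeasurable]
    exact hi
  have h2 : ∫ ω, V (W ω) * e (W ω) (ζ ω) ∂P = ∫ p, G p ∂(P.map (fun ω => (W ω, ζ ω))) := by
    rw [integral_map (hW.prodMk hζ).aemeasurable hGm.aestronglyMeasurable]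
  have : IsProbabilityMeasure (P.map W) := Measure.isProbabilityMeasure_map hW.aemeasurable
  have : IsProbabilityMeasure (P.map ζ) := Measure.isProbabilityMeasure_map hζ.aemeasurable
  rw [h2, hmap, integral_prod _ hGi]
  have h3 : ∀ w, ∫ z, G (w, z) ∂(P.map ζ) = V w := by
    intro w
    have hm : Measurable (fun z => G (w, z)) := hGm.comp measurable_prodMk_left
    rw [integral_map hζ.aemeasurable hm.aestronglyMeasurable]
    simp only [hG]
    rw [integral_const_mul, h1, mul_one]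
  simp_rw [h3]
  rw [integral_map hW.aemeasurable hV.aestronglyMeasurable]

theorem meas_at {Ω : Type*} [m : MeasurableSpace Ω] (b : ℝ≥0 → Ω → ℝ)
    (hb : ∀ u, Measurable (b u)) (hc : ∀ ω, Continuous (b · ω)) (v : Ω → ℝ≥0)
    (hv : Measurable v) : Measurable (fun ω => b (v ω) ω) :=
  (measurable_uncurry_of_continuous_of_measurable hc hb).comp (hv.prodMk measurable_id)

theorem indepFun_id {Ω β : Type*} {mΩ : MeasurableSpace Ω} [mβ : MeasurableSpace β]
    {P : Measure Ω} (m1 m2 : MeasurableSpace Ω) (h : Indep m1 m2 P) (f : Ω → β)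
    (hf : Measurable[m1] f) : @IndepFun Ω β Ω mΩ mβ m2 f id P := by
  refine (IndepFun_iff_Indep (mγ := m2) f id P).2 ?_
  refine indep_of_indep_of_le_left (indep_of_indep_of_le_right h ?_) hf.comap_le
  exact (MeasurableSpace.comap_id).le

theorem min_add_eq (t s T : ℝ≥0) : min t (s + T) = min t s + min (t - s) T := by
  rcases le_total t s with h | h
  · rw [min_eq_left h, tsub_eq_zero_of_le h, min_eq_left (h.trans le_self_add)]
    simp
  · rw [min_eq_right h]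
    obtain ⟨u, rfl⟩ := le_iff_exists_add.1 h
    rw [add_tsub_cancel_left, min_add_add_left]

theorem min_tsub (a b s : ℝ≥0) : min (a - s) (b - s) = min a b - s := by
  rcases le_total a b with h | h
  · rw [min_eq_left h, min_eq_left (tsub_le_tsub_right h s)]
  · rw [min_eq_right h, min_eq_right (tsub_le_tsub_right h s)]

section Pieces

variable {Ω : Type*} [mΩ : MeasurableSpace Ω]

/-- The stopped piece. -/
def stp (B : ℤ → ℝ≥0 → Ω → ℝ) (T : ℤ → Ω → ℝ≥0) (k : ℤ) (u : ℝ≥0) (ω : Ω) : ℝ :=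
  B k (min u (T k ω)) ω

/-- Total length of `m` pieces after `k0`. -/
noncomputable def sf (T : ℤ → Ω → ℝ≥0) (k0 : ℤ) (m : ℕ) (ω : Ω) : ℝ≥0 :=
  ∑ i ∈ Finset.range m, T (k0 + i) ω

/-- The first `m` pieces after `k0`, glued. -/
noncomputable def bf (B : ℤ → ℝ≥0 → Ω → ℝ) (T : ℤ → Ω → ℝ≥0) (k0 : ℤ) (m : ℕ) (t : ℝ≥0)
    (ω : Ω) : ℝ :=
  ∑ j ∈ Finset.range m, stp B T (k0 + j) (t - sf T k0 j ω) ω

/-- Total length of `m` pieces before `k0`. -/
noncomputable def sb (T : ℤ → Ω → ℝ≥0) (k0 : ℤ) (m : ℕ) (ω : Ω) : ℝ≥0 :=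
  ∑ i ∈ Finset.range m, T (k0 - 1 - i) ω

/-- The last `m` pieces before `k0`, glued. -/
noncomputable def bb (B : ℤ → ℝ≥0 → Ω → ℝ) (T : ℤ → Ω → ℝ≥0) (k0 : ℤ) (m : ℕ) (t : ℝ≥0)
    (ω : Ω) : ℝ :=
  ∑ j ∈ Finset.range m, (stp B T (k0 - 1 - j) (T (k0 - 1 - j) ω -
    min (t - sb T k0 j ω) (T (k0 - 1 - j) ω)) ω - stp B T (k0 - 1 - j) (T (k0 - 1 - j) ω) ω)

omit mΩ in
theorem cont_stp {B : ℤ → ℝ≥0 → Ω → ℝ} (T : ℤ → Ω → ℝ≥0) (hc : ∀ k ω, Continuous (B k · ω))
    (k : ℤ) (ω : Ω) : Continuous (stp B T k · ω) :=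
  (hc k ω).comp (continuous_id.min continuous_const)

theorem meas_sf {T : ℤ → Ω → ℝ≥0} {k0 : ℤ} {m : ℕ}
    (hT : ∀ j < m, Measurable (T (k0 + j))) : Measurable (sf T k0 m) :=
  Finset.measurable_sum _ fun j hj => hT j (Finset.mem_range.1 hj)

theorem meas_bf {B : ℤ → ℝ≥0 → Ω → ℝ} {T : ℤ → Ω → ℝ≥0} {k0 : ℤ} {m : ℕ}
    (hc : ∀ k ω, Continuous (B k · ω))
    (hT : ∀ j < m, Measurable (T (k0 + j))) (hb : ∀ j < m, ∀ u, Measurable (stp B T (k0 + j) u))
    (t : ℝ≥0) : Measurable (bf B T k0 m t) := by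
  refine Finset.measurable_sum _ fun j hj => ?_
  have hj' := Finset.mem_range.1 hj
  exact meas_at (stp B T (k0 + j)) (hb j hj') (cont_stp T hc _) _
    (measurable_const.sub (meas_sf fun i hi => hT i (hi.trans hj')))

theorem meas_sb {T : ℤ → Ω → ℝ≥0} {k0 : ℤ} {m : ℕ}
    (hT : ∀ j < m, Measurable (T (k0 - 1 - j))) : Measurable (sb T k0 m) :=
  Finset.measurable_sum _ fun j hj => hT j (Finset.mem_range.1 hj)

theorem meas_bb {B : ℤ → ℝ≥0 → Ω → ℝ} {T : ℤ → Ω → ℝ≥0} {k0 : ℤ} {m : ℕ}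
    (hc : ∀ k ω, Continuous (B k · ω))
    (hT : ∀ j < m, Measurable (T (k0 - 1 - j)))
    (hb : ∀ j < m, ∀ u, Measurable (stp B T (k0 - 1 - j) u))
    (t : ℝ≥0) : Measurable (bb B T k0 m t) := by
  refine Finset.measurable_sum _ fun j hj => ?_
  have hj' := Finset.mem_range.1 hj
  have h1 : Measurable (sb T k0 j) := meas_sb fun i hi => hT i (hi.trans hj')
  have h2 := hT j hj'
  refine Measurable.sub ?_ ?_
  · exact meas_at (stp B T (k0 - 1 - j)) (hb j hj') (cont_stp T hc _) _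
      (h2.sub ((measurable_const.sub h1).min h2))
  · exact meas_at (stp B T (k0 - 1 - j)) (hb j hj') (cont_stp T hc _) _ h2

/-- The exponential of the first `m` pieces. -/
noncomputable def MM (B : ℤ → ℝ≥0 → Ω → ℝ) (T : ℤ → Ω → ℝ≥0) (k0 : ℤ) {n : ℕ} (c : Fin n → ℝ)
    (t : Fin n → ℝ≥0) (m : ℕ) (ω : Ω) : ℂ :=
  Complex.exp (Complex.I * (∑ l, c l * bf B T k0 m (t l) ω : ℝ) +
      (1 / 2 * ∑ l, ∑ l', c l * c l' * (min (sf T k0 m ω) (min (t l) (t l')) : ℝ≥0) : ℝ))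

/-- The exponential of one piece. -/
noncomputable def ee (B : ℤ → ℝ≥0 → Ω → ℝ) (T : ℤ → Ω → ℝ≥0) (k : ℤ) {n : ℕ} (c : Fin n → ℝ)
    (t : Fin n → ℝ≥0) (s : ℝ≥0) (ω : Ω) : ℂ :=
  Complex.exp (Complex.I * (∑ l, c l * B k (min (t l - s) (T k ω)) ω : ℝ) +
      (1 / 2 * ∑ l, ∑ l', c l * c l' * (min (T k ω) (min (t l - s) (t l' - s)) : ℝ≥0) : ℝ))

omit mΩ in
theorem MM_succ (B : ℤ → ℝ≥0 → Ω → ℝ) (T : ℤ → Ω → ℝ≥0) (k0 : ℤ) {n : ℕ} (c : Fin n → ℝ)
    (t : Fin n → ℝ≥0) (m : ℕ) (ω : Ω) :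
    MM B T k0 c t (m + 1) ω = MM B T k0 c t m ω * ee B T (k0 + m) c t (sf T k0 m ω) ω := by
  rw [MM, MM, ee, ← Complex.exp_add]
  congr 1
  have h1 : (∑ l, c l * bf B T k0 (m + 1) (t l) ω) = (∑ l, c l * bf B T k0 m (t l) ω) +
      ∑ l, c l * B (k0 + m) (min (t l - sf T k0 m ω) (T (k0 + m) ω)) ω := by
    rw [← Finset.sum_add_distrib]
    refine Finset.sum_congr rfl fun l _ => ?_
    rw [bf, Finset.sum_range_succ, mul_add]
    rfl
  have h2 : ∀ x : ℝ≥0, ((min (sf T k0 (m + 1) ω) x : ℝ≥0) : ℝ) =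
      (min (sf T k0 m ω) x : ℝ≥0) + (min (T (k0 + m) ω) (x - sf T k0 m ω) : ℝ≥0) := by
    intro x
    rw [← NNReal.coe_add]
    congr 1
    have : sf T k0 (m + 1) ω = sf T k0 m ω + T (k0 + m) ω := by
      rw [sf, Finset.sum_range_succ]; rfl
    rw [this, min_comm, min_add_eq, min_comm x, min_comm (x - _)]
  have h3 : (∑ l, ∑ l', c l * c l' * ((min (sf T k0 (m + 1) ω) (min (t l) (t l')) : ℝ≥0) : ℝ)) =
      (∑ l, ∑ l', c l * c l' * ((min (sf T k0 m ω) (min (t l) (t l')) : ℝ≥0) : ℝ)) +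
      ∑ l, ∑ l', c l * c l' * ((min (T (k0 + m) ω)
        (min (t l - sf T k0 m ω) (t l' - sf T k0 m ω)) : ℝ≥0) : ℝ) := by
    rw [← Finset.sum_add_distrib]
    refine Finset.sum_congr rfl fun l _ => ?_
    rw [← Finset.sum_add_distrib]
    refine Finset.sum_congr rfl fun l' _ => ?_
    rw [h2, min_tsub, mul_add]
  rw [h1, h3]
  push_cast
  ring

omit mΩ in
theorem norm_MM_le (B : ℤ → ℝ≥0 → Ω → ℝ) (T : ℤ → Ω → ℝ≥0) (k0 : ℤ) {n : ℕ} (c : Fin n → ℝ)
    (t : Fin n → ℝ≥0) (m : ℕ) (ω : Ω) : ‖MM B T k0 c t m ω‖ ≤ PT1a.bd c t := by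
  have h := PT1a.norm_N_le (Ω := Ω) (fun _ _ => 0) c t (sf T k0 m ω) ω
  rw [PT1a.N, PT1a.norm_expI] at h
  rw [MM, PT1a.norm_expI]
  exact h

theorem meas_MM {B : ℤ → ℝ≥0 → Ω → ℝ} {T : ℤ → Ω → ℝ≥0} {k0 : ℤ} {m : ℕ}
    (hc : ∀ k ω, Continuous (B k · ω))
    (hT : ∀ j < m, Measurable (T (k0 + j))) (hb : ∀ j < m, ∀ u, Measurable (stp B T (k0 + j) u))
    {n : ℕ} (c : Fin n → ℝ) (t : Fin n → ℝ≥0) : Measurable (MM B T k0 c t m) := by
  unfold MM
  have h1 : Measurable fun ω => ∑ l, c l * bf B T k0 m (t l) ω :=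
    Finset.measurable_sum _ fun l _ => (meas_bf hc hT hb (t l)).const_mul _
  have h2 : Measurable fun ω => ∑ l, ∑ l', c l * c l' *
      ((min (sf T k0 m ω) (min (t l) (t l')) : ℝ≥0) : ℝ) :=
    Finset.measurable_sum _ fun l _ => Finset.measurable_sum _ fun l' _ =>
      (((meas_sf hT).min measurable_const).coe_nnreal_real).const_mul _
  fun_prop

theorem meas_ee {B : ℤ → ℝ≥0 → Ω → ℝ} {T : ℤ → Ω → ℝ≥0} {k : ℤ}
    (hc : ∀ k ω, Continuous (B k · ω))
    (hT : Measurable (T k)) (hb : ∀ u, Measurable (stp B T k u))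
    {n : ℕ} (c : Fin n → ℝ) (t : Fin n → ℝ≥0) :
    Measurable (Function.uncurry (ee B T k c t)) := by
  unfold ee Function.uncurry
  have h0 : Measurable (Function.uncurry (stp B T k)) :=
    measurable_uncurry_of_continuous_of_measurable (cont_stp T hc k) hb
  have h1 : Measurable fun p : ℝ≥0 × Ω => ∑ l, c l * B k (min (t l - p.1) (T k p.2)) p.2 := by
    refine Finset.measurable_sum _ fun l _ => Measurable.const_mul ?_ _
    exact h0.comp ((measurable_const.sub measurable_fst).prodMk measurable_snd)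
  have h2 : Measurable fun p : ℝ≥0 × Ω => ∑ l, ∑ l', c l * c l' *
      ((min (T k p.2) (min (t l - p.1) (t l' - p.1)) : ℝ≥0) : ℝ) := by
    refine Finset.measurable_sum _ fun l _ => Finset.measurable_sum _ fun l' _ =>
      Measurable.const_mul ?_ _
    exact ((hT.comp measurable_snd).min ((measurable_const.sub measurable_fst).min
      (measurable_const.sub measurable_fst))).coe_nnreal_real
  fun_prop

theorem meas_W {B : ℤ → ℝ≥0 → Ω → ℝ} {T : ℤ → Ω → ℝ≥0} {k0 : ℤ} {m : ℕ}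
    (hc : ∀ k ω, Continuous (B k · ω))
    (hT : ∀ j < m, Measurable (T (k0 + j))) (hb : ∀ j < m, ∀ u, Measurable (stp B T (k0 + j) u))
    {n : ℕ} (c : Fin n → ℝ) (t : Fin n → ℝ≥0) :
    Measurable (fun ω => (MM B T k0 c t m ω, sf T k0 m ω)) :=
  (meas_MM hc hT hb c t).prodMk (meas_sf hT)

theorem meas_ee' {B : ℤ → ℝ≥0 → Ω → ℝ} {T : ℤ → Ω → ℝ≥0} {k : ℤ}
    (hc : ∀ k ω, Continuous (B k · ω))
    (hT : Measurable (T k)) (hb : ∀ u, Measurable (stp B T k u))
    {n : ℕ} (c : Fin n → ℝ) (t : Fin n → ℝ≥0) :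
    Measurable (fun q : (ℂ × ℝ≥0) × Ω => ee B T k c t q.1.2 q.2) := by
  have h1 : Measurable (fun q : (ℂ × ℝ≥0) × Ω => (q.1.2, q.2)) := by fun_prop
  have h2 := (meas_ee hc hT hb c t).comp h1
  exact h2

/-- The piece number `k`. -/
def pc (B : ℤ → ℝ≥0 → Ω → ℝ) (T : ℤ → Ω → ℝ≥0) (k : ℤ) (ω : Ω) : ℝ≥0 × (ℝ≥0 → ℝ) :=
  (T k ω, fun t : ℝ≥0 => B k (min t (T k ω)) ω)

/-- Its sigma-algebra. -/
@[reducible] def GG (B : ℤ → ℝ≥0 → Ω → ℝ) (T : ℤ → Ω → ℝ≥0) (k : ℤ) : MeasurableSpace Ω :=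
  MeasurableSpace.comap (pc B T k) inferInstance

omit mΩ in
theorem GG_T (B : ℤ → ℝ≥0 → Ω → ℝ) (T : ℤ → Ω → ℝ≥0) (k : ℤ) : Measurable[GG B T k] (T k) :=
  measurable_fst.comp (comap_measurable (pc B T k))

omit mΩ in
theorem GG_stp (B : ℤ → ℝ≥0 → Ω → ℝ) (T : ℤ → Ω → ℝ≥0) (k : ℤ) (u : ℝ≥0) :
    Measurable[GG B T k] (stp B T k u) :=
  ((measurable_pi_apply u).comp measurable_snd).comp (comap_measurable (pc B T k))

theorem int_MM {P : Measure Ω} [IsProbabilityMeasure P]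
    {F : ℤ → Filtration ℝ≥0 mΩ} {B : ℤ → ℝ≥0 → Ω → ℝ} {T : ℤ → Ω → ℝ≥0}
    (hP : IsPieces P F B T) (k0 : ℤ) {n : ℕ} (c : Fin n → ℝ) (t : Fin n → ℝ≥0) (m : ℕ) :
    ∫ ω, MM B T k0 c t m ω ∂P = 1 := by
  have hTm : ∀ k, Measurable (T k) := fun k => PT1a.meas_T (F k) (T k) (hP.stop k)
  have hBm : ∀ k t, Measurable (B k t) := fun k t => (hP.adapted k t).mono ((F k).le t) le_rfl
  have hbm : ∀ k u, Measurable (stp B T k u) := fun k u =>
    meas_at (B k) (hBm k) (hP.cont k) _ (measurable_const.min (hTm k))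
  have hle : ∀ k, GG B T k ≤ mΩ := fun k =>
    ((hTm k).prodMk (measurable_pi_lambda _ fun u => hbm k u)).comap_le
  have hii : iIndep (GG B T) P := hP.indep
  induction m with
  | zero =>
    simp [MM, bf, sf]
  | succ m ih =>
    rw [← ih]
    simp_rw [MM_succ]
    -- the past sigma-algebra
    set S : Set ℤ := Ico k0 (k0 + m) with hS
    have hGT : ∀ j < m, Measurable[⨆ i ∈ S, GG B T i] (T (k0 + j)) := fun j hj =>
      (GG_T B T (k0 + j)).mono (le_iSup₂_of_le (k0 + j) (by rw [hS, mem_Ico]; omega) le_rfl) le_rfl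
    have hGs : ∀ j < m, ∀ u, Measurable[⨆ i ∈ S, GG B T i] (stp B T (k0 + j) u) := fun j hj u =>
      (GG_stp B T (k0 + j) u).mono
        (le_iSup₂_of_le (k0 + j) (by rw [hS, mem_Ico]; omega) le_rfl) le_rfl
    have hW : Measurable[⨆ i ∈ S, GG B T i] (fun ω => (MM B T k0 c t m ω, sf T k0 m ω)) :=
      @meas_W Ω (⨆ i ∈ S, GG B T i) B T k0 m hP.cont hGT hGs n c t
    have hSle : (⨆ i ∈ S, GG B T i) ≤ mΩ := iSup₂_le fun i _ => hle i
    have hind : Indep (⨆ i ∈ S, GG B T i) (⨆ i ∈ ({k0 + m} : Set ℤ), GG B T i) P :=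
      indep_iSup_of_disjoint hle hii (by simp [hS])
    rw [iSup_singleton] at hind
    have hindf : @IndepFun Ω (ℂ × ℝ≥0) Ω mΩ _ (GG B T (k0 + m))
        (fun ω => (MM B T k0 c t m ω, sf T k0 m ω)) id P :=
      indepFun_id _ _ hind _ hW
    have hstep := @step Ω mΩ P _ (ℂ × ℝ≥0) Ω _ (GG B T (k0 + m))
      (fun ω => (MM B T k0 c t m ω, sf T k0 m ω)) id (hW.mono hSle le_rfl)
      (measurable_id'' (hle _)) hindf (fun p => p.1) measurable_fst
      (fun p ω => ee B T (k0 + m) c t p.2 ω)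
      (@meas_ee' Ω (GG B T (k0 + m)) B T (k0 + m) hP.cont (GG_T B T _) (GG_stp B T _) n c t) ?_ ?_
    · exact hstep
    · refine Integrable.of_bound (C := PT1a.bd c t) ?_ (ae_of_all _ fun ω => ?_)
      · have h1 : Measurable (MM B T k0 c t (m + 1)) :=
          meas_MM hP.cont (fun j _ => hTm _) (fun j _ => hbm _) c t
        have h2 : (fun ω => MM B T k0 c t m ω * ee B T (k0 + m) c t (sf T k0 m ω) (id ω)) =
            MM B T k0 c t (m + 1) := by
          ext ω; rw [MM_succ]; rfl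
        rw [h2]
        exact h1.aestronglyMeasurable
      · have := norm_MM_le B T k0 c t (m + 1) ω
        rw [MM_succ] at this
        exact this
    · rintro ⟨v, s⟩
      exact piece_exp (F (k0 + m)) (B (k0 + m)) (T (k0 + m)) (hP.bm _) (hP.cont _)
        (hP.adapted _) (hP.indep_incr _) (hP.stop _) n c (fun l => t l - s)

end Pieces

section Paths

variable {Ω : Type*}

theorem closed_piece {x : ℝ → ℝ} (hx : Continuous x) {b : ℝ≥0 → ℝ} (hb : Continuous b)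
    (hb0 : b 0 = 0) {a : ℝ} {T : ℝ≥0} (h : ∀ t : ℝ≥0, t < T → x (a + t) - x a = b t) :
    ∀ t : ℝ≥0, t ≤ T → x (a + t) - x a = b t := by
  intro t ht
  rcases eq_or_ne T 0 with hT | hT
  · have : t = 0 := le_antisymm (ht.trans hT.le) zero_le
    rw [this, hb0]
    simp
  · have hcl : IsClosed {t : ℝ≥0 | x (a + t) - x a = b t} :=
      isClosed_eq (by fun_prop) hb
    have h1 : closure (Iio T) ⊆ {t : ℝ≥0 | x (a + t) - x a = b t} :=
      hcl.closure_subset_iff.2 fun t ht => h t ht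
    rw [closure_Iio' ⟨0, pos_iff_ne_zero.2 hT⟩] at h1
    exact h1 ht

theorem a_sf {T : ℤ → Ω → ℝ≥0} {ω : Ω} {a : ℤ → ℝ} (ha : ∀ k, a (k + 1) = a k + T k ω)
    (k0 : ℤ) (m : ℕ) : a (k0 + m) = a k0 + sf T k0 m ω := by
  induction m with
  | zero => simp [sf]
  | succ m ih =>
    have : sf T k0 (m + 1) ω = sf T k0 m ω + T (k0 + m) ω := by
      rw [sf, Finset.sum_range_succ]; rfl
    rw [this, NNReal.coe_add, ← add_assoc, ← ih, ← ha]
    push_cast
    rw [add_assoc]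

theorem a_sb {T : ℤ → Ω → ℝ≥0} {ω : Ω} {a : ℤ → ℝ} (ha : ∀ k, a (k + 1) = a k + T k ω)
    (k0 : ℤ) (m : ℕ) : a (k0 - m) = a k0 - sb T k0 m ω := by
  induction m with
  | zero => simp [sb]
  | succ m ih =>
    have h1 : sb T k0 (m + 1) ω = sb T k0 m ω + T (k0 - 1 - m) ω := by
      rw [sb, Finset.sum_range_succ]; rfl
    have h2 := ha (k0 - 1 - m)
    have h3 : k0 - 1 - (m : ℤ) + 1 = k0 - m := by ring
    rw [h3, ih] at h2
    have h4 : k0 - ((m + 1 : ℕ) : ℤ) = k0 - 1 - m := by push_cast; ring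
    rw [h4, h1, NNReal.coe_add]
    linarith

theorem fwd_eq {B : ℤ → ℝ≥0 → Ω → ℝ} {T : ℤ → Ω → ℝ≥0} {ω : Ω} {x : ℝ → ℝ} {a : ℤ → ℝ}
    (ha : ∀ k, a (k + 1) = a k + T k ω)
    (hx : ∀ k (t : ℝ≥0), t ≤ T k ω → x (a k + t) - x (a k) = B k t ω) (k0 : ℤ) (m : ℕ)
    (t : ℝ≥0) :
    x (a k0 + (min t (sf T k0 m ω) : ℝ≥0)) - x (a k0) = bf B T k0 m t ω := by
  induction m with
  | zero => simp [sf, bf]
  | succ m ih =>
    have h1 : sf T k0 (m + 1) ω = sf T k0 m ω + T (k0 + m) ω := by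
      rw [sf, Finset.sum_range_succ]; rfl
    have h2 : bf B T k0 (m + 1) t ω = bf B T k0 m t ω + stp B T (k0 + m) (t - sf T k0 m ω) ω := by
      rw [bf, Finset.sum_range_succ]; rfl
    rw [h1, min_add_eq, h2, ← ih, stp]
    rcases le_total t (sf T k0 m ω) with h | h
    · rw [tsub_eq_zero_of_le h, min_eq_left (a := (0 : ℝ≥0)) zero_le, add_zero]
      have h3 := hx (k0 + m) 0 zero_le
      simp only [NNReal.coe_zero, add_zero, sub_self] at h3
      rw [← h3, add_zero]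
    · rw [min_eq_right h, NNReal.coe_add, ← add_assoc, ← a_sf ha k0 m,
        ← hx (k0 + m) _ (min_le_right _ _)]
      ring

theorem bwd_eq {B : ℤ → ℝ≥0 → Ω → ℝ} {T : ℤ → Ω → ℝ≥0} {ω : Ω} {x : ℝ → ℝ} {a : ℤ → ℝ}
    (ha : ∀ k, a (k + 1) = a k + T k ω)
    (hx : ∀ k (t : ℝ≥0), t ≤ T k ω → x (a k + t) - x (a k) = B k t ω) (k0 : ℤ) (m : ℕ)
    (t : ℝ≥0) :
    x (a k0 - (min t (sb T k0 m ω) : ℝ≥0)) - x (a k0) = bb B T k0 m t ω := by
  induction m with
  | zero => simp [sb, bb]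
  | succ m ih =>
    have h1 : sb T k0 (m + 1) ω = sb T k0 m ω + T (k0 - 1 - m) ω := by
      rw [sb, Finset.sum_range_succ]; rfl
    have h2 : bb B T k0 (m + 1) t ω = bb B T k0 m t ω + (stp B T (k0 - 1 - m)
        (T (k0 - 1 - m) ω - min (t - sb T k0 m ω) (T (k0 - 1 - m) ω)) ω -
        stp B T (k0 - 1 - m) (T (k0 - 1 - m) ω) ω) := by
      rw [bb, Finset.sum_range_succ]; rfl
    rw [h1, min_add_eq, h2, ← ih, stp, stp]
    rcases le_total t (sb T k0 m ω) with h | h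
    · rw [tsub_eq_zero_of_le h, min_eq_left (a := (0 : ℝ≥0)) zero_le, add_zero, tsub_zero]
      ring
    · set u := min (t - sb T k0 m ω) (T (k0 - 1 - m) ω) with hu
      have hu' : u ≤ T (k0 - 1 - m) ω := min_le_right _ _
      have h3 := ha (k0 - 1 - m)
      have h4 : k0 - 1 - (m : ℤ) + 1 = k0 - m := by ring
      rw [h4, a_sb ha k0 m] at h3
      rw [min_eq_right h, min_self, min_eq_left (tsub_le_self),
        ← hx _ _ le_rfl, ← hx _ _ (tsub_le_self), NNReal.coe_sub hu', ← h3,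
        NNReal.coe_add]
      have h5 : a (k0 - 1 - m) + ((T (k0 - 1 - m) ω : ℝ) - u) = a k0 - (sb T k0 m ω + u) := by
        linarith
      rw [h5]
      ring

theorem tend_sf {T : ℤ → Ω → ℝ≥0} {ω : Ω}
    (h : Tendsto (fun n : ℕ => ∑ k ∈ Finset.range n, T (k + 1) ω) atTop atTop) (n : ℕ) :
    Tendsto (fun m => sf T (-n) m ω) atTop atTop := by
  rw [← tendsto_add_atTop_iff_nat (n + 1)]
  have h1 : ∀ m, sf T (-n) (m + (n + 1)) ω = sf T (-n) (n + 1) ω +
      ∑ k ∈ Finset.range m, T (k + 1) ω := by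
    intro m
    rw [add_comm m, sf, Finset.sum_range_add]
    congr 1
    refine Finset.sum_congr rfl fun i _ => ?_
    congr 1
    push_cast
    ring
  simp_rw [h1]
  exact tendsto_atTop_mono (fun m => le_add_self) h

theorem tend_sb {T : ℤ → Ω → ℝ≥0} {ω : Ω}
    (h : Tendsto (fun n : ℕ => ∑ k ∈ Finset.range n, T (-(k + 1 : ℤ)) ω) atTop atTop) (n : ℕ) :
    Tendsto (fun m => sb T (-n) m ω) atTop atTop := by
  have h1 : ∀ m, ∑ k ∈ Finset.range (m + n), T (-(k + 1 : ℤ)) ω =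
      (∑ k ∈ Finset.range n, T (-(k + 1 : ℤ)) ω) + sb T (-n) m ω := by
    intro m
    rw [add_comm m, sb, Finset.sum_range_add]
    congr 1
    refine Finset.sum_congr rfl fun i _ => ?_
    congr 1
    push_cast
    ring
  have h2 := (tendsto_add_atTop_iff_nat n).2 h
  simp_rw [h1] at h2
  exact tendsto_atTop.2 fun b => ((tendsto_atTop.1 h2) (_ + b)).mono
    fun m hm => le_of_add_le_add_left hm

end Paths

section Final

variable {Ω : Type*} [mΩ : MeasurableSpace Ω]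

theorem meas_Zf {B : ℤ → ℝ≥0 → Ω → ℝ} {T : ℤ → Ω → ℝ≥0} {k0 : ℤ}
    (hc : ∀ k ω, Continuous (B k · ω))
    (hT : ∀ j : ℕ, Measurable (T (k0 + j)))
    (hb : ∀ (j : ℕ) u, Measurable (stp B T (k0 + j) u)) :
    Measurable (fun ω (t : ℝ≥0) => limsup (fun m => bf B T k0 m t ω) atTop) :=
  measurable_pi_lambda _ fun t => Measurable.limsup fun _ =>
    meas_bf hc (fun j _ => hT j) (fun j _ => hb j) t

theorem meas_Zb {B : ℤ → ℝ≥0 → Ω → ℝ} {T : ℤ → Ω → ℝ≥0} {k0 : ℤ}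
    (hc : ∀ k ω, Continuous (B k · ω))
    (hT : ∀ j : ℕ, Measurable (T (k0 - 1 - j)))
    (hb : ∀ (j : ℕ) u, Measurable (stp B T (k0 - 1 - j) u)) :
    Measurable (fun ω (t : ℝ≥0) => limsup (fun m => bb B T k0 m t ω) atTop) :=
  measurable_pi_lambda _ fun t => Measurable.limsup fun _ =>
    meas_bb hc (fun j _ => hT j) (fun j _ => hb j) t

end Final

end PT1b

open PT1b in
theorem decomp_regen {Ω : Type*} [mΩ : MeasurableSpace Ω]
    {P : Measure Ω} [IsProbabilityMeasure P] {X : ℝ → Ω → ℝ}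
    (hXm : ∀ t, Measurable (X t)) (hXc : ∀ ω, Continuous (X · ω)) (hX : IsDecomposable X P) :
    ∃ R : ℕ → Ω → ℝ, (∀ n, Measurable (R n)) ∧
      (∀ᵐ ω ∂P, Tendsto (fun n => R n ω) atTop atBot) ∧
      ∀ n, IsPreBrownianReal (fwd X (R n)) P ∧ IndepAt X (R n) P := by
  obtain ⟨U, F, B, T, S, hU, hP, hS0, hS1, hae⟩ := hX
  have hTm : ∀ k, Measurable (T k) := fun k => PT1a.meas_T (F k) (T k) (hP.stop k)
  have hBm : ∀ k t, Measurable (B k t) := fun k t => (hP.adapted k t).mono ((F k).le t) le_rfl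
  have hbm : ∀ k u, Measurable (stp B T k u) := fun k u =>
    meas_at (B k) (hBm k) (hP.cont k) _ (measurable_const.min (hTm k))
  have hle : ∀ k, GG B T k ≤ mΩ := fun k =>
    ((hTm k).prodMk (measurable_pi_lambda _ fun u => hbm k u)).comap_le
  have hii : iIndep (GG B T) P := hP.indep
  have hSneg : ∀ (n : ℕ) ω, S (-n) ω = -((∑ k ∈ Finset.range n, T (-(k + 1 : ℤ)) ω : ℝ≥0) : ℝ) := by
    intro n ω
    induction n with
    | zero => simp [hS0]
    | succ n ih =>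
      have h1 := hS1 (-(n + 1 : ℤ)) ω
      have h2 : -((n : ℤ) + 1) + 1 = -n := by ring
      rw [h2, ih] at h1
      rw [Finset.sum_range_succ, NNReal.coe_add]
      push_cast at h1 ⊢
      linarith
  have hSm : ∀ n : ℕ, Measurable (S (-n)) := by
    intro n
    have : S (-n) = fun ω => -((∑ k ∈ Finset.range n, T (-(k + 1 : ℤ)) ω : ℝ≥0) : ℝ) :=
      funext (hSneg n)
    rw [this]
    exact ((Finset.measurable_sum _ fun k _ => hTm _).coe_nnreal_real).neg
  have hRm : ∀ n : ℕ, Measurable (fun ω => U ω + S (-n) ω) := fun n => hU.add (hSm n)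
  -- the good event
  have hB0 : ∀ᵐ ω ∂P, ∀ k, B k 0 ω = 0 := ae_all_iff.2 fun k =>
    (hP.bm k).toIsPreBrownianReal.eval_zero_ae_eq_zero
  have hpc : ∀ᵐ ω ∂P, ∀ (k : ℤ) (t : ℝ≥0), t ≤ T k ω →
      X (U ω + S k ω + t) ω - X (U ω + S k ω) ω = B k t ω := by
    filter_upwards [hae, hB0] with ω h1 h2 k
    exact closed_piece (x := (X · ω)) (hXc ω) (hP.cont k ω) (h2 k) (h1 k)
  have hf : ∀ n : ℕ, ∀ᵐ ω ∂P, ∀ t : ℝ≥0, Tendsto (fun m => bf B T (-n) m t ω) atTop
      (𝓝 (fwd X (fun ω => U ω + S (-n) ω) t ω)) := by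
    intro n
    filter_upwards [hpc, hP.sum_right] with ω h1 h2 t
    have h3 := (tend_sf h2 n).eventually_ge_atTop t
    refine tendsto_const_nhds.congr' ?_
    filter_upwards [h3] with m hm
    have h4 := fwd_eq (B := B) (T := T) (ω := ω) (x := (X · ω)) (a := fun k => U ω + S k ω)
      (fun k => by rw [hS1]; ring) h1 (-n) m t
    rw [min_eq_left hm] at h4
    rw [← h4]
    rfl
  have hb : ∀ n : ℕ, ∀ᵐ ω ∂P, ∀ t : ℝ≥0, Tendsto (fun m => bb B T (-n) m t ω) atTop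
      (𝓝 (bwd X (fun ω => U ω + S (-n) ω) t ω)) := by
    intro n
    filter_upwards [hpc, hP.sum_left] with ω h1 h2 t
    have h3 := (tend_sb h2 n).eventually_ge_atTop t
    refine tendsto_const_nhds.congr' ?_
    filter_upwards [h3] with m hm
    have h4 := bwd_eq (B := B) (T := T) (ω := ω) (x := (X · ω)) (a := fun k => U ω + S k ω)
      (fun k => by rw [hS1]; ring) h1 (-n) m t
    rw [min_eq_left hm] at h4
    rw [← h4]
    rfl
  refine ⟨fun n ω => U ω + S (-n) ω, hRm, ?_, fun n => ⟨?_, ?_⟩⟩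
  · filter_upwards [hP.sum_left] with ω hω
    simp_rw [hSneg]
    refine tendsto_atBot_add_const_left _ _ ?_
    exact tendsto_neg_atTop_atBot.comp (NNReal.tendsto_coe_atTop.2 hω)
  · -- pre-Brownian
    have hYm : ∀ t, Measurable (fwd X (fun ω => U ω + S (-n) ω) t) := by
      intro t
      have hu : Measurable (Function.uncurry X) :=
        measurable_uncurry_of_continuous_of_measurable hXc hXm
      exact (hu.comp (((hRm n).add_const _).prodMk measurable_id)).sub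
        (hu.comp ((hRm n).prodMk measurable_id))
    refine pre_of_char _ hYm fun m c t => ?_
    set Y := fwd X (fun ω => U ω + S (-n) ω) with hY
    set K : ℝ := 1 / 2 * ∑ l, ∑ l', c l * c l' * (min (t l) (t l') : ℝ≥0) with hK
    have hlim : Tendsto (fun j : ℕ => ∫ ω, MM B T (-n) c t j ω ∂P) atTop
        (𝓝 (∫ ω, Complex.exp (Complex.I * (∑ l, c l * Y (t l) ω : ℝ) + (K : ℝ)) ∂P)) := by
      refine tendsto_integral_of_dominated_convergence (fun _ => PT1a.bd c t)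
        (fun j => (meas_MM hP.cont (fun j _ => hTm _) (fun j _ => hbm _) c t).aestronglyMeasurable)
        (integrable_const _) (fun j => ae_of_all _ fun ω => norm_MM_le B T _ c t j ω) ?_
      filter_upwards [hf n, hP.sum_right] with ω h1 h2
      have h3 := tend_sf h2 n
      have h4 : Tendsto (fun j : ℕ => ∑ l, c l * bf B T (-n) j (t l) ω) atTop
          (𝓝 (∑ l, c l * Y (t l) ω)) :=
        tendsto_finsetSum _ fun l _ => (h1 (t l)).const_mul _
      have h5 : Tendsto (fun j : ℕ => 1 / 2 * ∑ l, ∑ l', c l * c l' *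
          ((min (sf T (-n) j ω) (min (t l) (t l')) : ℝ≥0) : ℝ)) atTop (𝓝 K) := by
        refine Tendsto.const_mul _ (tendsto_finsetSum _ fun l _ => tendsto_finsetSum _ fun l' _ =>
          Tendsto.const_mul _ ?_)
        refine tendsto_const_nhds.congr' ?_
        filter_upwards [h3.eventually_ge_atTop (min (t l) (t l'))] with j hj
        rw [min_eq_right hj]
      have h6 : Continuous fun p : ℝ × ℝ => Complex.exp (Complex.I * (p.1 : ℂ) + (p.2 : ℂ)) := by
        fun_prop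
      have h7 := (h6.tendsto (∑ l, c l * Y (t l) ω, K)).comp (h4.prodMk_nhds h5)
      exact h7
    simp_rw [int_MM hP] at hlim
    have h1 := tendsto_nhds_unique hlim tendsto_const_nhds
    simp_rw [Complex.exp_add] at h1
    rw [integral_mul_const] at h1
    rw [eq_inv_of_mul_eq_one_left h1, ← Complex.exp_neg]
    push_cast
    rfl
  · -- independence
    set k0 : ℤ := -n with hk0
    have hGT : ∀ j : ℕ, Measurable[⨆ i ∈ Ici k0, GG B T i] (T (k0 + j)) := fun j =>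
      (GG_T B T (k0 + j)).mono (le_iSup₂_of_le (k0 + j) (by rw [mem_Ici]; omega) le_rfl) le_rfl
    have hGs : ∀ (j : ℕ) u, Measurable[⨆ i ∈ Ici k0, GG B T i] (stp B T (k0 + j) u) := fun j u =>
      (GG_stp B T (k0 + j) u).mono
        (le_iSup₂_of_le (k0 + j) (by rw [mem_Ici]; omega) le_rfl) le_rfl
    have hGT' : ∀ j : ℕ, Measurable[⨆ i ∈ Iio k0, GG B T i] (T (k0 - 1 - j)) := fun j =>
      (GG_T B T (k0 - 1 - j)).mono
        (le_iSup₂_of_le (k0 - 1 - j) (by rw [mem_Iio]; omega) le_rfl) le_rfl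
    have hGs' : ∀ (j : ℕ) u, Measurable[⨆ i ∈ Iio k0, GG B T i] (stp B T (k0 - 1 - j) u) :=
      fun j u => (GG_stp B T (k0 - 1 - j) u).mono
        (le_iSup₂_of_le (k0 - 1 - j) (by rw [mem_Iio]; omega) le_rfl) le_rfl
    have hind : Indep (⨆ i ∈ Ici k0, GG B T i) (⨆ i ∈ Iio k0, GG B T i) P :=
      indep_iSup_of_disjoint hle hii (by
        rw [Set.disjoint_left]; intro x h1 h2
        exact (not_lt.2 (mem_Ici.1 h1)) (mem_Iio.1 h2))
    have hI : IndepFun (fun ω (t : ℝ≥0) => limsup (fun m => bf B T k0 m t ω) atTop)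
        (fun ω (t : ℝ≥0) => limsup (fun m => bb B T k0 m t ω) atTop) P := by
      rw [IndepFun_iff_Indep]
      exact indep_of_indep_of_le_left (indep_of_indep_of_le_right hind
        (@meas_Zb Ω (⨆ i ∈ Iio k0, GG B T i) B T k0 hP.cont hGT' hGs').comap_le)
        (@meas_Zf Ω (⨆ i ∈ Ici k0, GG B T i) B T k0 hP.cont hGT hGs).comap_le
    refine hI.congr ?_ ?_
    · filter_upwards [hf n] with ω hω
      funext t
      exact (hω t).limsup_eq
    · filter_upwards [hb n] with ω hω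
      funext t
      exact (hω t).limsup_eq

end Pool.Agent.R970.FB
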