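import Pool.Agent.R970.FB.Defs2
import Pool.Agent.R970.FB.L2
import Pool.Agent.R970.FB.TS
import Pool.Agent.R970.FB.BM

set_option autoImplicit false

open scoped ENNReal NNReal Topology
open MeasureTheory ProbabilityTheory Set Filter
open ProbabilityTheory.BrownianReal

namespace Pool.Agent.R970.FB

variable {Ω : Type*} [mΩ : MeasurableSpace Ω]

/-- The path seen from the time `s`. -/
def seen (X : ℝ → Ω → ℝ) (p : Ω × ℝ) : ℝ → ℝ := fun t => X (p.2 + t) p.1 - X p.2 p.1

namespace PT2

/-! ### Evaluation -/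

/-- A jointly measurable evaluation, equal to the evaluation on continuous paths. -/
noncomputable def reg (w : ℝ≥0 → ℝ) (t : ℝ) : ℝ :=
  limsup (fun n : ℕ => w (Real.toNNReal ((⌊t * 2 ^ n⌋₊ : ℝ) / 2 ^ n))) atTop

lemma reg_eq {w : ℝ≥0 → ℝ} (hw : Continuous w) (t : ℝ) : reg w t = w t.toNNReal := by
  refine Tendsto.limsup_eq ?_
  refine (hw.tendsto _).comp ?_
  rcases le_total 0 t with ht | ht
  · refine (continuous_real_toNNReal.tendsto t).comp ?_
    exact (tendsto_nat_floor_mul_div_atTop ht).comp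
      (tendsto_pow_atTop_atTop_of_one_lt (one_lt_two : (1 : ℝ) < 2))
  · have e : ∀ n : ℕ, Real.toNNReal ((⌊t * 2 ^ n⌋₊ : ℝ) / 2 ^ n) = t.toNNReal := by
      intro n
      have h1 : t * 2 ^ n ≤ 0 := mul_nonpos_of_nonpos_of_nonneg ht (by positivity)
      rw [Nat.floor_of_nonpos h1, Real.toNNReal_of_nonpos ht]
      simp
    simp only [e]
    exact tendsto_const_nhds

lemma measurable_reg : Measurable (fun q : (ℝ≥0 → ℝ) × ℝ => reg q.1 q.2) := by
  unfold reg
  refine Measurable.limsup fun n => ?_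
  have h1 : Measurable (fun r : (ℝ≥0 → ℝ) × ℕ => r.1 (Real.toNNReal ((r.2 : ℝ) / 2 ^ n))) :=
    measurable_from_prod_countable_left fun k =>
      measurable_pi_apply (Real.toNNReal ((k : ℝ) / 2 ^ n))
  have h2 : Measurable (fun q : (ℝ≥0 → ℝ) × ℝ => (q.1, ⌊q.2 * 2 ^ n⌋₊)) :=
    measurable_fst.prodMk (Nat.measurable_floor.comp (measurable_snd.mul_const _))
  exact h1.comp h2

/-- The path with the past `p.1` and the future `p.2`. -/
noncomputable def glue (p : (ℝ≥0 → ℝ) × (ℝ≥0 → ℝ)) (t : ℝ) : ℝ := reg p.2 t + reg p.1 (-t)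

lemma measurable_glue :
    Measurable (fun q : ((ℝ≥0 → ℝ) × (ℝ≥0 → ℝ)) × ℝ => glue q.1 q.2) := by
  have h1 : Measurable (fun q : ((ℝ≥0 → ℝ) × (ℝ≥0 → ℝ)) × ℝ => (q.1.2, q.2)) :=
    (measurable_snd.comp measurable_fst).prodMk measurable_snd
  have h2 : Measurable (fun q : ((ℝ≥0 → ℝ) × (ℝ≥0 → ℝ)) × ℝ => (q.1.1, -q.2)) :=
    (measurable_fst.comp measurable_fst).prodMk measurable_snd.neg
  have h3 := measurable_reg.comp h1
  have h4 := measurable_reg.comp h2
  exact Measurable.add h3 h4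

/-- The glued path seen from the time `s`. -/
noncomputable def sg (q : ((ℝ≥0 → ℝ) × (ℝ≥0 → ℝ)) × ℝ) : ℝ → ℝ :=
  fun t => glue q.1 (q.2 + t) - glue q.1 q.2

lemma measurable_sg : Measurable sg := by
  refine measurable_pi_lambda _ fun t => ?_
  have h1 : Measurable (fun q : ((ℝ≥0 → ℝ) × (ℝ≥0 → ℝ)) × ℝ => (q.1, q.2 + t)) :=
    measurable_fst.prodMk (measurable_snd.add_const t)
  have h2 := measurable_glue.comp h1
  exact Measurable.sub h2 measurable_glue

/-- The pairs (past, future) for which the set is missed. -/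
def J (A : Set (ℝ → ℝ)) : Set ((ℝ≥0 → ℝ) × (ℝ≥0 → ℝ)) :=
  {p | volume {s : ℝ | sg (p, s) ∈ A} = 0}

lemma measurableSet_J {A : Set (ℝ → ℝ)} (hA : MeasurableSet A) : MeasurableSet (J A) := by
  have h1 : MeasurableSet (sg ⁻¹' A) := measurable_sg hA
  exact (measurable_measure_prodMk_left (ν := (volume : Measure ℝ)) h1) (measurableSet_singleton 0)

/-- The past of a path. -/
def past (x : ℝ → ℝ) (τ : ℝ) (t : ℝ≥0) : ℝ := x (τ - t) - x τ

/-- The future of a path. -/
def fut (x : ℝ → ℝ) (τ : ℝ) (t : ℝ≥0) : ℝ := x (τ + t) - x τ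

lemma continuous_past {x : ℝ → ℝ} (hx : Continuous x) (τ : ℝ) : Continuous (past x τ) := by
  unfold past
  fun_prop

lemma continuous_fut {x : ℝ → ℝ} (hx : Continuous x) (τ : ℝ) : Continuous (fut x τ) := by
  unfold fut
  fun_prop

lemma glue_eq {x : ℝ → ℝ} (hx : Continuous x) (τ t : ℝ) :
    glue (past x τ, fut x τ) t = x (τ + t) - x τ := by
  unfold glue
  rw [reg_eq (continuous_past hx τ), reg_eq (continuous_fut hx τ)]
  unfold past fut
  rcases le_total 0 t with ht | ht
  · rw [Real.coe_toNNReal _ ht, Real.toNNReal_of_nonpos (by linarith : -t ≤ 0)]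
    simp
  · rw [Real.coe_toNNReal _ (by linarith : 0 ≤ -t), Real.toNNReal_of_nonpos ht]
    simp

lemma sg_eq {x : ℝ → ℝ} (hx : Continuous x) (τ s : ℝ) :
    sg ((past x τ, fut x τ), s) = fun t => x (τ + s + t) - x (τ + s) := by
  funext t
  unfold sg
  simp only [glue_eq hx]
  rw [add_assoc]
  ring

lemma mem_J {x : ℝ → ℝ} (hx : Continuous x) (τ : ℝ) (A : Set (ℝ → ℝ)) :
    (past x τ, fut x τ) ∈ J A ↔ volume {s : ℝ | (fun t => x (s + t) - x s) ∈ A} = 0 := by
  have e : {s : ℝ | sg ((past x τ, fut x τ), s) ∈ A} =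
      (fun s => τ + s) ⁻¹' {s : ℝ | (fun t => x (s + t) - x s) ∈ A} := by
    ext s
    simp only [sg_eq hx]
    rfl
  change volume {s : ℝ | sg ((past x τ, fut x τ), s) ∈ A} = 0 ↔ _
  rw [e, measure_preimage_add]

/-! ### Independence -/

lemma indep_assoc {α β γ : Type*} [MeasurableSpace α] [MeasurableSpace β] [MeasurableSpace γ]
    {P : Measure Ω} [IsProbabilityMeasure P] {U : Ω → α} {V : Ω → β} {Z : Ω → γ}
    (hU : Measurable U) (hV : Measurable V) (hZ : Measurable Z)
    (h1 : IndepFun U (fun ω => (V ω, Z ω)) P) (h2 : IndepFun V Z P) :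
    IndepFun (fun ω => (U ω, V ω)) Z P := by
  have h3 : IndepFun U V P := h1.comp measurable_id measurable_fst
  rw [indepFun_iff_map_prod_eq_prod_map_map (by fun_prop) (by fun_prop)] at h1 h2 h3 ⊢
  rw [h2, ← Measure.prodAssoc_prod] at h1
  have e : (fun ω => ((U ω, V ω), Z ω)) =
      MeasurableEquiv.prodAssoc.symm ∘ (fun ω => (U ω, (V ω, Z ω))) := rfl
  rw [e, ← Measure.map_map (MeasurableEquiv.measurable _) (by fun_prop), h1, h3,
    Measure.map_map (MeasurableEquiv.measurable _) (MeasurableEquiv.measurable _)]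
  rw [MeasurableEquiv.symm_comp_self, Measure.map_id]

/-! ### The two-sided process -/

lemma measurable_seen {X : ℝ → Ω → ℝ} (hXm : ∀ t, Measurable (X t))
    (hXc : ∀ ω, Continuous (X · ω)) : Measurable (seen X) := by
  have h0 : Measurable (fun p : Ω × ℝ => X p.2 p.1) :=
    (measurable_uncurry_of_continuous_of_measurable hXc hXm).comp measurable_swap
  refine measurable_pi_lambda _ fun t => ?_
  have h1 : Measurable (fun p : Ω × ℝ => (p.1, p.2 + t)) :=
    measurable_fst.prodMk (measurable_snd.add_const t)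
  exact (h0.comp h1).sub h0

/-- Plain gluing. -/
def glue0 (p : (ℝ≥0 → ℝ) × (ℝ≥0 → ℝ)) (t : ℝ) : ℝ := p.2 t.toNNReal + p.1 (-t).toNNReal

lemma measurable_glue0 : Measurable glue0 := by
  refine measurable_pi_lambda _ fun t => ?_
  exact ((measurable_pi_apply _).comp measurable_snd).add
    ((measurable_pi_apply _).comp measurable_fst)

lemma glue0_eq (x : ℝ → ℝ) (τ t : ℝ) : glue0 (past x τ, fut x τ) t = x (τ + t) - x τ := by
  unfold glue0 past fut
  rcases le_total 0 t with ht | ht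
  · simp only [Real.coe_toNNReal _ ht, Real.toNNReal_of_nonpos (by linarith : -t ≤ 0)]
    simp
  · simp only [Real.coe_toNNReal _ (by linarith : 0 ≤ -t), Real.toNNReal_of_nonpos ht]
    simp

section TS

variable {Ω' : Type*} [MeasurableSpace Ω'] {P' : Measure Ω'} [IsProbabilityMeasure P']
    {Y : ℝ → Ω' → ℝ}

lemma ts_pair {W : Measure (ℝ≥0 → ℝ)} (hW : IsW W) (hY : IsTS Y P') (hYm : ∀ t, Measurable (Y t))
    (s : ℝ) :
    P'.map (fun ω => (past (fun t => Y t ω) s, fut (fun t => Y t ω) s)) = W.prod W := by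
  have hm1 : ∀ t : ℝ≥0, Measurable (fun ω => past (fun t => Y t ω) s t) := fun t =>
    (hYm _).sub (hYm _)
  have hm2 : ∀ t : ℝ≥0, Measurable (fun ω => fut (fun t => Y t ω) s t) := fun t =>
    (hYm _).sub (hYm _)
  have h2 : IndepFun (fun ω => past (fun t => Y t ω) s) (fun ω => fut (fun t => Y t ω) s) P' :=
    (hY.indep s).symm
  rw [indepFun_iff_map_prod_eq_prod_map_map (measurable_pi_lambda _ hm1).aemeasurable
    (measurable_pi_lambda _ hm2).aemeasurable] at h2
  rw [h2]
  have h3 : P'.map (fun ω => past (fun t => Y t ω) s) = W :=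
    (isPreBrownianReal_iff hW hm1).1 (hY.bwd s)
  have h4 : P'.map (fun ω => fut (fun t => Y t ω) s) = W :=
    (isPreBrownianReal_iff hW hm2).1 (hY.fwd s)
  rw [h3, h4]

lemma measurable_pair (hYm : ∀ t, Measurable (Y t)) (s : ℝ) :
    Measurable (fun ω => (past (fun t => Y t ω) s, fut (fun t => Y t ω) s)) :=
  (measurable_pi_lambda _ fun _ => (hYm _).sub (hYm _)).prodMk
    (measurable_pi_lambda _ fun _ => (hYm _).sub (hYm _))

lemma ts_law {W : Measure (ℝ≥0 → ℝ)} (hW : IsW W) (hY : IsTS Y P') (hYm : ∀ t, Measurable (Y t))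
    (s : ℝ) : P'.map (fun ω => seen Y (ω, s)) = (W.prod W).map glue0 := by
  rw [← ts_pair hW hY hYm s, Measure.map_map measurable_glue0 (measurable_pair hYm s)]
  congr 1
  funext ω
  funext t
  exact (glue0_eq (fun t => Y t ω) s t).symm

omit [IsProbabilityMeasure P'] in
lemma ts_indep (hY : IsTS Y P') {C : Set (ℝ → ℝ)} (hC : C ∈ measurableCylinders (fun _ : ℝ => ℝ)) :
    ∃ m : ℝ, ∀ s t, m < |s - t| →
      P' {ω | seen Y (ω, s) ∈ C ∧ seen Y (ω, t) ∈ C} =
        P' {ω | seen Y (ω, s) ∈ C} * P' {ω | seen Y (ω, t) ∈ C} := by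
  obtain ⟨I, S, hS, rfl⟩ := (mem_measurableCylinders C).1 hC
  set M : ℝ := ∑ i ∈ I, |i| with hM
  have hM0 : 0 ≤ M := Finset.sum_nonneg fun i _ => abs_nonneg i
  have hMi : ∀ i ∈ I, |i| ≤ M := fun i hi =>
    Finset.single_le_sum (f := fun i => |i|) (fun j _ => abs_nonneg j) hi
  refine ⟨2 * M, fun s t hst => ?_⟩
  have h1 := hY.iIndep (ι := Bool) (fun b => cond b (s - M) (t - M))
    (fun b => cond b (s + M) (t + M)) (by
      intro i j hij
      rcases le_total s t with h | h
      · have h2 : s + M ≤ t - M := by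
          rw [abs_of_nonpos (by linarith)] at hst
          linarith
        cases i <;> cases j
        · exact absurd rfl hij
        · exact Or.inr h2
        · exact Or.inl h2
        · exact absurd rfl hij
      · have h2 : t + M ≤ s - M := by
          rw [abs_of_nonneg (by linarith)] at hst
          linarith
        cases i <;> cases j
        · exact absurd rfl hij
        · exact Or.inl h2
        · exact Or.inr h2
        · exact absurd rfl hij)
  have h2 := h1.indepFun (i := true) (j := false) (by decide)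
  have hmem : ∀ (r : ℝ) (i : I), r + i ∈ Icc (r - M) (r + M) := by
    intro r i
    have := abs_le.1 (hMi i i.2)
    constructor <;> linarith
  have hmem0 : ∀ r : ℝ, r ∈ Icc (r - M) (r + M) := fun r => by constructor <;> linarith
  let φ : ∀ r : ℝ, (Icc (r - M) (r + M) → ℝ) → (I → ℝ) := fun r x i =>
    x ⟨r + i, hmem r i⟩ - x ⟨r, hmem0 r⟩
  have hφ : ∀ r, Measurable (φ r) := fun r =>
    measurable_pi_lambda _ fun i => (measurable_pi_apply _).sub (measurable_pi_apply _)
  have h3 := h2.comp (hφ s) (hφ t)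
  have e : ∀ r : ℝ, ∀ ω, φ r (fun x : Icc (r - M) (r + M) => Y x ω - Y (r - M) ω) =
      I.restrict (seen Y (ω, r)) := by
    intro r ω
    funext i
    simp only [φ, seen, Finset.restrict]
    ring
  have h4 := h3.measure_inter_preimage_eq_mul S S hS hS
  have e2 : ∀ r : ℝ, (φ r ∘ fun ω (x : Icc (r - M) (r + M)) => Y x ω - Y (r - M) ω) ⁻¹' S =
      {ω | seen Y (ω, r) ∈ cylinder I S} := by
    intro r
    ext ω
    change φ r (fun x : Icc (r - M) (r + M) => Y x ω - Y (r - M) ω) ∈ S ↔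
      I.restrict (seen Y (ω, r)) ∈ S
    rw [e]
  have h5 : P' ({ω | seen Y (ω, s) ∈ cylinder I S} ∩ {ω | seen Y (ω, t) ∈ cylinder I S}) =
      P' {ω | seen Y (ω, s) ∈ cylinder I S} * P' {ω | seen Y (ω, t) ∈ cylinder I S} := by
    rw [← e2 s, ← e2 t]
    exact h4
  exact h5

theorem ts_hits (hY : IsTS Y P') (hYm : ∀ t, Measurable (Y t)) (hYc : ∀ ω, Continuous (Y · ω))
    (hY0 : ∀ ω, Y 0 ω = 0) {A : Set (ℝ → ℝ)} (hA : MeasurableSet A)
    (hYA : P' {ω | (fun t => Y t ω) ∈ A} ≠ 0) :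
    P' {ω | volume {s : ℝ | seen Y (ω, s) ∈ A} = 0} = 0 := by
  obtain ⟨W, hW⟩ := exists_isW
  have hlaw := ts_law hW hY hYm
  set Λ : Measure (ℝ → ℝ) := (W.prod W).map glue0 with hΛ
  have hsm : ∀ s, Measurable (fun ω => seen Y (ω, s)) := fun s =>
    (measurable_seen hYm hYc).comp (measurable_id.prodMk measurable_const)
  have hΛp : IsProbabilityMeasure Λ := by
    rw [← hlaw 0]
    exact Measure.isProbabilityMeasure_map (hsm 0).aemeasurable
  have hst : ∀ s, ∀ C, MeasurableSet C → P' {ω | seen Y (ω, s) ∈ C} = Λ C := by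
    intro s C hC
    rw [← hlaw s, Measure.map_apply (hsm s) hC]
    rfl
  have hAm : ∀ C ∈ measurableCylinders (fun _ : ℝ => ℝ), MeasurableSet C := fun C hC =>
    MeasurableSet.of_mem_measurableCylinders hC
  have hΛA : Λ A ≠ 0 := by
    rw [← hst 0 A hA]
    have e : {ω | seen Y (ω, 0) ∈ A} = {ω | (fun t => Y t ω) ∈ A} := by
      ext ω
      have : seen Y (ω, 0) = fun t => Y t ω := by
        funext t
        simp only [seen, zero_add, hY0, sub_zero]
      change seen Y (ω, 0) ∈ A ↔ _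
      rw [this]
      rfl
    rw [e]
    exact hYA
  have key := recur P' Λ (measurableCylinders (fun _ : ℝ => ℝ)) isSetAlgebra_measurableCylinders
    generateFrom_measurableCylinders.symm (seen Y) (measurable_seen hYm hYc) (fun _ => 0)
    (fun j => (j : ℝ)) (by simpa using tendsto_natCast_atTop_atTop)
    (by
      intro C hC
      obtain ⟨m, hm⟩ := ts_indep hY hC
      refine ⟨m, Eventually.of_forall fun j => ⟨fun s _ => hst s C (hAm C hC), ?_⟩⟩
      intro s _ t _ hst'
      rw [hm s t hst', hst s C (hAm C hC), hst t C (hAm C hC)])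
    1 (by simp)
    (by
      intro j C hC
      have e : (∫⁻ s in Ioo (0 : ℝ) j, P' {ω | seen Y (ω, s) ∈ C}) =
          Λ C * ENNReal.ofReal ((j : ℝ) - 0) := by
        simp only [hst _ C (hAm C hC)]
        rw [lintegral_const, Measure.restrict_apply_univ, Real.volume_Ioo]
      rw [e, mul_pow, one_mul]
      refine mul_le_mul' ?_ le_rfl
      rw [pow_two]
      exact mul_le_of_le_one_left' prob_le_one)
    A hA hΛA
  refine le_antisymm (ge_of_tendsto key (Eventually.of_forall fun j => measure_mono ?_)) bot_le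
  intro ω hω
  have hω' : volume {s : ℝ | seen Y (ω, s) ∈ A} = 0 := hω
  exact measure_mono_null (fun s hs => hs.2) hω'

/-- Under the product Wiener measure the set is hit. -/
theorem prod_J {W : Measure (ℝ≥0 → ℝ)} (hW : IsW W) (hY : IsTS Y P') (hYm : ∀ t, Measurable (Y t))
    (hYc : ∀ ω, Continuous (Y · ω))
    (hY0 : ∀ ω, Y 0 ω = 0) {A : Set (ℝ → ℝ)} (hA : MeasurableSet A)
    (hYA : P' {ω | (fun t => Y t ω) ∈ A} ≠ 0) : (W.prod W) (J A) = 0 := by
  rw [← ts_pair hW hY hYm 0, Measure.map_apply (measurable_pair hYm 0) (measurableSet_J hA)]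
  refine measure_mono_null ?_ (ts_hits hY hYm hYc hY0 hA hYA)
  intro ω hω
  exact (mem_J (hYc ω) 0 A).1 hω

end TS

/-! ### Past and future of the process -/

section Main

variable {P : Measure Ω} [IsProbabilityMeasure P] {X : ℝ → Ω → ℝ}

/-- Past and future of the process, as functions of the chance and the time. -/
def pastm (X : ℝ → Ω → ℝ) (p : Ω × ℝ) : ℝ≥0 → ℝ := past (fun t => X t p.1) p.2

lemma measurable_pastm (hXm : ∀ t, Measurable (X t)) (hXc : ∀ ω, Continuous (X · ω)) :
    Measurable (pastm X) := by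
  have h0 := measurable_seen hXm hXc
  refine measurable_pi_lambda _ fun t => ?_
  have h1 : Measurable (fun p => seen X p (-(t : ℝ))) := (measurable_pi_apply _).comp h0
  exact h1

/-- Weak Markov property at a regeneration time. -/
lemma markov {W : Measure (ℝ≥0 → ℝ)} (hW : IsW W) (hXm : ∀ t, Measurable (X t))
    (hXc : ∀ ω, Continuous (X · ω)) {R : Ω → ℝ} (hRm : Measurable R)
    (hRf : IsPreBrownianReal (fwd X R) P) (hRi : IndepAt X R P) (s : ℝ≥0) :
    P.map (fun ω => (past (fun t => X t ω) (R ω + s), fut (fun t => X t ω) (R ω + s))) =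
      (P.map (fun ω => pastm X (ω, R ω + s))).prod W := by
  have hev : Measurable (fun p : Ω × ℝ => X p.2 p.1) :=
    (measurable_uncurry_of_continuous_of_measurable hXc hXm).comp measurable_swap
  have hXR : ∀ f : Ω → ℝ, Measurable f → Measurable (fun ω => X (f ω) ω) := fun f hf =>
    hev.comp (measurable_id.prodMk hf)
  have hfwdm : ∀ t, Measurable (fwd X R t) := fun t =>
    (hXR _ (hRm.add_const _)).sub (hXR _ hRm)
  have hbwdm : ∀ t, Measurable (bwd X R t) := fun t =>
    (hXR _ (hRm.sub_const _)).sub (hXR _ hRm)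
  let U : Ω → (ℝ≥0 → ℝ) := fun ω t => bwd X R t ω
  let V : Ω → (Iic s → ℝ) := fun ω t => fwd X R t ω
  let Z : Ω → (ℝ≥0 → ℝ) := fun ω t => fwd X R (s + t) ω - fwd X R s ω
  have hU : Measurable U := measurable_pi_lambda _ fun t => hbwdm t
  have hV : Measurable V := measurable_pi_lambda _ fun t => hfwdm t
  have hZm : ∀ t, Measurable (fun ω => fwd X R (s + t) ω - fwd X R s ω) := fun t =>
    (hfwdm _).sub (hfwdm _)
  have hZ : Measurable Z := measurable_pi_lambda _ hZm
  have h2 : IndepFun V Z P := (hRf.indepFun_shift s).symm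
  have h1 : IndepFun U (fun ω => (V ω, Z ω)) P := by
    let φ : (ℝ≥0 → ℝ) → (Iic s → ℝ) × (ℝ≥0 → ℝ) := fun b => (fun t => b t, fun t => b (s + t) - b s)
    have hφ : Measurable φ :=
      (measurable_pi_lambda _ fun t => measurable_pi_apply _).prodMk
        (measurable_pi_lambda _ fun t => (measurable_pi_apply _).sub (measurable_pi_apply _))
    exact (hRi.comp hφ measurable_id).symm
  have h3 : IndepFun (fun ω => (U ω, V ω)) Z P := indep_assoc hU hV hZ h1 h2
  have hZlaw : P.map Z = W := (isPreBrownianReal_iff hW hZm).1 (hRf.shift s)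
  -- the past from `R + s` is a function of `U` and `V`
  let ψ : (ℝ≥0 → ℝ) × (Iic s → ℝ) → (ℝ≥0 → ℝ) := fun q t =>
    q.2 ⟨s - t, mem_Iic.2 tsub_le_self⟩ + q.1 (t - s) - q.2 ⟨s, mem_Iic.2 le_rfl⟩
  have hψ : Measurable ψ := by
    refine measurable_pi_lambda _ fun t => ?_
    have m1 : Measurable (fun q : (ℝ≥0 → ℝ) × (Iic s → ℝ) =>
        q.2 ⟨s - t, mem_Iic.2 tsub_le_self⟩) := (measurable_pi_apply _).comp measurable_snd
    have m2 : Measurable (fun q : (ℝ≥0 → ℝ) × (Iic s → ℝ) => q.1 (t - s)) :=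
      (measurable_pi_apply _).comp measurable_fst
    have m3 : Measurable (fun q : (ℝ≥0 → ℝ) × (Iic s → ℝ) =>
        q.2 ⟨s, mem_Iic.2 le_rfl⟩) := (measurable_pi_apply _).comp measurable_snd
    exact (m1.add m2).sub m3
  have e1 : (fun ω => pastm X (ω, R ω + s)) = ψ ∘ (fun ω => (U ω, V ω)) := by
    funext ω t
    change X (R ω + s - t) ω - X (R ω + s) ω =
      (X (R ω + ((s - t : ℝ≥0) : ℝ)) ω - X (R ω) ω) + (X (R ω - ((t - s : ℝ≥0) : ℝ)) ω - X (R ω) ω)
        - (X (R ω + s) ω - X (R ω) ω)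
    rcases le_total s t with h | h
    · rw [tsub_eq_zero_of_le h, NNReal.coe_sub h]
      have e2 : R ω + s - t = R ω - (t - s) := by ring
      rw [e2, NNReal.coe_zero, add_zero]
      ring
    · rw [tsub_eq_zero_of_le h, NNReal.coe_sub h]
      have e2 : R ω + s - t = R ω + (s - t) := by ring
      rw [e2, NNReal.coe_zero, sub_zero]
      ring
  have e2 : (fun ω => fut (fun t => X t ω) (R ω + s)) = Z := by
    funext ω t
    change X (R ω + s + t) ω - X (R ω + s) ω =
      (X (R ω + ((s + t : ℝ≥0) : ℝ)) ω - X (R ω) ω) - (X (R ω + s) ω - X (R ω) ω)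
    rw [NNReal.coe_add, add_assoc]
    ring
  have h4 : IndepFun (fun ω => pastm X (ω, R ω + s)) (fun ω => fut (fun t => X t ω) (R ω + s)) P := by
    rw [e1, e2]
    exact h3.comp hψ measurable_id
  have hm1 : Measurable (fun ω => pastm X (ω, R ω + s)) := by
    rw [e1]
    exact hψ.comp (hU.prodMk hV)
  have hm2 : Measurable (fun ω => fut (fun t => X t ω) (R ω + s)) := by
    rw [e2]
    exact hZ
  have h5 := (indepFun_iff_map_prod_eq_prod_map_map hm1.aemeasurable hm2.aemeasurable).1 h4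
  rw [show P.map (fun ω => fut (fun t => X t ω) (R ω + s)) = W by rw [e2]; exact hZlaw] at h5
  exact h5

end Main

end PT2

open PT2 in
theorem hits2 {P : Measure Ω} [IsProbabilityMeasure P] {X : ℝ → Ω → ℝ}
    (hXm : ∀ t, Measurable (X t)) (hXc : ∀ ω, Continuous (X · ω))
    (R : ℕ → Ω → ℝ) (hRm : ∀ n, Measurable (R n))
    (hR : ∀ᵐ ω ∂P, Tendsto (fun n => R n ω) atTop atBot)
    (hRf : ∀ n, IsPreBrownianReal (fwd X (R n)) P) (hRi : ∀ n, IndepAt X (R n) P)
    (R' : Ω → ℝ) (hR'm : Measurable R') (hR'b : IsPreBrownianReal (bwd X R') P)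
    {Ω' : Type*} [MeasurableSpace Ω'] {P' : Measure Ω'} [IsProbabilityMeasure P']
    {Y : ℝ → Ω' → ℝ} (hY : IsTS Y P') (hYm : ∀ t, Measurable (Y t))
    (hYc : ∀ ω, Continuous (Y · ω)) (hY0 : ∀ ω, Y 0 ω = 0)
    (A : Set (ℝ → ℝ)) (hA : MeasurableSet A) (hYA : P' {ω | (fun t => Y t ω) ∈ A} ≠ 0) :
    ∀ᵐ ω ∂P, volume {s : ℝ | seen X (ω, s) ∈ A} ≠ 0 := by
  obtain ⟨W, hW⟩ := exists_isW
  have hWp : IsProbabilityMeasure W := by
    rw [← (isPreBrownianReal_iff hW (P := P')
      (B := fun (t : ℝ≥0) ω => Y (0 + t) ω - Y 0 ω) (fun t => (hYm _).sub (hYm _))).1 (hY.fwd 0)]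
    exact Measure.isProbabilityMeasure_map
      (measurable_pi_lambda _ fun t => (hYm _).sub (hYm _)).aemeasurable
  have hJ := measurableSet_J hA
  let g : (ℝ≥0 → ℝ) → ℝ≥0∞ := fun w => W (Prod.mk w ⁻¹' J A)
  have hgm : Measurable g := measurable_measure_prodMk_left hJ
  have hg0 : g =ᵐ[W] 0 := (Measure.measure_prod_null hJ).1 (prod_J hW hY hYm hYc hY0 hA hYA)
  have hg1 : ∀ w, g w ≤ 1 := fun w => prob_le_one
  have hpm := measurable_pastm hXm hXc
  let G : Ω × ℝ → ℝ≥0∞ := fun p => g (pastm X p)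
  have hG : Measurable G := hgm.comp hpm
  have hG1 : ∀ p, G p ≤ 1 := fun p => hg1 _
  have hev : Measurable (fun p : Ω × ℝ => X p.2 p.1) :=
    (measurable_uncurry_of_continuous_of_measurable hXc hXm).comp measurable_swap
  have hXR : ∀ f : Ω → ℝ, Measurable f → Measurable (fun ω => X (f ω) ω) := fun f hf =>
    hev.comp (measurable_id.prodMk hf)
  -- (b)
  have hb : ∀ r : ℝ, 0 < r → ∀ᵐ ω ∂P, G (ω, R' ω - r) = 0 := by
    intro r hr
    lift r to ℝ≥0 using hr.le
    have hbwdm : ∀ t, Measurable (bwd X R' t) := fun t =>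
      (hXR _ (hR'm.sub_const _)).sub (hXR _ hR'm)
    have h2 : ∀ t : ℝ≥0, Measurable (fun ω => bwd X R' (r + t) ω - bwd X R' r ω) := fun t =>
      (hbwdm _).sub (hbwdm _)
    have h3 : P.map (fun ω t => bwd X R' (r + t) ω - bwd X R' r ω) = W :=
      (isPreBrownianReal_iff hW h2).1 (hR'b.shift r)
    have h4 : (fun ω => pastm X (ω, R' ω - r)) =
        fun ω t => bwd X R' (r + t) ω - bwd X R' r ω := by
      funext ω t
      change X (R' ω - r - t) ω - X (R' ω - r) ω =
        (X (R' ω - ((r + t : ℝ≥0) : ℝ)) ω - X (R' ω) ω) - (X (R' ω - r) ω - X (R' ω) ω)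
      rw [NNReal.coe_add, ← sub_sub]
      ring
    have h5 : ∀ᵐ w ∂(P.map (fun ω => pastm X (ω, R' ω - r))), g w = 0 := by
      rw [h4, h3]
      exact hg0
    have h6 : Measurable (fun ω => pastm X (ω, R' ω - r)) :=
      hpm.comp (measurable_id.prodMk (hR'm.sub_const _))
    exact ae_of_ae_map h6.aemeasurable h5
  let K : Ω × ℝ → ℝ≥0∞ := fun p => if p.2 < R' p.1 then G p else 0
  have hK : Measurable K :=
    Measurable.ite (measurableSet_lt measurable_snd (hR'm.comp measurable_fst)) hG measurable_const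
  have hK0 : ∀ᵐ ω ∂P, ∫⁻ τ, K (ω, τ) = 0 := by
    have hm : Measurable (fun ω => ∫⁻ τ, K (ω, τ)) := hK.lintegral_prod_right'
    refine (lintegral_eq_zero_iff hm).1 ?_
    have e1 : ∀ ω, ∫⁻ τ, K (ω, τ) = ∫⁻ r, K (ω, R' ω - r) := fun ω =>
      (lintegral_sub_left_eq_self (fun τ => K (ω, τ)) (R' ω)).symm
    simp only [e1]
    have hK2 : Measurable (fun p : Ω × ℝ => K (p.1, R' p.1 - p.2)) :=
      hK.comp (measurable_fst.prodMk ((hR'm.comp measurable_fst).sub measurable_snd))
    rw [lintegral_lintegral_swap (f := fun ω r => K (ω, R' ω - r)) hK2.aemeasurable]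
    have e2 : ∀ r, ∫⁻ ω, K (ω, R' ω - r) ∂P = 0 := by
      intro r
      have hKr : Measurable (fun ω => K (ω, R' ω - r)) :=
        hK.comp (measurable_id.prodMk (hR'm.sub_const r))
      rw [lintegral_eq_zero_iff hKr]
      rcases le_or_gt r 0 with hr | hr
      · refine Eventually.of_forall fun ω => ?_
        have : ¬ (R' ω - r < R' ω) := by linarith
        exact if_neg this
      · filter_upwards [hb r hr] with ω hω
        have : R' ω - r < R' ω := by linarith
        exact (if_pos this).trans hω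
    simp only [e2, lintegral_zero]
  -- (c)
  set a : ℝ≥0∞ := P {ω | volume {s : ℝ | seen X (ω, s) ∈ A} = 0} with ha
  have hc : ∀ n, ∀ s : ℝ, 0 ≤ s → a = ∫⁻ ω, G (ω, R n ω + s) ∂P := by
    intro n s hs
    lift s to ℝ≥0 using hs
    have hm1 : Measurable (fun ω => pastm X (ω, R n ω + s)) :=
      hpm.comp (measurable_id.prodMk ((hRm n).add_const _))
    have hm2 : Measurable (fun ω => fut (fun t => X t ω) (R n ω + s)) :=
      measurable_pi_lambda _ fun t =>
        (hXR _ (((hRm n).add_const _).add_const _)).sub (hXR _ ((hRm n).add_const _))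
    have h1 := markov hW hXm hXc (hRm n) (hRf n) (hRi n) s
    have h2 : a = (P.map (fun ω => (past (fun t => X t ω) (R n ω + s),
        fut (fun t => X t ω) (R n ω + s)))) (J A) := by
      have hm3 : Measurable (fun ω => (past (fun t => X t ω) (R n ω + s),
        fut (fun t => X t ω) (R n ω + s))) := hm1.prodMk hm2
      rw [Measure.map_apply hm3 hJ, ha]
      congr 1
      ext ω
      exact (mem_J (hXc ω) (R n ω + s) A).symm
    rw [h2, h1, Measure.prod_apply hJ, lintegral_map hgm hm1]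
  -- (d)
  have hd : ∀ n, a ≤ P {ω | R' ω ≤ R n ω + 1} := by
    intro n
    have hGn : Measurable (fun p : Ω × ℝ => G (p.1, R n p.1 + p.2)) :=
      hG.comp (measurable_fst.prodMk (((hRm n).comp measurable_fst).add measurable_snd))
    have h1 : a = ∫⁻ s in Icc (0 : ℝ) 1, ∫⁻ ω, G (ω, R n ω + s) ∂P := by
      have : ∫⁻ s in Icc (0 : ℝ) 1, ∫⁻ ω, G (ω, R n ω + s) ∂P = ∫⁻ s in Icc (0 : ℝ) 1, a :=
        setLIntegral_congr_fun measurableSet_Icc fun s hs => (hc n s hs.1).symm
      rw [this, lintegral_const, Measure.restrict_apply_univ, Real.volume_Icc]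
      simp
    rw [h1, ← lintegral_lintegral_swap (f := fun ω s => G (ω, R n ω + s)) hGn.aemeasurable]
    have hms : MeasurableSet {ω | R' ω ≤ R n ω + 1} :=
      measurableSet_le hR'm ((hRm n).add_const _)
    rw [← lintegral_indicator_one hms]
    refine lintegral_mono_ae ?_
    filter_upwards [hK0] with ω hω
    by_cases h : R' ω ≤ R n ω + 1
    · rw [indicator_of_mem (show ω ∈ {ω | R' ω ≤ R n ω + 1} from h)]
      calc ∫⁻ s in Icc (0 : ℝ) 1, G (ω, R n ω + s) ≤ ∫⁻ s in Icc (0 : ℝ) 1, 1 :=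
            lintegral_mono fun s => hG1 _
        _ = 1 := by simp
    · rw [indicator_of_notMem (show ω ∉ {ω | R' ω ≤ R n ω + 1} from h)]
      calc ∫⁻ s in Icc (0 : ℝ) 1, G (ω, R n ω + s)
          = ∫⁻ s in Icc (0 : ℝ) 1, K (ω, R n ω + s) := by
            refine setLIntegral_congr_fun measurableSet_Icc fun s hs => ?_
            have h2 : R n ω + s < R' ω := by
              have := hs.2
              linarith
            exact (if_pos h2).symm
        _ ≤ ∫⁻ s, K (ω, R n ω + s) := setLIntegral_le_lintegral _ _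
        _ = ∫⁻ τ, K (ω, τ) := lintegral_add_left_eq_self (fun τ => K (ω, τ)) (R n ω)
        _ ≤ 0 := hω.le
  have hlim : Tendsto (fun n => P {ω | R' ω ≤ R n ω + 1}) atTop (𝓝 0) := by
    have hms : ∀ n, MeasurableSet {ω | R' ω ≤ R n ω + 1} := fun n =>
      measurableSet_le hR'm ((hRm n).add_const _)
    have h1 := tendsto_lintegral_of_dominated_convergence (μ := P)
      (F := fun n => {ω | R' ω ≤ R n ω + 1}.indicator (1 : Ω → ℝ≥0∞)) (f := fun _ => 0)
      (fun _ => 1) (fun n => measurable_one.indicator (hms n))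
      (fun n => Eventually.of_forall fun ω => indicator_le_self' (by simp) ω) (by simp) ?_
    · simpa only [lintegral_indicator_one (hms _), lintegral_zero] using h1
    · filter_upwards [hR] with ω hω
      refine tendsto_const_nhds.congr' ?_
      filter_upwards [hω.eventually (eventually_lt_atBot (R' ω - 1))] with n hn
      have : ω ∉ {ω | R' ω ≤ R n ω + 1} := by
        intro hh
        have hh' : R' ω ≤ R n ω + 1 := hh
        linarith
      exact (indicator_of_notMem this _).symm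
  have ha0 : a = 0 := le_antisymm (ge_of_tendsto hlim (Eventually.of_forall hd)) bot_le
  have : ∀ᵐ ω ∂P, ω ∉ {ω | volume {s : ℝ | seen X (ω, s) ∈ A} = 0} :=
    measure_eq_zero_iff_ae_notMem.1 ha0
  exact this

end Pool.Agent.R970.FB
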